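import Pool.Agent.Lib.MP_bcc96c_an.Two

/-! From one side to both sides when commutator forms are Arens regular. -/

set_option maxSynthPendingDepth 3

namespace Pool.Agent.Lib.MP_bcc96c_an

open Filter Topology

universe u

variable {A : Type u} [NormedAddCommGroup A] [NormedSpace ℂ A]

theorem exact_unit (m : A →L[ℂ] A →L[ℂ] A) {K : ℝ}
    (h : ∀ (S : Finset A) (ε : ℝ), 0 < ε → ∃ e : A, ‖e‖ ≤ K ∧ ∀ a ∈ S, ‖m e a - a‖ < ε) :
    ∃ E : (A →L[ℂ] ℂ) →L[ℂ] ℂ, (∀ μ, ‖E μ‖ ≤ |K| * ‖μ‖) ∧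
      ∀ (a : A) (μ : A →L[ℂ] ℂ), E (μ.comp (m.flip a)) = μ a := by
  classical
  choose e he he' using fun i : Finset A × ℕ => h i.1 (1 / ((i.2 : ℝ) + 1)) (by positivity)
  let U : Ultrafilter (Finset A × ℕ) := Ultrafilter.of atTop
  have hU : (U : Filter (Finset A × ℕ)) ≤ atTop := Ultrafilter.of_le _
  let f : Finset A × ℕ → WeakDual ℂ (A →L[ℂ] ℂ) := fun i =>
    StrongDual.toWeakDual (NormedSpace.inclusionInDoubleDual ℂ A (e i))
  have hc := WeakDual.isCompact_closedBall (𝕜 := ℂ) (E := A →L[ℂ] ℂ) 0 |K|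
  obtain ⟨E, hE, hlim⟩ := hc.ultrafilter_le_nhds (U.map f) (by
    rw [Ultrafilter.coe_map, le_principal_iff, mem_map]
    refine Eventually.of_forall fun i => ?_
    simp only [f, Set.mem_preimage, mem_closedBall_zero_iff]
    exact (NormedSpace.double_dual_bound ℂ A (e i)).trans ((he i).trans (le_abs_self K)))
  have hE' : ‖WeakDual.toStrongDual E‖ ≤ |K| := by simpa using hE
  refine ⟨WeakDual.toStrongDual E, fun μ => (WeakDual.toStrongDual E).le_of_opNorm_le hE' μ,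
    fun a μ => ?_⟩
  have h1 : Tendsto (fun i => μ (m (e i) a)) U (𝓝 (E (μ.comp (m.flip a)))) :=
    ((WeakDual.eval_continuous (μ.comp (m.flip a))).tendsto E).comp hlim
  have h2 : Tendsto (fun i => m (e i) a) atTop (𝓝 a) := by
    rw [Metric.tendsto_atTop]
    intro ε hε
    obtain ⟨n, hn⟩ := exists_nat_one_div_lt hε
    refine ⟨({a}, n), fun i hi => ?_⟩
    rw [dist_eq_norm]
    refine (he' i a (hi.1 (Finset.mem_singleton_self a))).trans_le (le_trans ?_ hn.le)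
    have : (n : ℝ) ≤ i.2 := by exact_mod_cast hi.2
    gcongr
  exact tendsto_nhds_unique h1 (((μ.continuous.tendsto a).comp h2).mono_left hU)

/-- The bilinear form `(x, y) ↦ μ (m x y)`. -/
noncomputable def bf (m : A →L[ℂ] A →L[ℂ] A) (μ : A →L[ℂ] ℂ) : A →L[ℂ] A →L[ℂ] ℂ :=
  (ContinuousLinearMap.compL ℂ A A ℂ μ).comp m

@[simp] theorem bf_apply (m : A →L[ℂ] A →L[ℂ] A) (μ : A →L[ℂ] ℂ) (x : A) :
    bf m μ x = μ.comp (m x) := rfl

theorem other_side (m : A →L[ℂ] A →L[ℂ] A) (hn : ∀ x y, ‖m x y‖ ≤ ‖x‖ * ‖y‖)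
    (hs : ∀ x y z, m (m x y) z = m x (m y z)) {C : ℝ} (hC : 0 ≤ C)
    (hF : ∀ (S : Finset A) (δ : ℝ), 0 < δ → ∃ F : (A →L[ℂ] ℂ) →L[ℂ] ℂ,
      (∀ (a : A) (μ : A →L[ℂ] ℂ), ‖F (μ.comp (m a))‖ ≤ C * ‖a‖ * ‖μ‖) ∧
      ∀ a ∈ S, ∀ μ : A →L[ℂ] ℂ, ‖F (μ.comp (m a)) - μ a‖ ≤ δ * ‖μ‖)
    (W : Set A) (hreg : ∀ w ∈ W, ∀ (μ : A →L[ℂ] ℂ) (β : A →L[ℂ] A →L[ℂ] ℂ),
      (∀ x y, β x y = μ (m (m w x - m x w) y)) →
      ∀ p q : (A →L[ℂ] ℂ) →L[ℂ] ℂ, p (q.comp β) = q (p.comp β.flip))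
    (hW : ∀ I : Submodule ℂ A, IsClosed (I : Set A) → W ⊆ I → (∀ a, ∀ x ∈ I, m a x ∈ I) → I = ⊤)
    (hE : ∃ K : ℝ, ∀ (S : Finset A) (ε : ℝ), 0 < ε →
      ∃ e : A, ‖e‖ ≤ K ∧ ∀ a ∈ S, ‖m e a - a‖ < ε) :
    ∃ K : ℝ, ∀ (S : Finset A) (ε : ℝ), 0 < ε →
      ∃ e : A, ‖e‖ ≤ K ∧ ∀ a ∈ S, ‖m a e - a‖ < ε := by
  classical
  obtain ⟨K, hK⟩ := hE
  obtain ⟨E, hE, hE'⟩ := exact_unit m hK
  choose F hF1 hF2 using fun i : Finset A × ℕ => hF i.1 (1 / ((i.2 : ℝ) + 1)) (by positivity)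
  have hm : ∀ (μ : A →L[ℂ] ℂ) (a : A), ‖μ.comp (m a)‖ ≤ ‖μ‖ * ‖a‖ := fun μ a =>
    ContinuousLinearMap.opNorm_le_bound _ (by positivity) fun z => by
      refine (μ.le_opNorm _).trans ?_
      rw [mul_assoc]
      exact mul_le_mul_of_nonneg_left (hn a z) (norm_nonneg _)
  have hH0 : ∀ i μ, ‖E ((F i).comp (bf m μ))‖ ≤ |K| * C * ‖μ‖ := fun i μ => by
    rw [mul_assoc]
    refine (hE _).trans (mul_le_mul_of_nonneg_left ?_ (abs_nonneg K))
    refine ContinuousLinearMap.opNorm_le_bound _ (by positivity) fun x => ?_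
    rw [mul_right_comm]
    exact hF1 i x μ
  let H : Finset A × ℕ → (A →L[ℂ] ℂ) →L[ℂ] ℂ := fun i => LinearMap.mkContinuous
    { toFun := fun μ => E ((F i).comp (bf m μ))
      map_add' := fun μ ν => by
        rw [← map_add]
        congr 1
        ext x
        simp [ContinuousLinearMap.add_comp]
      map_smul' := fun c μ => by
        rw [RingHom.id_apply, ← map_smul]
        congr 1
        ext x
        simp [ContinuousLinearMap.smul_comp] } (|K| * C) (hH0 i)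
  have hH : ∀ i μ, H i μ = E ((F i).comp (bf m μ)) := fun _ _ => rfl
  let T : Finset A × ℕ → A →L[ℂ] (A →L[ℂ] ℂ) →L[ℂ] ℂ := fun i =>
    (ContinuousLinearMap.compL ℂ (A →L[ℂ] ℂ) (A →L[ℂ] ℂ) ℂ (H i)).comp
      ((ContinuousLinearMap.compL ℂ A A ℂ).flip.comp m) - NormedSpace.inclusionInDoubleDual ℂ A
  have hT : ∀ i a μ, T i a μ = H i (μ.comp (m a)) - μ a := fun _ _ _ => rfl
  have hT1 : ∀ i a, ‖T i a‖ ≤ (|K| * C + 1) * ‖a‖ := fun i a =>
    ContinuousLinearMap.opNorm_le_bound _ (by positivity) fun μ => by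
      rw [hT]
      have h1 : ‖H i (μ.comp (m a))‖ ≤ |K| * C * (‖μ‖ * ‖a‖) :=
        (hH0 i _).trans (mul_le_mul_of_nonneg_left (hm μ a) (by positivity))
      have h2 := μ.le_opNorm a
      have h3 := norm_sub_le (H i (μ.comp (m a))) (μ a)
      nlinarith
  let I : Submodule ℂ A :=
    { carrier := {a | Tendsto (fun i => T i a) atTop (𝓝 0)}
      add_mem' := fun {a b} ha hb => by
        have := Tendsto.add ha hb
        simpa using this
      zero_mem' := by simp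
      smul_mem' := fun c a ha => by
        have := Tendsto.const_smul ha c
        simpa using this }
  have hI : I = ⊤ := by
    refine hW I ?_ (fun w hw => ?_) (fun b a ha => ?_)
    · have hl : ∀ i, LipschitzWith (Real.toNNReal (|K| * C + 1)) (T i) := fun i =>
        LipschitzWith.of_dist_le' fun x y => by
          rw [dist_eq_norm, dist_eq_norm, ← map_sub]
          exact hT1 i _
      exact (LipschitzWith.uniformEquicontinuous _ _ hl).equicontinuous.isClosed_setOfPred_tendsto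
        (f := fun _ => 0) continuous_const
    · change Tendsto (fun i => T i w) atTop (𝓝 0)
      rw [Metric.tendsto_atTop]
      intro ε hε
      obtain ⟨n, hn'⟩ := exists_nat_one_div_lt hε
      refine ⟨({w}, n), fun i hi => ?_⟩
      rw [dist_zero_right]
      have h1 : 1 / ((i.2 : ℝ) + 1) ≤ 1 / ((n : ℝ) + 1) := by
        have : (n : ℝ) ≤ i.2 := by exact_mod_cast hi.2
        gcongr
      refine lt_of_le_of_lt (ContinuousLinearMap.opNorm_le_bound _ (by positivity) fun μ => ?_)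
        (h1.trans_lt hn')
      have h0 := hreg w hw μ (bf m (μ.comp (m w)) - (bf m μ).comp (m.flip w))
        (fun x y => by simp [hs]) E (F i)
      have h2 : E.comp (bf m (μ.comp (m w)) - (bf m μ).comp (m.flip w)).flip = 0 := by
        ext y
        have h3 : (bf m (μ.comp (m w)) - (bf m μ).comp (m.flip w)).flip y =
            (μ.comp (m w)).comp (m.flip y) - μ.comp (m.flip (m w y)) := by
          ext x
          simp [hs]
        rw [ContinuousLinearMap.comp_apply, h3, map_sub, hE', hE']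
        simp
      rw [h2, map_zero, ContinuousLinearMap.comp_sub, map_sub, ← hH,
        ← ContinuousLinearMap.comp_assoc, hE', sub_eq_zero] at h0
      rw [hT, h0]
      exact hF2 i w (hi.1 (Finset.mem_singleton_self w)) μ
    · change Tendsto (fun i => T i (m b a)) atTop (𝓝 0)
      have h1 : Tendsto (fun i => ‖T i a‖ * ‖b‖) atTop (𝓝 0) := by
        simpa using (tendsto_zero_iff_norm_tendsto_zero.1 ha).mul_const ‖b‖
      refine squeeze_zero_norm (fun i => ?_) h1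
      refine ContinuousLinearMap.opNorm_le_bound _ (by positivity) fun μ => ?_
      have h2 : T i (m b a) μ = T i a (μ.comp (m b)) := by
        rw [hT, hT]
        congr 2
        ext z
        simp [hs]
      rw [h2, mul_assoc, mul_comm ‖b‖]
      exact ((T i a).le_opNorm _).trans (mul_le_mul_of_nonneg_left (hm μ b) (norm_nonneg _))
  refine ⟨|K| * C, fun S ε hε => ?_⟩
  set δ : ℝ := ε / (S.card + 1) with hδ
  have hδ0 : 0 < δ := by positivity
  have hev : ∀ᶠ i in atTop, ∀ a ∈ S, ‖T i a‖ < δ := by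
    rw [eventually_all_finset]
    intro a _
    have ha : a ∈ I := hI ▸ Submodule.mem_top
    exact (tendsto_zero_iff_norm_tendsto_zero.1 ha).eventually (gt_mem_nhds hδ0)
  obtain ⟨i, hi⟩ := hev.exists
  obtain ⟨e, he, h'⟩ := hb (S := S) (fun b => m (b : A)) (fun b => (b : A))
    (R := |K| * C) (by positivity) hδ0.le hδ0 (by
    intro μ
    have h6 : ‖H i (∑ b : S, (μ b).comp (m (b : A)))‖ ≤ _ := hH0 i _
    have h7 : ‖∑ b : S, H i ((μ b).comp (m (b : A))) - ∑ b : S, μ b b‖ ≤ δ * ∑ b, ‖μ b‖ := by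
      rw [← Finset.sum_sub_distrib, Finset.mul_sum]
      exact (norm_sum_le _ _).trans (Finset.sum_le_sum fun b _ =>
        (T i b).le_of_opNorm_le (hi b b.2).le (μ b))
    have h8 := norm_le_norm_add_norm_sub (∑ b : S, H i ((μ b).comp (m (b : A)))) (∑ b : S, μ b b)
    rw [← map_sum] at h7 h8
    refine (Complex.re_le_norm _).trans ?_
    linarith)
  refine ⟨e, he, fun a ha => ?_⟩
  have h1 := h' ⟨a, ha⟩
  have h2 : (S.card : ℝ) * δ + δ = ε := by rw [hδ]; field_simp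
  simpa [h2] using h1

theorem regular_two_sided {A : Type u} [NonUnitalNormedRing A] [NormedSpace ℂ A]
    [IsScalarTower ℂ A A] [SMulCommClass ℂ A A] (h : BAA A) (W : Set A)
    (hreg : ∀ w ∈ W, ∀ (μ : A →L[ℂ] ℂ) (β : A →L[ℂ] A →L[ℂ] ℂ),
      ((∀ x y, β x y = μ ((w * x - x * w) * y)) ∨ ∀ x y, β x y = μ (y * (w * x - x * w))) →
      ∀ p q : (A →L[ℂ] ℂ) →L[ℂ] ℂ, p (q.comp β) = q (p.comp β.flip))
    (hW : ∀ I : Submodule ℂ A, IsClosed (I : Set A) → W ⊆ I →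
      ((∀ a, ∀ x ∈ I, a * x ∈ I) ∨ ∀ a, ∀ x ∈ I, x * a ∈ I) → I = ⊤) :
    ∃ K : ℝ, ∀ F : Finset A, ∀ ε : ℝ, 0 < ε →
      ∃ e : A, ‖e‖ ≤ K ∧ ∀ a ∈ F, ‖e * a - a‖ < ε ∧ ‖a * e - a‖ < ε := by
  obtain ⟨C, hC⟩ := h (XM A) (LM A) (RM A) ⟨LM_mul, RM_mul, LM_RM⟩ (DM A) DM_mul
  rcases (dichotomy hC).2 with h1 | h1
  · refine two_sided h1 (other_side (ContinuousLinearMap.mul ℂ A) (fun x y => norm_mul_le x y)
      (fun x y z => mul_assoc x y z) (abs_nonneg C) (fun S δ hδ => ?_) W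
      (fun a ha μ β hβ => hreg a ha μ β (Or.inl hβ)) (fun I h2 h3 h4 => hW I h2 h3 (Or.inl h4)) h1)
    obtain ⟨η, hb, hη⟩ := hC S δ hδ
    have h3 : ∀ (a : A) (μ : A →L[ℂ] ℂ),
        RM A a (0, μ, 0) = (0, μ.comp (ContinuousLinearMap.mul ℂ A a), 0) := by
      intro a μ; rw [RM_apply]; ext <;> simp
    have h4 : ∀ (a : A) (μ : A →L[ℂ] ℂ), LM A a (0, μ, 0) = 0 := by
      intro a μ; rw [LM_apply]; ext <;> simp
    refine ⟨η.comp ((ContinuousLinearMap.inr ℂ _ _).comp (ContinuousLinearMap.inl ℂ _ _)),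
      fun a μ => ?_, fun a ha μ => ?_⟩
    · have h2 := (ad (LM A) (RM A) η a).le_of_opNorm_le ((hb a).trans
        (mul_le_mul_of_nonneg_right (le_abs_self C) (norm_nonneg a))) (0, μ, 0)
      simpa [ad, h3, h4, Prod.norm_def] using h2
    · have h2 := (ad (LM A) (RM A) η a - DM A a).le_of_opNorm_le (hη a ha).le (0, μ, 0)
      simpa [ad, h3, h4, DM_apply, Prod.norm_def] using h2
  · refine two_sided (other_side (ContinuousLinearMap.mul ℂ A).flip
      (fun x y => (norm_mul_le y x).trans_eq (mul_comm _ _))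
      (fun x y z => (mul_assoc z y x).symm) (abs_nonneg C) (fun S δ hδ => ?_) W
      (fun a ha μ β hβ => hreg a ha (-μ) β (Or.inr fun x y => ?_))
      (fun I h2 h3 h4 => hW I h2 h3 (Or.inr h4)) h1) h1
    · obtain ⟨η, hb, hη⟩ := hC S δ hδ
      have h3 : ∀ (a : A) (μ : A →L[ℂ] ℂ),
          LM A a (0, 0, μ) = (0, 0, μ.comp ((ContinuousLinearMap.mul ℂ A).flip a)) := by
        intro a μ; rw [LM_apply]; ext <;> simp
      have h4 : ∀ (a : A) (μ : A →L[ℂ] ℂ), RM A a (0, 0, μ) = 0 := by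
        intro a μ; rw [RM_apply]; ext <;> simp
      refine ⟨η.comp ((ContinuousLinearMap.inr ℂ _ _).comp (ContinuousLinearMap.inr ℂ _ _)),
        fun a μ => ?_, fun a ha μ => ?_⟩
      · have h2 := (ad (LM A) (RM A) η a).le_of_opNorm_le ((hb a).trans
          (mul_le_mul_of_nonneg_right (le_abs_self C) (norm_nonneg a))) (0, 0, μ)
        simpa [ad, h3, h4, Prod.norm_def] using h2
      · have h2 := (ad (LM A) (RM A) η a - DM A a).le_of_opNorm_le (hη a ha).le (0, 0, μ)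
        rw [norm_sub_rev]
        simpa [ad, h3, h4, DM_apply, Prod.norm_def, neg_add_eq_sub] using h2
    · rw [hβ, neg_apply, ← map_neg, ← mul_neg, neg_sub]
      rfl

end Pool.Agent.Lib.MP_bcc96c_an
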