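import Mathlib

/-! Two elementary tools: removal of finitely many continuous linear conditions from a norm
estimate, and a Hahn-Banach lemma producing approximate solutions of bounded norm. -/

namespace Pool.Agent.Lib.MP_bcc96c_an

open Finset

theorem fd_aux {V Z : Type*} [AddCommGroup V] [Module ℝ V] [SeminormedAddCommGroup Z]
    [NormedSpace ℝ Z] (ρ : V →ₗ[ℝ] Z) (t : V →ₗ[ℝ] ℂ) (n : ℕ) :
    ∀ (l : Fin n → Z →L[ℝ] ℝ) (P : Submodule ℝ V) (c : ℝ),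
      (∀ x ∈ P, (∀ i, l i (ρ x) = 0) → ‖t x‖ ≤ c * ‖ρ x‖) →
      ∃ c' : ℝ, ∀ x ∈ P, ‖t x‖ ≤ c' * ‖ρ x‖ := by
  induction n with
  | zero => exact fun l P c h => ⟨c, fun x hx => h x hx fun i => i.elim0⟩
  | succ n ih =>
    intro l P c h
    obtain ⟨c₁, hc₁⟩ := ih (fun i => l i.succ)
      (P ⊓ LinearMap.ker (((l 0 : Z →L[ℝ] ℝ) : Z →ₗ[ℝ] ℝ) ∘ₗ ρ)) c (by
        intro x hx hl
        refine h x hx.1 fun i => ?_
        refine Fin.cases ?_ hl i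
        simpa using hx.2)
    by_cases h0 : ∀ x ∈ P, l 0 (ρ x) = 0
    · exact ⟨c₁, fun x hx => hc₁ x ⟨hx, by simpa using h0 x hx⟩⟩
    · push Not at h0
      obtain ⟨y, hy, hy0⟩ := h0
      obtain ⟨x₀, hx₀, hx1⟩ : ∃ x₀ ∈ P, l 0 (ρ x₀) = 1 :=
        ⟨(l 0 (ρ y))⁻¹ • y, P.smul_mem _ hy, by simp [hy0]⟩
      refine ⟨|c₁| * (1 + ‖l 0‖ * ‖ρ x₀‖) + ‖l 0‖ * ‖t x₀‖, fun x hx => ?_⟩
      have h1 := hc₁ (x - l 0 (ρ x) • x₀) ⟨P.sub_mem hx (P.smul_mem _ hx₀), by simp [hx1]⟩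
      have h2 : |l 0 (ρ x)| ≤ ‖l 0‖ * ‖ρ x‖ := (l 0).le_opNorm _
      have h3 : ‖ρ (x - l 0 (ρ x) • x₀)‖ ≤ ‖ρ x‖ + ‖l 0‖ * ‖ρ x‖ * ‖ρ x₀‖ := by
        rw [map_sub, map_smul]
        refine (norm_sub_le _ _).trans ?_
        rw [norm_smul, Real.norm_eq_abs]
        gcongr
      have h4 : ‖t x‖ ≤ ‖t (x - l 0 (ρ x) • x₀)‖ + ‖l 0‖ * ‖ρ x‖ * ‖t x₀‖ := by
        have : t x = t (x - l 0 (ρ x) • x₀) + l 0 (ρ x) • t x₀ := by
          rw [map_sub, map_smul]; abel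
        refine (congrArg norm this).le.trans ((norm_add_le _ _).trans ?_)
        rw [norm_smul, Real.norm_eq_abs]
        gcongr
      have h5 : c₁ * ‖ρ (x - l 0 (ρ x) • x₀)‖ ≤ |c₁| * (‖ρ x‖ + ‖l 0‖ * ‖ρ x‖ * ‖ρ x₀‖) :=
        (mul_le_mul_of_nonneg_right (le_abs_self _) (norm_nonneg _)).trans
          (mul_le_mul_of_nonneg_left h3 (abs_nonneg _))
      nlinarith

theorem fd {V Z : Type*} [AddCommGroup V] [Module ℝ V] [SeminormedAddCommGroup Z]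
    [NormedSpace ℝ Z] (ρ : V →ₗ[ℝ] Z) (t : V →ₗ[ℝ] ℂ) {n : ℕ} (l : Fin n → Z →L[ℝ] ℝ) (c : ℝ)
    (h : ∀ x, (∀ i, l i (ρ x) = 0) → ‖t x‖ ≤ c * ‖ρ x‖) :
    ∃ c' : ℝ, 0 ≤ c' ∧ ∀ x, ‖t x‖ ≤ c' * ‖ρ x‖ := by
  obtain ⟨c', hc'⟩ := fd_aux ρ t n l ⊤ c fun x _ => h x
  exact ⟨|c'|, abs_nonneg _, fun x => (hc' x trivial).trans
    (mul_le_mul_of_nonneg_right (le_abs_self _) (norm_nonneg _))⟩

theorem re_le_of_ball {Z : Type*} [NormedAddCommGroup Z] [NormedSpace ℂ Z] (f : Z →L[ℂ] ℂ)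
    {r u : ℝ} (hr : 0 ≤ r) (h : ∀ w : Z, ‖w‖ < r → (f w).re ≤ u) (hu : 0 ≤ u) : r * ‖f‖ ≤ u := by
  rcases hr.eq_or_lt with rfl | hr
  · simpa using hu
  by_contra hc
  push Not at hc
  have h1 : u / r < ‖f‖ := by rw [div_lt_iff₀ hr]; linarith
  obtain ⟨x, hx, hfx⟩ := f.exists_lt_apply_of_lt_opNorm h1
  obtain ⟨c, hc, hcw⟩ := Complex.exists_norm_eq_mul_self (f x)
  have := h ((r : ℂ) • c • x) (by
    rw [norm_smul, norm_smul, hc, one_mul, Complex.norm_real, Real.norm_eq_abs, abs_of_pos hr]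
    nlinarith)
  rw [map_smul, map_smul, smul_eq_mul, smul_eq_mul, ← hcw, ← Complex.ofReal_mul,
    Complex.ofReal_re] at this
  rw [div_lt_iff₀ hr] at hfx
  linarith

theorem hb {A S : Type*} [NormedAddCommGroup A] [NormedSpace ℂ A] [Fintype S]
    (ρ : S → A →L[ℂ] A) (z : S → A) {R δ ε : ℝ} (hR : 0 ≤ R) (hδ : 0 ≤ δ) (hε : 0 < ε)
    (h : ∀ μ : S → A →L[ℂ] ℂ,
      (∑ b, μ b (z b)).re ≤ R * ‖∑ b, (μ b).comp (ρ b)‖ + δ * ∑ b, ‖μ b‖) :
    ∃ e : A, ‖e‖ ≤ R ∧ ∀ b, ‖ρ b e - z b‖ < Fintype.card S * δ + ε := by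
  classical
  set r : ℝ := Fintype.card S * δ + ε with hr
  have hr0 : 0 < r := by positivity
  let P : A →L[ℂ] (S → A) := ContinuousLinearMap.pi ρ
  by_contra hc
  push Not at hc
  have hdis : Disjoint (Metric.ball z r) (P '' Metric.closedBall 0 R) := by
    rw [Set.disjoint_left]
    rintro _ hw ⟨e, he, rfl⟩
    obtain ⟨b, hb⟩ := hc e (by simpa using he)
    rw [mem_ball_iff_norm] at hw
    exact absurd ((norm_le_pi_norm (P e - z) b).trans_lt hw) (not_lt.2 hb)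
  have hconv : Convex ℝ (P '' Metric.closedBall 0 R) :=
    (convex_closedBall (0 : A) R).is_linear_image (P.restrictScalars ℝ).toLinearMap.isLinear
  obtain ⟨f, u, h1, h2⟩ := RCLike.geometric_hahn_banach_open (𝕜 := ℂ) (convex_ball z r)
    Metric.isOpen_ball hconv hdis
  simp only [RCLike.re_to_complex] at h1 h2
  have hu0 : u ≤ 0 := by simpa using h2 (P 0) ⟨0, by simpa using hR, rfl⟩
  have hz : (f z).re < u := h1 z (Metric.mem_ball_self hr0)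
  have k1 : r * ‖f‖ ≤ u - (f z).re := by
    refine re_le_of_ball f hr0.le (fun w hw => ?_) (by linarith)
    have := h1 (z + w) (by simpa using hw)
    rw [map_add, Complex.add_re] at this
    linarith
  have k2 : R * ‖f.comp P‖ ≤ -u := by
    refine re_le_of_ball _ hR (fun w hw => ?_) (by linarith)
    have := h2 (P (-w)) ⟨-w, by simpa using hw.le, rfl⟩
    rw [map_neg, map_neg, Complex.neg_re] at this
    change (f (P w)).re ≤ -u
    linarith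
  let μ : S → A →L[ℂ] ℂ := fun b => (-f).comp (ContinuousLinearMap.single ℂ (fun _ => A) b)
  have hμ : ∀ w : S → A, ∑ b, μ b (w b) = -f w := by
    intro w
    conv_rhs => rw [← Finset.univ_sum_single w, map_sum, ← Finset.sum_neg_distrib]
    rfl
  have e1 : ∑ b, (μ b).comp (ρ b) = -(f.comp P) := by
    ext e
    rw [ContinuousLinearMap.sum_apply]
    exact hμ (P e)
  have e2 : ∑ b, ‖μ b‖ ≤ Fintype.card S * ‖f‖ := by
    have : ∀ b, ‖μ b‖ ≤ ‖f‖ := fun b => by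
      refine ContinuousLinearMap.opNorm_le_bound _ (norm_nonneg _) fun x => ?_
      change ‖-f (Pi.single b x)‖ ≤ _
      rw [norm_neg]
      refine (f.le_opNorm _).trans ?_
      rw [Pi.norm_single]
    simpa using Finset.sum_le_sum (s := univ) fun b _ => this b
  have k3 := h μ
  rw [hμ, e1, norm_neg, Complex.neg_re] at k3
  have k4 : δ * ∑ b, ‖μ b‖ ≤ δ * (Fintype.card S * ‖f‖) := by gcongr
  have k5 : ε * ‖f‖ ≤ 0 := by rw [hr] at k1; nlinarith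
  have k6 : ‖f‖ = 0 := le_antisymm (by nlinarith [norm_nonneg f]) (norm_nonneg _)
  rw [norm_eq_zero] at k6
  rw [k6] at hz
  simp at hz
  linarith

end Pool.Agent.Lib.MP_bcc96c_an
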