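import Pool.Agent.Lib.MP_bcc96c_an.Fred

/-! From a Fredholm module map on the dual to a bounded left approximate identity. -/

namespace Pool.Agent.Lib.MP_bcc96c_an

variable {A : Type*} [NonUnitalNormedRing A] [NormedSpace ℂ A] [IsScalarTower ℂ A A]
  [SMulCommClass ℂ A A]

/-- Right multiplication `x ↦ x * b`. -/
noncomputable def rm (b : A) : A →L[ℂ] A := (ContinuousLinearMap.mul ℂ A).flip b

/-- Left multiplication `x ↦ b * x`. -/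
noncomputable def lm (b : A) : A →L[ℂ] A := ContinuousLinearMap.mul ℂ A b

@[simp] theorem rm_apply (b x : A) : rm b x = x * b := rfl

@[simp] theorem lm_apply (b x : A) : lm b x = b * x := rfl

theorem norm_comp_rm (μ : A →L[ℂ] ℂ) (b : A) : ‖μ.comp (rm b)‖ ≤ ‖μ‖ * ‖b‖ :=
  ContinuousLinearMap.opNorm_le_bound _ (by positivity) fun x => by
    refine (μ.le_opNorm _).trans ?_
    rw [mul_assoc, mul_comm ‖b‖]
    exact mul_le_mul_of_nonneg_left (norm_mul_le _ _) (norm_nonneg _)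

theorem norm_comp_lm (μ : A →L[ℂ] ℂ) (b : A) : ‖μ.comp (lm b)‖ ≤ ‖μ‖ * ‖b‖ :=
  ContinuousLinearMap.opNorm_le_bound _ (by positivity) fun x => by
    refine (μ.le_opNorm _).trans ?_
    rw [mul_assoc]
    exact mul_le_mul_of_nonneg_left (norm_mul_le _ _) (norm_nonneg _)

theorem kills (Ψ : (A →L[ℂ] ℂ) →L[ℂ] ℂ) (T : (A →L[ℂ] ℂ) →L[ℂ] (A →L[ℂ] ℂ))
    (hT : ∀ μ a, T μ a = Ψ (μ.comp (rm a)))
    (hfd : FiniteDimensional ℂ (LinearMap.ker (T : (A →L[ℂ] ℂ) →ₗ[ℂ] (A →L[ℂ] ℂ))))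
    (hr : ∀ (z : A) (ε : ℝ), 0 < ε → ∃ f : A, ‖z * f - z‖ < ε) (μ : A →L[ℂ] ℂ) (hμ : T μ = 0) :
    Ψ μ = 0 := by
  set N := LinearMap.ker (T : (A →L[ℂ] ℂ) →ₗ[ℂ] (A →L[ℂ] ℂ)) with hN
  let L : A → N →ₗ[ℂ] ℂ := fun z => (ContinuousLinearMap.apply ℂ ℂ z).toLinearMap ∘ₗ N.subtype
  have h1 : (Ψ.toLinearMap ∘ₗ N.subtype) ∈ Submodule.span ℂ (Set.range L) := by
    refine FiniteDimensional.mem_span_of_iInf_ker_le_ker (𝕜 := ℂ) (E := N) fun n hn => ?_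
    have : (n : A →L[ℂ] ℂ) = 0 := by
      ext z
      exact (Submodule.mem_iInf _).1 hn z
    simp [this]
  have h2 : ∀ K ∈ Submodule.span ℂ (Set.range L), ∃ z : A, ∀ n : N, K n = (n : A →L[ℂ] ℂ) z := by
    intro K hK
    induction hK using Submodule.span_induction with
    | mem x hx => obtain ⟨z, rfl⟩ := hx; exact ⟨z, fun n => rfl⟩
    | zero => exact ⟨0, fun n => by simp⟩
    | add x y _ _ hx hy =>
      obtain ⟨z, hz⟩ := hx
      obtain ⟨w, hw⟩ := hy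
      exact ⟨z + w, fun n => by simp [hz, hw]⟩
    | smul c x _ hx =>
      obtain ⟨z, hz⟩ := hx
      exact ⟨c • z, fun n => by simp [hz]⟩
  obtain ⟨z, hz⟩ := h2 _ h1
  have h3 : ∀ f : A, μ (z * f) = 0 := by
    intro f
    have hm : μ.comp (rm f) ∈ N := by
      change T (μ.comp (rm f)) = 0
      ext a
      have := hT μ (a * f)
      rw [hμ] at this
      rw [hT]
      refine Eq.trans ?_ this.symm
      congr 1
      ext x
      simp [mul_assoc]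
    have h4 : Ψ (μ.comp (rm f)) = μ (z * f) := hz ⟨_, hm⟩
    rw [← h4, ← hT, hμ]
    rfl
  have h5 : Ψ μ = μ z := hz ⟨μ, hμ⟩
  rw [h5, ← norm_le_zero_iff]
  refine le_of_forall_pos_le_add fun η hη => ?_
  obtain ⟨f, hf⟩ := hr z (η / (‖μ‖ + 1)) (by positivity)
  have h6 : ‖μ z‖ = ‖μ (z * f - z)‖ := by rw [map_sub, h3, zero_sub, norm_neg]
  rw [h6, zero_add]
  refine (μ.le_opNorm _).trans ?_
  rw [lt_div_iff₀ (by positivity)] at hf
  nlinarith [norm_nonneg μ, norm_nonneg (z * f - z)]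

theorem core (Ψ : (A →L[ℂ] ℂ) →L[ℂ] ℂ) (T : (A →L[ℂ] ℂ) →L[ℂ] (A →L[ℂ] ℂ))
    (hT : ∀ μ a, T μ a = Ψ (μ.comp (rm a)))
    (hfd : FiniteDimensional ℂ (LinearMap.ker (T : (A →L[ℂ] ℂ) →ₗ[ℂ] (A →L[ℂ] ℂ))))
    {n : ℕ} (l : Fin n → (A →L[ℂ] ℂ) →L[ℝ] ℝ) (c₂ : ℝ)
    (hl : ∀ ψ, (∀ i, l i ψ = 0) → ∃ ν, T ν = ψ ∧ ‖ν‖ ≤ c₂ * ‖ψ‖)
    (hr : ∀ (z : A) (ε : ℝ), 0 < ε → ∃ f : A, ‖z * f - z‖ < ε)
    (hle : ∀ (F : Finset A) (ε : ℝ), 0 < ε → ∃ e : A, ∀ a ∈ F, ‖e * a - a‖ < ε) :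
    ∃ K : ℝ, ∀ (F : Finset A) (ε : ℝ), 0 < ε → ∃ e : A, ‖e‖ ≤ K ∧ ∀ a ∈ F, ‖e * a - a‖ < ε := by
  classical
  obtain ⟨c₁, hc₁, ha⟩ := fd (T.restrictScalars ℝ).toLinearMap (Ψ.restrictScalars ℝ).toLinearMap l
    (‖Ψ‖ * c₂) (by
      intro ψ hψ
      obtain ⟨ν, hν, hn⟩ := hl (T ψ) hψ
      have h1 := kills Ψ T hT hfd hr (ψ - ν) (by rw [map_sub, hν, sub_self])
      rw [map_sub, sub_eq_zero] at h1
      change ‖Ψ ψ‖ ≤ ‖Ψ‖ * c₂ * ‖T ψ‖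
      rw [h1, mul_assoc]
      exact (Ψ.le_opNorm _).trans (mul_le_mul_of_nonneg_left hn (norm_nonneg _)))
  have ha' : ∀ ψ, ‖Ψ ψ‖ ≤ c₁ * ‖T ψ‖ := ha
  let ρ : (A →₀ (A →L[ℂ] ℂ)) →ₗ[ℝ] (A →L[ℂ] ℂ) := Finsupp.lsum ℝ fun b =>
    (((ContinuousLinearMap.compL ℂ A A ℂ).flip (rm b)).restrictScalars ℝ).toLinearMap
  let t : (A →₀ (A →L[ℂ] ℂ)) →ₗ[ℝ] ℂ := Finsupp.lsum ℝ fun b =>
    ((ContinuousLinearMap.apply ℂ ℂ b).restrictScalars ℝ).toLinearMap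
  have hρ : ∀ x, ρ x = ∑ b ∈ x.support, (x b).comp (rm b) := fun x => rfl
  have ht : ∀ x, t x = ∑ b ∈ x.support, x b b := fun x => rfl
  have hx : ∀ x, (∀ i, l i (ρ x) = 0) → ‖t x‖ ≤ c₁ * ‖ρ x‖ := by
    intro x hx
    obtain ⟨ν, hν, -⟩ := hl (ρ x) hx
    set s : ℝ := ∑ b ∈ x.support, ‖x b‖ with hs
    have hs0 : 0 ≤ s := Finset.sum_nonneg fun _ _ => norm_nonneg _
    refine le_of_forall_pos_le_add fun η hη => ?_
    set ε : ℝ := η / ((c₁ + 1) * s + 1) with hε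
    have hε0 : 0 < ε := by positivity
    obtain ⟨e, he⟩ := hle x.support ε hε0
    have h1 : ‖ρ x e‖ ≤ c₁ * ‖(ρ x).comp (rm e)‖ := by
      have h2 : T (ν.comp (rm e)) = (ρ x).comp (rm e) := by
        ext a
        rw [hT, ← hν]
        change _ = T ν (a * e)
        rw [hT]
        congr 1
        ext x
        simp [mul_assoc]
      rw [← h2]
      conv_lhs => rw [← hν, hT]
      exact ha' _
    have h3 : ‖(ρ x).comp (rm e) - ρ x‖ ≤ s * ε := by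
      have : (ρ x).comp (rm e) - ρ x = ∑ b ∈ x.support, (x b).comp (rm (e * b - b)) := by
        ext a
        simp [hρ, mul_sub, mul_assoc, Finset.sum_sub_distrib]
      rw [this, hs, Finset.sum_mul]
      refine (norm_sum_le _ _).trans (Finset.sum_le_sum fun b hb => ?_)
      exact (norm_comp_rm _ _).trans (mul_le_mul_of_nonneg_left (he b hb).le (norm_nonneg _))
    have h4 : ‖ρ x e - t x‖ ≤ s * ε := by
      have : ρ x e - t x = ∑ b ∈ x.support, x b (e * b - b) := by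
        simp [hρ, ht, Finset.sum_sub_distrib]
      rw [this, hs, Finset.sum_mul]
      refine (norm_sum_le _ _).trans (Finset.sum_le_sum fun b hb => ?_)
      exact ((x b).le_opNorm _).trans (mul_le_mul_of_nonneg_left (he b hb).le (norm_nonneg _))
    have h5 : ‖(ρ x).comp (rm e)‖ ≤ ‖ρ x‖ + s * ε := by
      linarith [norm_le_norm_add_norm_sub' ((ρ x).comp (rm e)) (ρ x)]
    have h6 : ‖t x‖ ≤ ‖ρ x e‖ + s * ε := by
      linarith [norm_le_norm_add_norm_sub (ρ x e) (t x)]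
    have h7 : ((c₁ + 1) * s + 1) * ε = η := by rw [hε]; field_simp
    nlinarith [mul_le_mul_of_nonneg_left h5 hc₁]
  obtain ⟨K, hK, hb⟩ := fd (V := A →₀ (A →L[ℂ] ℂ)) (Z := A →L[ℂ] ℂ) ρ t l c₁ hx
  refine ⟨K, fun F ε hε => ?_⟩
  obtain ⟨e, he, h⟩ := Pool.Agent.Lib.MP_bcc96c_an.hb (S := F) (fun b => rm (b : A))
    (fun b => (b : A)) hK le_rfl hε (by
      intro μ
      have h1 := hb (∑ b : F, Finsupp.single (b : A) (μ b))
      simp only [map_sum, ρ, t, Finsupp.lsum_single] at h1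
      rw [zero_mul, add_zero]
      exact (Complex.re_le_norm _).trans h1)
  exact ⟨e, he, fun a ha => by simpa using h ⟨a, ha⟩⟩

end Pool.Agent.Lib.MP_bcc96c_an
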