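import Mathlib

/-! Definitions for the statements on bounded approximate amenability. -/

namespace Pool.Agent.Lib.MP_bcc96c_an

universe u

/-- `L a x = a · x` and `R a x = x · a` satisfy the bimodule laws. -/
def IsBimodule {A X : Type u} [Mul A] (L R : A → X → X) : Prop :=
  (∀ a b : A, ∀ x : X, L (a * b) x = L a (L b x)) ∧
  (∀ a b : A, ∀ x : X, R (a * b) x = R b (R a x)) ∧
  (∀ a b : A, ∀ x : X, L a (R b x) = R b (L a x))

/-- `D (a b) = a · D b + D a · b` for the dual actions `(a · ξ) x = ξ (x · a)` and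
`(ξ · b) x = ξ (b · x)`. -/
def IsDerivation {A X : Type u} [Mul A] (L R : A → X → X) (D : A → X → ℂ) : Prop :=
  ∀ a b : A, ∀ x : X, D (a * b) x = D b (R a x) + D a (L b x)

/-- The inner derivation `a · η - η · a` in the dual module. -/
noncomputable def ad {A X : Type u} [NormedAddCommGroup X] [NormedSpace ℂ X]
    (L R : A → X →L[ℂ] X) (η : X →L[ℂ] ℂ) (a : A) : X →L[ℂ] ℂ :=
  η.comp (R a) - η.comp (L a)

/-- `D` is a pointwise norm limit of uniformly bounded inner derivations. -/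
def BddApproxInner {A X : Type u} [Norm A] [NormedAddCommGroup X] [NormedSpace ℂ X]
    (L R : A → X →L[ℂ] X) (D : A → X →L[ℂ] ℂ) : Prop :=
  ∃ C : ℝ, ∀ F : Finset A, ∀ ε : ℝ, 0 < ε → ∃ η : X →L[ℂ] ℂ,
    (∀ a : A, ‖ad L R η a‖ ≤ C * ‖a‖) ∧ ∀ a ∈ F, ‖ad L R η a - D a‖ < ε

/-- Every bounded derivation into the dual of the Banach bimodule `X` with actions `L`, `R` is
boundedly approximately inner. -/
def AllInner {A X : Type u} [NonUnitalNormedRing A] [NormedSpace ℂ A] [NormedAddCommGroup X]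
    [NormedSpace ℂ X] (L R : A → X →L[ℂ] X) : Prop :=
  ∀ D : A →L[ℂ] (X →L[ℂ] ℂ),
    IsDerivation (fun a x => L a x) (fun a x => R a x) (fun a x => D a x) → BddApproxInner L R D

/-- Bounded approximate amenability. -/
def BAA (A : Type u) [NonUnitalNormedRing A] [NormedSpace ℂ A] : Prop :=
  ∀ (X : Type u) [NormedAddCommGroup X] [NormedSpace ℂ X] [CompleteSpace X]
    (L R : A →L[ℂ] X →L[ℂ] X), IsBimodule (fun a x => L a x) (fun a x => R a x) → AllInner L R

/-- A bounded left approximate identity. -/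
def HasBLAI (A : Type u) [NonUnitalNormedRing A] : Prop :=
  ∃ K : ℝ, ∀ F : Finset A, ∀ ε : ℝ, 0 < ε → ∃ e : A, ‖e‖ ≤ K ∧ ∀ a ∈ F, ‖e * a - a‖ < ε

/-- A bounded right approximate identity. -/
def HasBRAI (A : Type u) [NonUnitalNormedRing A] : Prop :=
  ∃ K : ℝ, ∀ F : Finset A, ∀ ε : ℝ, 0 < ε → ∃ e : A, ‖e‖ ≤ K ∧ ∀ a ∈ F, ‖a * e - a‖ < ε

end Pool.Agent.Lib.MP_bcc96c_an
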