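import Pool.Agent.Lib.MP_bcc96c_an.FrStep

/-! The recursion and the limit matrices. -/

namespace Pool.Agent.Lib.MP_bcc96c_an

open Filter Topology

universe u

theorem lim2 {E : Type u} [NormedAddCommGroup E] [CompleteSpace E] (V : ℕ → E) (τ : ℕ → ℝ)
    (h0 : ∀ n, 0 < τ n) (h1 : ∀ n, τ (n + 1) ≤ τ n / 2) (hV : ∀ n, ‖V (n + 2) - V n‖ ≤ 4 * τ n) :
    ∃ S : ℕ → E, ∀ n, ‖V n - S (n % 2)‖ ≤ 8 * τ n := by
  have k1 : ∀ n j, ‖V (n + 2 * j) - V n‖ ≤ 8 * τ n - 8 * τ (n + 2 * j) := by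
    intro n j
    induction j with
    | zero => simp
    | succ j ih =>
      have a1 := norm_sub_le_norm_sub_add_norm_sub (V (n + 2 * j + 2)) (V (n + 2 * j)) (V n)
      have a2 := hV (n + 2 * j)
      have a3 := h1 (n + 2 * j)
      have a4 := h1 (n + 2 * j + 1)
      have a5 := h0 (n + 2 * j)
      rw [show n + 2 * (j + 1) = n + 2 * j + 2 by ring]
      rw [show n + 2 * j + 1 + 1 = n + 2 * j + 2 by ring] at a4
      linarith
  have k2 : ∀ n, τ n ≤ τ 0 * (1 / 2) ^ n := by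
    intro n
    induction n with
    | zero => simp
    | succ n ih => rw [pow_succ]; linarith [h1 n]
  have k3 : ∀ p, ∃ a, Tendsto (fun j => V (p + 2 * j)) atTop (𝓝 a) := by
    intro p
    refine cauchySeq_tendsto_of_complete
      (cauchySeq_of_le_geometric (1 / 2) (4 * τ 0) (by norm_num) fun j => ?_)
    rw [dist_comm, dist_eq_norm, show p + 2 * (j + 1) = p + 2 * j + 2 by ring]
    refine (hV _).trans ?_
    have a1 : (1 / 2 : ℝ) ^ (p + 2 * j) ≤ (1 / 2) ^ j :=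
      pow_le_pow_of_le_one (by norm_num) (by norm_num) (by omega)
    have a2 := mul_le_mul_of_nonneg_left a1 (h0 0).le
    linarith [k2 (p + 2 * j)]
  choose S hS using k3
  refine ⟨S, fun n => ?_⟩
  have a1 : Tendsto (fun j => V (n + 2 * j)) atTop (𝓝 (S (n % 2))) := by
    have := (hS (n % 2)).comp (tendsto_add_atTop_nat (n / 2))
    refine this.congr fun j => ?_
    simp only [Function.comp]
    congr 1
    omega
  rw [norm_sub_rev]
  refine le_of_tendsto' ((a1.sub_const (V n)).norm) fun j => ?_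
  linarith [k1 n j, h0 (n + 2 * j)]

variable {R : Type u} [NormedRing R] [NormedAlgebra ℂ R] [NormOneClass R]

/-- The product used at stage `n`. -/
def mm (n : ℕ) : R → R → R := if n % 2 = 0 then fun a b => a * b else fun a b => b * a

theorem fstep' (χ : R →L[ℂ] ℂ) (hmul : ∀ a b, χ (a * b) = χ a * χ b)
    (hone : χ 1 = 1) (hn : ∀ a, ‖χ a‖ ≤ ‖a‖)
    (hRU : ∀ (Y : Finset R) (δ : ℝ), 0 < δ → (∀ y ∈ Y, χ y = 0) →
      ∃ f, χ f = 0 ∧ ∀ y ∈ Y, ‖y * f - y‖ ≤ δ)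
    (hLU : ∀ (Y : Finset R) (δ : ℝ), 0 < δ → (∀ y ∈ Y, χ y = 0) →
      ∃ f, χ f = 0 ∧ ∀ y ∈ Y, ‖f * y - y‖ ≤ δ)
    (hRR : ∀ d : ℝ, 0 < d → ∃ x, χ x = 0 ∧ ‖x‖ = 1 ∧ ∀ r, χ r = 0 → ‖x * r‖ ≤ d * ‖r‖)
    (hLR : ∀ d : ℝ, 0 < d → ∃ x, χ x = 0 ∧ ‖x‖ = 1 ∧ ∀ r, χ r = 0 → ‖r * x‖ ≤ d * ‖r‖)
    (n : ℕ) (s : FSt R) (hs : FGood χ (mm n) s) {τ : ℝ} (hτ : 0 < τ) (hτ1 : τ ≤ 1) :
    ∃ (s' : FSt R) (l : Fin 3 → R →L[ℂ] ℂ), FGood χ (mm (n + 1)) s' ∧
      (∀ k t, ‖mm (n + 1) (s'.y k) (s'.z t) - mm n (s.zb t) (s.yb k)‖ ≤ τ) ∧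
      (∀ k t, ‖mm (n + 1) (s'.zb t) (s'.yb k) - mm n (s.y k) (s.z t)‖ ≤ 2 * s.ao + τ) ∧
      s'.Lo = s.Lt ∧ s'.ao = s.at' ∧ s'.at' ≤ τ ∧ ∑ k, ‖l k‖ ≤ s.Lo ∧
      ∀ t w, ‖∑ k, l k (mm n (mm (n + 1) (s'.zb t) (s'.yb k)) w) -
        (if t = none then χ w else 0)‖ ≤ τ * ‖w‖ := by
  rcases Nat.mod_two_eq_zero_or_one n with h | h
  · have a1 : (mm n : R → R → R) = fun a b => a * b := if_pos h
    have a2 : (mm (n + 1) : R → R → R) = fun a b => b * a := if_neg (by omega)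
    rw [a1] at hs
    rw [a1, a2]
    exact fstep χ hmul hone hn hRU hLU hRR s hs hτ hτ1
  · have a1 : (mm n : R → R → R) = fun a b => b * a := if_neg (by omega)
    have a2 : (mm (n + 1) : R → R → R) = fun a b => a * b := if_pos (by omega)
    rw [a1] at hs
    rw [a1, a2]
    exact fstep (R := Rev R) χ (fun a b => (hmul b a).trans (mul_comm _ _)) hone hn hLU hRU hLR
      s hs hτ hτ1

theorem frames [CompleteSpace R] (χ : R →L[ℂ] ℂ) (hmul : ∀ a b, χ (a * b) = χ a * χ b)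
    (hone : χ 1 = 1) (hn : ∀ a, ‖χ a‖ ≤ ‖a‖)
    (hRU : ∀ (Y : Finset R) (δ : ℝ), 0 < δ → (∀ y ∈ Y, χ y = 0) →
      ∃ f, χ f = 0 ∧ ∀ y ∈ Y, ‖y * f - y‖ ≤ δ)
    (hLU : ∀ (Y : Finset R) (δ : ℝ), 0 < δ → (∀ y ∈ Y, χ y = 0) →
      ∃ f, χ f = 0 ∧ ∀ y ∈ Y, ‖f * y - y‖ ≤ δ)
    (hRR : ∀ d : ℝ, 0 < d → ∃ x, χ x = 0 ∧ ‖x‖ = 1 ∧ ∀ r, χ r = 0 → ‖x * r‖ ≤ d * ‖r‖)
    (hLR : ∀ d : ℝ, 0 < d → ∃ x, χ x = 0 ∧ ‖x‖ = 1 ∧ ∀ r, χ r = 0 → ‖r * x‖ ≤ d * ‖r‖) :
    ∃ (S T : Fin 3 → Option (Fin 3) → R) (l : ℕ → Fin 3 → R →L[ℂ] ℂ) (D : ℕ → ℝ),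
      (∀ k s, χ (S k s) = 0) ∧ (∀ k s, χ (T k s) = 0) ∧ (∀ k j, ∑ s, S k s * T j s = 0) ∧
      (∀ n, 1 ≤ D n) ∧ (∀ n, D n ≤ D (n + 1)) ∧ (∀ n, ∑ k, ‖l n k‖ ≤ D n) ∧
      (∀ n, ∑ k, ‖l (n + 1) k‖ ≤ D n) ∧
      (∀ n s w, n % 2 = 0 → ‖∑ k, l n k (S k s * w) - (if s = none then χ w else 0)‖ ≤
        9 * (1 / 2) ^ n / D n * ‖w‖) ∧
      (∀ n s w, n % 2 = 1 → ‖∑ k, l n k (w * T k s) - (if s = none then χ w else 0)‖ ≤
        9 * (1 / 2) ^ n / D n * ‖w‖) := by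
  let I : Fin 3 → Fin 3 → R := fun i k => if i = k then 1 else 0
  let s0 : FSt R := ⟨0, 0, I, I, I, I, I, I, fun t => t.elim 1 fun _ => 0, 0, 1, 1⟩
  have hI : ∀ i j, ∑ k, I i k * I j k = if i = j then 1 else 0 := by
    intro i j
    simp [I, eq_comm]
  have hs0 : FGood χ (mm 0) s0 := by
    have a1 : (mm 0 : R → R → R) = fun a b => a * b := if_pos rfl
    rw [a1]
    refine ⟨by simp [s0], by simp [s0], fun i j => ?_, by simp [s0], by simp [s0], fun i j => hI j i,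
      by simp [s0], by simp [s0], hI, by simp [s0], by simp [s0], by simp [s0], by simp [s0],
      fun t => ?_, one_pos, one_pos⟩
    · simpa [eq_comm] using hI i j
    · cases t <;> simp [s0, hone]
  have hLt : ∀ n (s : FSt R), FGood χ (mm n) s → 0 ≤ s.Lo ∧ 0 ≤ s.Lt := fun n s hs => by
    obtain ⟨-, -, -, -, -, -, -, -, -, -, -, -, -, -, hc, hcb⟩ := hs
    exact ⟨div_nonneg (Finset.sum_nonneg fun _ _ => norm_nonneg _) hc.le,
      div_nonneg (Finset.sum_nonneg fun _ _ => norm_nonneg _) hcb.le⟩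
  haveI : Nonempty (FSt R) := ⟨s0⟩
  have key : ∀ (n : ℕ) (p : FSt R × ℝ), FGood χ (mm n) p.1 ∧ 1 ≤ p.2 →
      ∃ (s' : FSt R) (l : Fin 3 → R →L[ℂ] ℂ), FGood χ (mm (n + 1)) s' ∧
      (∀ k t, ‖mm (n + 1) (s'.y k) (s'.z t) - mm n (p.1.zb t) (p.1.yb k)‖ ≤
        (1 / 2) ^ n / p.2 ^ 2) ∧
      (∀ k t, ‖mm (n + 1) (s'.zb t) (s'.yb k) - mm n (p.1.y k) (p.1.z t)‖ ≤
        2 * p.1.ao + (1 / 2) ^ n / p.2 ^ 2) ∧
      s'.Lo = p.1.Lt ∧ s'.ao = p.1.at' ∧ s'.at' ≤ (1 / 2) ^ n / p.2 ^ 2 ∧ ∑ k, ‖l k‖ ≤ p.1.Lo ∧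
      ∀ t w, ‖∑ k, l k (mm n (mm (n + 1) (s'.zb t) (s'.yb k)) w) -
        (if t = none then χ w else 0)‖ ≤ (1 / 2) ^ n / p.2 ^ 2 * ‖w‖ := by
    rintro n p ⟨h1, h2⟩
    refine fstep' χ hmul hone hn hRU hLU hRR hLR n p.1 h1 (by positivity) ?_
    rw [div_le_one (by positivity)]
    exact (pow_le_one₀ (by norm_num) (by norm_num)).trans (one_le_pow₀ h2)
  choose! F l hF using key
  let q : ℕ → FSt R × ℝ := fun n => Nat.rec (s0, 1 + s0.Lo + s0.Lt)
    (fun n p => (F n p, p.2 + (F n p).Lt)) n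
  have q1 : ∀ n, (q (n + 1)).1 = F n (q n) := fun _ => rfl
  have q2 : ∀ n, (q (n + 1)).2 = (q n).2 + (q (n + 1)).1.Lt := fun _ => rfl
  have inv : ∀ n, FGood χ (mm n) (q n).1 ∧ 1 ≤ (q n).2 := by
    intro n
    induction n with
    | zero =>
      have := hLt 0 s0 hs0
      exact ⟨hs0, by change 1 ≤ 1 + s0.Lo + s0.Lt; linarith [this.1, this.2]⟩
    | succ n ih =>
      have a1 := (hF n _ ih).1
      exact ⟨a1, by rw [q2]; linarith [(hLt _ _ a1).2, ih.2, q1 n ▸ (hLt _ _ a1).2]⟩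
  have H := fun n => hF n _ (inv n)
  simp only [← q1] at H
  set D : ℕ → ℝ := fun n => (q n).2 with hD
  set τ : ℕ → ℝ := fun n => (1 / 2) ^ n / D n ^ 2 with hτ
  have D1 : ∀ n, 1 ≤ D n := fun n => (inv n).2
  have D2 : ∀ n, D n ≤ D (n + 1) := fun n => by
    have := (hLt _ _ (inv (n + 1)).1).2
    change (q n).2 ≤ (q (n + 1)).2
    rw [q2]; linarith
  have D3 : ∀ n, (q n).1.Lt ≤ D n := by
    intro n
    cases n with
    | zero =>
      have := hLt 0 s0 hs0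
      change s0.Lt ≤ 1 + s0.Lo + s0.Lt
      linarith [this.1]
    | succ n =>
      change _ ≤ (q (n + 1)).2
      rw [q2]; linarith [D1 n]
  have D4 : ∀ n, (q n).1.Lo ≤ D n := by
    intro n
    cases n with
    | zero =>
      have := hLt 0 s0 hs0
      change s0.Lo ≤ 1 + s0.Lo + s0.Lt
      linarith [this.2]
    | succ n => rw [(H n).2.2.2.1]; exact (D3 n).trans (D2 n)
  have τ0 : ∀ n, 0 < τ n := fun n => by have := D1 n; positivity
  have τ1 : ∀ n, τ (n + 1) ≤ τ n / 2 := fun n => by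
    have a1 := D1 n
    simp only [hτ]
    rw [pow_succ, div_div, mul_one_div, div_div, mul_comm (D n ^ 2)]
    have := D2 n
    gcongr
  let X : ℕ → Fin 3 → Option (Fin 3) → R := fun n k t => mm n ((q n).1.y k) ((q n).1.z t)
  let V : ℕ → Fin 3 → Option (Fin 3) → R := fun n k t =>
    mm (n + 1) ((q (n + 1)).1.zb t) ((q (n + 1)).1.yb k)
  have XV : ∀ n k t, ‖X (n + 2) k t - V n k t‖ ≤ τ (n + 1) := fun n k t => (H (n + 1)).2.1 k t
  have hV : ∀ n, ‖V (n + 2) - V n‖ ≤ 4 * τ n := by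
    intro n
    have a0 := τ0 n
    refine (pi_norm_le_iff_of_nonneg (by positivity)).2 fun k =>
      (pi_norm_le_iff_of_nonneg (by positivity)).2 fun t => ?_
    have a1 : ‖V (n + 2) k t - X (n + 2) k t‖ ≤ 2 * (q (n + 2)).1.ao + τ (n + 2) :=
      (H (n + 2)).2.2.1 k t
    have a2 : (q (n + 2)).1.ao = (q (n + 1)).1.at' := (H (n + 1)).2.2.2.2.1
    have a3 : (q (n + 1)).1.at' ≤ τ n := (H n).2.2.2.2.2.1
    have a4 := norm_sub_le_norm_sub_add_norm_sub (V (n + 2) k t) (X (n + 2) k t) (V n k t)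
    have a5 := XV n k t
    have a6 := τ1 n
    have a7 := τ1 (n + 1)
    change ‖V (n + 2) k t - V n k t‖ ≤ _
    linarith
  obtain ⟨S, hS⟩ := lim2 V τ τ0 τ1 hV
  have hS' : ∀ n k t, ‖V n k t - S (n % 2) k t‖ ≤ 8 * τ n := fun n k t =>
    (norm_le_pi_norm ((V n - S (n % 2)) k) t).trans
      ((norm_le_pi_norm (V n - S (n % 2)) k).trans (hS n))
  have τ2 : Tendsto τ atTop (𝓝 0) := by
    refine squeeze_zero (fun n => (τ0 n).le) (fun n => ?_)
      (tendsto_pow_atTop_nhds_zero_of_lt_one (r := (1 / 2 : ℝ)) (by norm_num) (by norm_num))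
    exact div_le_self (by positivity) (one_le_pow₀ (D1 n))
  have τ3 : ∀ p, Tendsto (fun i => 9 * τ (2 * i + p)) atTop (𝓝 0) := fun p => by
    have : Tendsto (fun i : ℕ => 2 * i + p) atTop atTop :=
      tendsto_atTop_mono (fun i => by change i ≤ _; omega) tendsto_id
    simpa using (τ2.comp this).const_mul 9
  have L1 : ∀ p k t, p < 2 → Tendsto (fun i => V (2 * i + p) k t) atTop (𝓝 (S p k t)) := by
    intro p k t hp
    rw [tendsto_iff_norm_sub_tendsto_zero]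
    refine squeeze_zero (fun _ => norm_nonneg _) (fun i => ?_) (τ3 p)
    have := hS' (2 * i + p) k t
    rw [show (2 * i + p) % 2 = p by omega] at this
    linarith [τ0 (2 * i + p)]
  have L2 : ∀ k t, Tendsto (fun i => X (2 * i + 2) k t) atTop (𝓝 (S 0 k t)) := by
    intro k t
    rw [tendsto_iff_norm_sub_tendsto_zero]
    refine squeeze_zero (fun _ => norm_nonneg _) (fun i => ?_) (τ3 0)
    have a1 := hS' (2 * i) k t
    rw [show (2 * i) % 2 = 0 by omega] at a1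
    have a2 := norm_sub_le_norm_sub_add_norm_sub (X (2 * i + 2) k t) (V (2 * i) k t) (S 0 k t)
    have a3 := XV (2 * i) k t
    have a4 := τ1 (2 * i)
    have a5 := τ0 (2 * i)
    rw [add_zero]
    linarith
  have C1 : ∀ p k t, p < 2 → χ (S p k t) = 0 := by
    intro p k t hp
    refine tendsto_nhds_unique ((χ.continuous.tendsto _).comp (L1 p k t hp))
      (tendsto_const_nhds.congr fun i => ?_)
    have a1 := (inv (2 * i + p + 1)).1.2.1 k
    simp only [Function.comp, V, mm]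
    split_ifs <;> simp [hmul, a1]
  have fin : ∀ n t w, ‖∑ k, l n (q n) k (mm n (S (n % 2) k t) w) -
      (if t = none then χ w else 0)‖ ≤ 9 * (1 / 2) ^ n / D n * ‖w‖ := by
    intro n t w
    have a1 : ‖∑ k, l n (q n) k (mm n (V n k t) w) - (if t = none then χ w else 0)‖ ≤
        τ n * ‖w‖ := (H n).2.2.2.2.2.2.2 t w
    have a0 := τ0 n
    have a2 : ‖∑ k, l n (q n) k (mm n (S (n % 2) k t) w) - ∑ k, l n (q n) k (mm n (V n k t) w)‖ ≤
        D n * (8 * τ n * ‖w‖) := by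
      rw [← Finset.sum_sub_distrib]
      refine (norm_sum_le _ _).trans (le_trans (Finset.sum_le_sum fun k _ => ?_)
        ((Finset.sum_mul _ _ _).symm.le.trans (mul_le_mul_of_nonneg_right
          ((H n).2.2.2.2.2.2.1.trans (D4 n)) (by positivity))))
      rw [← map_sub]
      refine ((l n (q n) k).le_opNorm _).trans (mul_le_mul_of_nonneg_left ?_ (norm_nonneg _))
      have b1 := mul_le_mul_of_nonneg_right (hS' n k t) (norm_nonneg w)
      rw [norm_sub_rev] at b1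
      simp only [mm]
      split_ifs
      · rw [← sub_mul]; exact (norm_mul_le _ _).trans b1
      · rw [← mul_sub]; exact (norm_mul_le _ _).trans ((mul_comm _ _).le.trans b1)
    have a3 := norm_sub_le_norm_sub_add_norm_sub (∑ k, l n (q n) k (mm n (S (n % 2) k t) w))
      (∑ k, l n (q n) k (mm n (V n k t) w)) (if t = none then χ w else 0)
    have a4 := D1 n
    have a5 : 9 * (1 / 2) ^ n / D n = 9 * D n * τ n := by simp only [hτ]; field_simp
    have a6 := mul_nonneg a0.le (norm_nonneg w)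
    rw [a5]
    nlinarith
  refine ⟨S 0, S 1, fun n => l n (q n), D, fun k t => C1 0 k t (by norm_num),
    fun k t => C1 1 k t (by norm_num), fun k j => ?_, D1, D2,
    fun n => (H n).2.2.2.2.2.2.1.trans (D4 n),
    fun n => (H (n + 1)).2.2.2.2.2.2.1.trans ((H n).2.2.2.1.le.trans (D3 n)),
    fun n t w h => ?_, fun n t w h => ?_⟩
  · refine tendsto_nhds_unique (tendsto_finset_sum _ fun t _ =>
      (L2 k t).mul (L1 1 j t (by norm_num))) (tendsto_const_nhds.congr fun i => ?_)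
    obtain ⟨-, -, -, -, -, -, -, -, -, -, -, -, rel, -⟩ := (inv (2 * i + 2)).1
    have a1 : (mm (2 * i + 2) : R → R → R) = fun a b => a * b := if_pos (by omega)
    rw [a1] at rel
    change 0 = ∑ t, mm (2 * i + 2) _ _ * mm (2 * i + 2) ((q (2 * i + 2)).1.zb t)
      ((q (2 * i + 2)).1.yb j)
    rw [a1]
    simp only [mul_assoc, ← Finset.mul_sum]
    simp only [← mul_assoc, ← Finset.sum_mul, rel, zero_mul, mul_zero]
  · have := fin n t w
    rw [h] at this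
    simpa only [mm, if_pos h] using this
  · have := fin n t w
    rw [h] at this
    simpa only [mm, if_neg (show ¬ n % 2 = 0 by omega)] using this

end Pool.Agent.Lib.MP_bcc96c_an
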