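import Pool.Agent.Lib.MP_bcc96c_an.Main
import Pool.Agent.Lib.MP_bcc96c_an.FrSeq

/-! From the test module to the balanced form on a unital extension. -/

set_option maxSynthPendingDepth 3

namespace Pool.Agent.Lib.MP_bcc96c_an

universe u

variable {A : Type u} [NonUnitalNormedRing A] [NormedSpace ℂ A] [IsScalarTower ℂ A A]
  [SMulCommClass ℂ A A] {R : Type u} [NormedRing R] [NormedAlgebra ℂ R] [NormOneClass R]

/-- The element of the test module attached to a pair of functionals on the extension. -/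
noncomputable def pairX (ι : A →L[ℂ] R) (φ ψ : R →L[ℂ] ℂ) : XM A :=
  ((φ.comp ι).smulRight (ψ.comp ι), ψ 1 • φ.comp ι, φ 1 • ψ.comp ι)

omit [IsScalarTower ℂ A A] [SMulCommClass ℂ A A] in
theorem norm_pairX (ι : A →L[ℂ] R) (hι : ∀ a, ‖ι a‖ = ‖a‖) (φ ψ : R →L[ℂ] ℂ) :
    ‖pairX ι φ ψ‖ ≤ ‖φ‖ * ‖ψ‖ := by
  have h1 : ∀ θ : R →L[ℂ] ℂ, ‖θ.comp ι‖ ≤ ‖θ‖ := fun θ =>
    ContinuousLinearMap.opNorm_le_bound _ (norm_nonneg _) fun a => by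
      rw [← hι]; exact θ.le_opNorm _
  have h2 : ∀ θ : R →L[ℂ] ℂ, ‖θ 1‖ ≤ ‖θ‖ := fun θ => by simpa using θ.le_opNorm 1
  simp only [pairX, Prod.norm_def, max_le_iff, norm_smul,
    ContinuousLinearMap.norm_smulRight_apply]
  refine ⟨mul_le_mul (h1 φ) (h1 ψ) (norm_nonneg _) (norm_nonneg _), ?_,
    mul_le_mul (h2 φ) (h1 ψ) (norm_nonneg _) (norm_nonneg _)⟩
  rw [mul_comm]
  exact mul_le_mul (h1 φ) (h2 ψ) (norm_nonneg _) (norm_nonneg _)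

theorem balanced (ι : A →L[ℂ] R) (hι : ∀ a, ‖ι a‖ = ‖a‖) (hm : ∀ a b, ι (a * b) = ι a * ι b)
    (χ : R →L[ℂ] ℂ) (hone : χ 1 = 1) (h0 : ∀ a, χ (ι a) = 0) (η : XM A →L[ℂ] ℂ) :
    ∃ B : (R →L[ℂ] ℂ) →L[ℂ] (R →L[ℂ] ℂ) →L[ℂ] ℂ, B χ χ = 1 ∧ ∀ (a : A) (ε : ℝ),
      ‖η.comp (RM A a) - η.comp (LM A a) - DM A a‖ ≤ ε → ∀ φ ψ : R →L[ℂ] ℂ,
        ‖B (φ.comp (lm (ι a))) ψ - B φ (ψ.comp (rm (ι a)))‖ ≤ ε * (‖φ‖ * ‖ψ‖) := by
  have h2 : ∀ θ : R →L[ℂ] ℂ, ‖θ 1‖ ≤ ‖θ‖ := fun θ => by simpa using θ.le_opNorm 1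
  let B0 : (R →L[ℂ] ℂ) →ₗ[ℂ] (R →L[ℂ] ℂ) →ₗ[ℂ] ℂ :=
    LinearMap.mk₂ ℂ (fun φ ψ => φ 1 * ψ 1 - η (pairX ι φ ψ))
      (fun φ φ' ψ => by
        have : pairX ι (φ + φ') ψ = pairX ι φ ψ + pairX ι φ' ψ := by
          ext <;> simp [pairX, add_mul, mul_add]
        rw [this, map_add, ContinuousLinearMap.add_apply]; ring)
      (fun c φ ψ => by
        have : pairX ι (c • φ) ψ = c • pairX ι φ ψ := by
          ext <;> simp [pairX] <;> ring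
        rw [this, map_smul, ContinuousLinearMap.smul_apply]; simp only [smul_eq_mul]; ring)
      (fun φ ψ ψ' => by
        have : pairX ι φ (ψ + ψ') = pairX ι φ ψ + pairX ι φ ψ' := by
          ext <;> simp [pairX, add_mul, mul_add]
        rw [this, map_add, ContinuousLinearMap.add_apply]; ring)
      (fun c φ ψ => by
        have : pairX ι φ (c • ψ) = c • pairX ι φ ψ := by
          ext <;> simp [pairX] <;> ring
        rw [this, map_smul, ContinuousLinearMap.smul_apply]; simp only [smul_eq_mul]; ring)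
  have hb : ∀ φ ψ, ‖B0 φ ψ‖ ≤ (1 + ‖η‖) * ‖φ‖ * ‖ψ‖ := by
    intro φ ψ
    change ‖φ 1 * ψ 1 - η (pairX ι φ ψ)‖ ≤ _
    have a1 : ‖φ 1 * ψ 1‖ ≤ ‖φ‖ * ‖ψ‖ := by
      rw [norm_mul]; exact mul_le_mul (h2 φ) (h2 ψ) (norm_nonneg _) (norm_nonneg _)
    have a2 : ‖η (pairX ι φ ψ)‖ ≤ ‖η‖ * (‖φ‖ * ‖ψ‖) :=
      (η.le_opNorm _).trans (mul_le_mul_of_nonneg_left (norm_pairX ι hι φ ψ) (norm_nonneg _))
    linarith [norm_sub_le (φ 1 * ψ 1) (η (pairX ι φ ψ))]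
  refine ⟨B0.mkContinuous₂ _ hb, ?_, fun a ε h φ ψ => ?_⟩
  · change χ 1 * χ 1 - η (pairX ι χ χ) = 1
    have : pairX ι χ χ = 0 := by ext <;> simp [pairX, h0]
    rw [this, hone]; simp
  · have a1 := (η.comp (RM A a) - η.comp (LM A a) - DM A a).le_of_opNorm_le h (pairX ι φ ψ)
    have a0 : 0 ≤ ε := (norm_nonneg _).trans h
    refine le_trans (le_of_eq ?_)
      (a1.trans (mul_le_mul_of_nonneg_left (norm_pairX ι hι φ ψ) a0))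
    have a2 : RM A a (pairX ι φ ψ) - LM A a (pairX ι φ ψ) =
        pairX ι (φ.comp (lm (ι a))) ψ - pairX ι φ (ψ.comp (rm (ι a))) := by
      rw [RM_apply, LM_apply]
      ext <;> simp [pairX, hm, mul_comm]
    rw [← norm_neg]
    congr 1
    change -((φ (ι a * 1) * ψ 1 - η _) - (φ 1 * ψ (1 * ι a) - η _)) =
      η (RM A a _) - η (LM A a _) - DM A a _
    rw [← map_sub η (RM A a _), a2, map_sub, DM_apply]
    simp only [pairX, mul_one, one_mul, ContinuousLinearMap.smul_apply,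
      ContinuousLinearMap.comp_apply, smul_eq_mul]
    ring

omit [IsScalarTower ℂ A A] [SMulCommClass ℂ A A] in
theorem rough (m : A →L[ℂ] A →L[ℂ] A) (h : ¬ ∃ C : ℝ, ∀ x : A, ‖x‖ ≤ C * ‖m x‖) {d : ℝ}
    (hd : 0 < d) : ∃ x : A, ‖x‖ = 1 ∧ ∀ r, ‖m x r‖ ≤ d * ‖r‖ := by
  push Not at h
  obtain ⟨x, hx⟩ := h d⁻¹
  have h0 : 0 < ‖x‖ := lt_of_le_of_lt (by positivity) hx
  refine ⟨((‖x‖⁻¹ : ℝ) : ℂ) • x, ?_, fun r => ?_⟩
  · rw [norm_smul, Complex.norm_real, Real.norm_of_nonneg (by positivity), inv_mul_cancel₀ h0.ne']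
  · rw [map_smul, ContinuousLinearMap.smul_apply, norm_smul, Complex.norm_real,
      Real.norm_of_nonneg (by positivity), inv_mul_le_iff₀ h0]
    rw [inv_mul_lt_iff₀ hd] at hx
    have := mul_le_mul_of_nonneg_right hx.le (norm_nonneg r)
    nlinarith [(m x).le_opNorm r]

/-- The hypotheses of the frame construction and of the chain lemma. -/
theorem bridge (ι : A →L[ℂ] R) (hι : ∀ a, ‖ι a‖ = ‖a‖) (hm : ∀ a b, ι (a * b) = ι a * ι b)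
    (χ : R →L[ℂ] ℂ) (hone : χ 1 = 1) (h0 : ∀ a, χ (ι a) = 0) (h1 : ∀ r, χ r = 0 → ∃ a, ι a = r)
    (h : ∀ F : Finset A, ∀ ε : ℝ, 0 < ε → ∃ η : XM A →L[ℂ] ℂ,
      ∀ a ∈ F, ‖η.comp (RM A a) - η.comp (LM A a) - DM A a‖ < ε) :
    (∀ (Y : Finset R) (δ : ℝ), 0 < δ → (∀ y ∈ Y, χ y = 0) →
      ∃ f, χ f = 0 ∧ ∀ y ∈ Y, ‖y * f - y‖ ≤ δ) ∧
    (∀ (Y : Finset R) (δ : ℝ), 0 < δ → (∀ y ∈ Y, χ y = 0) →
      ∃ f, χ f = 0 ∧ ∀ y ∈ Y, ‖f * y - y‖ ≤ δ) ∧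
    ∀ (Y : Finset R) (ε : ℝ), 0 < ε → (∀ y ∈ Y, χ y = 0) →
      ∃ B : (R →L[ℂ] ℂ) →L[ℂ] (R →L[ℂ] ℂ) →L[ℂ] ℂ, B χ χ = 1 ∧ ∀ s ∈ Y, ∀ φ ψ : R →L[ℂ] ℂ,
        ‖B (φ.comp (lm s)) ψ - B φ (ψ.comp (rm s))‖ ≤ ε * (‖φ‖ * ‖ψ‖) := by
  classical
  choose! π hπ using h1
  have hd : ∀ (F : Finset A) (δ : ℝ), 0 < δ →
      0 < δ / 2 / (F.card + 1) ∧ F.card * (δ / 2 / (F.card + 1)) + δ / 2 ≤ δ := by
    intro F δ hδ
    refine ⟨by positivity, ?_⟩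
    have : (F.card : ℝ) * (δ / 2 / (F.card + 1)) ≤ δ / 2 := by
      rw [← mul_div_assoc, div_le_iff₀ (by positivity)]; nlinarith
    linarith
  refine ⟨fun Y δ hδ hY => ?_, fun Y δ hδ hY => ?_, fun Y ε hε hY => ?_⟩
  · obtain ⟨a1, a2⟩ := hd (Y.image π) δ hδ
    obtain ⟨η, hη⟩ := h (Y.image π) _ a1
    obtain ⟨e, -, he⟩ := right_ai η (Y.image π) a1.le (half_pos hδ) (norm_nonneg η) hη
      fun φ => by simpa [Prod.norm_def] using η.le_opNorm (0, φ, 0)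
    refine ⟨ι e, h0 e, fun y hy => ?_⟩
    rw [← hπ y (hY y hy), ← hm, ← map_sub, hι]
    exact ((he _ (Finset.mem_image_of_mem π hy)).le).trans a2
  · obtain ⟨a1, a2⟩ := hd (Y.image π) δ hδ
    obtain ⟨η, hη⟩ := h (Y.image π) _ a1
    obtain ⟨e, he⟩ := left_ai η (Y.image π) a1.le (half_pos hδ) hη
    refine ⟨ι e, h0 e, fun y hy => ?_⟩
    rw [← hπ y (hY y hy), ← hm, ← map_sub, hι]
    exact ((he _ (Finset.mem_image_of_mem π hy)).le).trans a2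
  · obtain ⟨η, hη⟩ := h (Y.image π) ε hε
    obtain ⟨B, b1, b2⟩ := balanced ι hι hm χ hone h0 η
    refine ⟨B, b1, fun s hs φ ψ => ?_⟩
    have := b2 (π s) ε (hη _ (Finset.mem_image_of_mem π hs)).le φ ψ
    rwa [hπ s (hY s hs)] at this

/-- The unitisation with the sum norm, described by its embedding and its character. -/
theorem exists_ext : ∃ (ι : A →L[ℂ] WithLp 1 (Unitization ℂ A))
    (χ : WithLp 1 (Unitization ℂ A) →L[ℂ] ℂ), (∀ a, ‖ι a‖ = ‖a‖) ∧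
      (∀ a b, ι (a * b) = ι a * ι b) ∧ (∀ a b, χ (a * b) = χ a * χ b) ∧ χ 1 = 1 ∧
      (∀ a, ‖χ a‖ ≤ ‖a‖) ∧ (∀ a, χ (ι a) = 0) ∧ (∀ r, χ r = 0 → ∃ a, ι a = r) ∧
      ‖(1 : WithLp 1 (Unitization ℂ A))‖ = 1 := by
  let ι0 : A →ₗ[ℂ] WithLp 1 (Unitization ℂ A) :=
    (WithLp.linearEquiv 1 ℂ (Unitization ℂ A)).symm.toLinearMap.comp (Unitization.inrHom ℂ ℂ A)
  let χ0 : WithLp 1 (Unitization ℂ A) →ₗ[ℂ] ℂ :=
    (Unitization.fstHom ℂ A).toLinearMap.comp (WithLp.linearEquiv 1 ℂ (Unitization ℂ A)).toLinearMap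
  have a1 : ∀ a, ‖ι0 a‖ = ‖a‖ := fun a => WithLp.unitization_norm_inr a
  have a2 : ∀ a, ‖χ0 a‖ ≤ ‖a‖ := fun a => by
    rw [WithLp.unitization_norm_def]
    exact le_add_of_nonneg_right (norm_nonneg _)
  refine ⟨ι0.mkContinuous 1 fun a => by rw [a1, one_mul], χ0.mkContinuous 1 fun a => by
    rw [one_mul]; exact a2 a, a1, fun a b => ?_, fun a b => ?_, rfl, a2, fun a => rfl,
    fun r hr => ⟨(WithLp.ofLp r).snd, ?_⟩, ?_⟩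
  · exact congrArg (WithLp.toLp 1) (Unitization.inr_mul ℂ a b)
  · exact Unitization.fst_mul _ _
  · change WithLp.toLp 1 (((WithLp.ofLp r).snd : A) : Unitization ℂ A) = WithLp.toLp 1 (WithLp.ofLp r)
    congr 1
    exact Unitization.ext (Eq.symm hr) rfl
  · rw [WithLp.unitization_norm_def]
    change ‖(1 : ℂ)‖ + ‖(0 : A)‖ = 1
    simp

end Pool.Agent.Lib.MP_bcc96c_an
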