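import Pool.Agent.Lib.MP_bcc96c_an.Core

/-! The matrix link and the chain. -/

set_option maxSynthPendingDepth 3

namespace Pool.Agent.Lib.MP_bcc96c_an

universe u

theorem fr_half {X : Type*} [NormedAddCommGroup X] [NormedSpace ℂ X] (B : X →L[ℂ] X →L[ℂ] ℂ)
    (p q : Fin 3 → Option (Fin 3) → X → X) (l : Fin 3 → X) (N : Option (Fin 3) → X)
    {ε L ρ : ℝ} (hε : 0 ≤ ε) (hρ : 0 ≤ ρ)
    (h : ∀ k s φ ψ, ‖B (p k s φ) ψ - B φ (q k s ψ)‖ ≤ ε * (‖φ‖ * ‖ψ‖))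
    (hl : ∑ k, ‖l k‖ ≤ L) (hN : ∀ s, ‖N s‖ ≤ ρ) (h0 : ∀ k, ∑ s, q k s (N s) = 0) :
    ‖∑ s, B (∑ k, p k s (l k)) (N s)‖ ≤ 4 * ε * (L * ρ) := by
  have h1 : ∑ s, B (∑ k, p k s (l k)) (N s) =
      ∑ s, ∑ k, (B (p k s (l k)) (N s) - B (l k) (q k s (N s))) := by
    have h2 : ∑ s, ∑ k, B (l k) (q k s (N s)) = 0 := by
      rw [Finset.sum_comm]
      refine Finset.sum_eq_zero fun k _ => ?_
      rw [← map_sum, h0, map_zero]
    simp only [Finset.sum_sub_distrib, h2, sub_zero, map_sum, sum_apply]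
  have h3 : ∀ s, ‖∑ k, (B (p k s (l k)) (N s) - B (l k) (q k s (N s)))‖ ≤ ε * (L * ρ) := by
    intro s
    refine (norm_sum_le _ _).trans ?_
    calc ∑ k, ‖B (p k s (l k)) (N s) - B (l k) (q k s (N s))‖ ≤ ∑ k, ε * (‖l k‖ * ρ) :=
          Finset.sum_le_sum fun k _ => (h k s _ _).trans (by gcongr; exact hN s)
      _ = ε * ((∑ k, ‖l k‖) * ρ) := by rw [← Finset.mul_sum, ← Finset.sum_mul]
      _ ≤ ε * (L * ρ) := by gcongr
  rw [h1]
  refine (norm_sum_le _ _).trans ((Finset.sum_le_sum fun s _ => h3 s).trans ?_)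
  simp only [Finset.sum_const, Finset.card_univ, Fintype.card_option, Fintype.card_fin,
    nsmul_eq_mul]
  push_cast
  linarith

variable {R : Type u} [NormedRing R] [NormedAlgebra ℂ R]

theorem fr_link (χ : R →L[ℂ] ℂ) (hmul : ∀ a b, χ (a * b) = χ a * χ b)
    (B : (R →L[ℂ] ℂ) →L[ℂ] (R →L[ℂ] ℂ) →L[ℂ] ℂ) (S T : Fin 3 → Option (Fin 3) → R)
    {ε L L' ρ ρ' : ℝ} (hε : 0 ≤ ε) (hρ : 0 ≤ ρ) (hρ' : 0 ≤ ρ')
    (hS : ∀ k s, ∀ φ ψ : R →L[ℂ] ℂ,
      ‖B (φ.comp (lm (S k s))) ψ - B φ (ψ.comp (rm (S k s)))‖ ≤ ε * (‖φ‖ * ‖ψ‖))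
    (hT : ∀ k s, ∀ φ ψ : R →L[ℂ] ℂ,
      ‖B (φ.comp (lm (T k s))) ψ - B φ (ψ.comp (rm (T k s)))‖ ≤ ε * (‖φ‖ * ‖ψ‖))
    (h1 : ∀ k s, χ (S k s) = 0) (h2 : ∀ k s, χ (T k s) = 0)
    (h3 : ∀ k j, ∑ s, S k s * T j s = 0) (l m : Fin 3 → R →L[ℂ] ℂ)
    (hl : ∑ k, ‖l k‖ ≤ L) (hm : ∑ k, ‖m k‖ ≤ L')
    (h8 : ∀ s w, ‖∑ k, l k (S k s * w) - (if s = none then χ w else 0)‖ ≤ ρ * ‖w‖)
    (h9 : ∀ s w, ‖∑ k, m k (w * T k s) - (if s = none then χ w else 0)‖ ≤ ρ' * ‖w‖) :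
    ‖B (∑ k, (l k).comp (lm (S k none))) χ - B χ (∑ k, (m k).comp (rm (T k none)))‖ ≤
      4 * ε * (L * ρ' + L' * ρ) := by
  set e : Option (Fin 3) → R →L[ℂ] ℂ := fun s => if s = none then χ else 0 with he
  have he' : ∀ s w, e s w = if s = none then χ w else 0 := by
    intro s w
    simp only [he]
    split_ifs <;> simp
  set Λ : Option (Fin 3) → R →L[ℂ] ℂ := fun s => ∑ k, (l k).comp (lm (S k s)) with hΛ
  set M : Option (Fin 3) → R →L[ℂ] ℂ := fun s => ∑ k, (m k).comp (rm (T k s)) with hM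
  have hΛ' : ∀ s w, Λ s w = ∑ k, l k (S k s * w) := by
    intro s w
    simp [hΛ]
  have hM' : ∀ s w, M s w = ∑ k, m k (w * T k s) := by
    intro s w
    simp [hM]
  have n1 : ∀ s, ‖Λ s - e s‖ ≤ ρ := fun s =>
    ContinuousLinearMap.opNorm_le_bound _ hρ fun w => by
      rw [sub_apply, hΛ', he']; exact h8 s w
  have n2 : ∀ s, ‖M s - e s‖ ≤ ρ' := fun s =>
    ContinuousLinearMap.opNorm_le_bound _ hρ' fun w => by
      rw [sub_apply, hM', he']; exact h9 s w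
  have a1 := fr_half B (fun k s φ => φ.comp (lm (S k s))) (fun k s ψ => ψ.comp (rm (S k s))) l
    (fun s => M s - e s) hε hρ' hS hl n2 (by
      intro k
      ext w
      simp only [sum_apply, ContinuousLinearMap.comp_apply, rm_apply,
        sub_apply, hM', he', hmul, h1, mul_zero, ite_self, sub_zero,
        zero_apply]
      rw [Finset.sum_comm]
      refine Finset.sum_eq_zero fun j _ => ?_
      rw [← map_sum]
      simp only [mul_assoc]
      rw [← Finset.mul_sum, h3, mul_zero, map_zero])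
  have a2 := fr_half B.flip (fun k s ψ => ψ.comp (rm (T k s))) (fun k s φ => φ.comp (lm (T k s)))
    m (fun s => Λ s - e s) hε hρ (by
      intro k s φ ψ
      rw [ContinuousLinearMap.flip_apply, ContinuousLinearMap.flip_apply, norm_sub_rev,
        mul_comm ‖φ‖]
      exact hT k s ψ φ) hm n1 (by
      intro j
      ext w
      simp only [sum_apply, ContinuousLinearMap.comp_apply, lm_apply,
        sub_apply, hΛ', he', hmul, h2, zero_mul, ite_self, sub_zero,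
        zero_apply]
      rw [Finset.sum_comm]
      refine Finset.sum_eq_zero fun k _ => ?_
      rw [← map_sum]
      simp only [← mul_assoc]
      rw [← Finset.sum_mul, h3, zero_mul, map_zero])
  have a3 : B (Λ none) χ - B χ (M none) =
      ∑ s, B.flip (M s) (Λ s - e s) - ∑ s, B (Λ s) (M s - e s) := by
    rw [← Finset.sum_sub_distrib, Fintype.sum_option]
    have : ∀ s : Fin 3, e (some s) = 0 := fun s => by simp [he]
    have h0 : e none = χ := by simp [he]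
    simp only [this, h0, ContinuousLinearMap.flip_apply, sub_zero, sub_self,
      Finset.sum_const_zero, add_zero, map_sub]
    ring
  change ‖B (Λ none) χ - B χ (M none)‖ ≤ _
  rw [a3]
  refine (norm_sub_le _ _).trans ?_
  have b1 : ‖∑ s, B (Λ s) (M s - e s)‖ ≤ 4 * ε * (L * ρ') := a1
  have b2 : ‖∑ s, B.flip (M s) (Λ s - e s)‖ ≤ 4 * ε * (L' * ρ) := a2
  linarith

theorem chain [NormOneClass R] (χ : R →L[ℂ] ℂ) (hmul : ∀ a b, χ (a * b) = χ a * χ b)
    (hn : ∀ a, ‖χ a‖ ≤ ‖a‖)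
    (hB : ∀ (Y : Finset R) (ε : ℝ), 0 < ε → (∀ y ∈ Y, χ y = 0) →
      ∃ B : (R →L[ℂ] ℂ) →L[ℂ] (R →L[ℂ] ℂ) →L[ℂ] ℂ, B χ χ = 1 ∧ ∀ s ∈ Y, ∀ φ ψ : R →L[ℂ] ℂ,
        ‖B (φ.comp (lm s)) ψ - B φ (ψ.comp (rm s))‖ ≤ ε * (‖φ‖ * ‖ψ‖))
    (S T : Fin 3 → Option (Fin 3) → R) (l : ℕ → Fin 3 → R →L[ℂ] ℂ) (D : ℕ → ℝ)
    (h1 : ∀ k s, χ (S k s) = 0) (h2 : ∀ k s, χ (T k s) = 0) (h3 : ∀ k j, ∑ s, S k s * T j s = 0)
    (h4 : ∀ n, 1 ≤ D n) (h5 : ∀ n, D n ≤ D (n + 1)) (h6 : ∀ n, ∑ k, ‖l n k‖ ≤ D n)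
    (h7 : ∀ n, ∑ k, ‖l (n + 1) k‖ ≤ D n)
    (h8 : ∀ n s w, n % 2 = 0 → ‖∑ k, l n k (S k s * w) - (if s = none then χ w else 0)‖ ≤
      9 * (1 / 2) ^ n / D n * ‖w‖)
    (h9 : ∀ n s w, n % 2 = 1 → ‖∑ k, l n k (w * T k s) - (if s = none then χ w else 0)‖ ≤
      9 * (1 / 2) ^ n / D n * ‖w‖) :
    False := by
  classical
  have hD : ∀ n, 0 < D n := fun n => one_pos.trans_le (h4 n)
  set ε : ℝ := 1 / (D 0 + 109) with hεd
  have hε : 0 < ε := by have := hD 0; positivity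
  obtain ⟨B, hB1, hB2⟩ := hB
    (Finset.univ.image (fun x : Fin 3 × Option (Fin 3) => S x.1 x.2) ∪
      Finset.univ.image (fun x : Fin 3 × Option (Fin 3) => T x.1 x.2)) ε hε (by
      intro y hy
      simp only [Finset.mem_union, Finset.mem_image, Finset.mem_univ, true_and] at hy
      rcases hy with ⟨x, rfl⟩ | ⟨x, rfl⟩
      · exact h1 _ _
      · exact h2 _ _)
  have hS := fun k s => hB2 (S k s) (Finset.mem_union_left _
    (Finset.mem_image.2 ⟨(k, s), Finset.mem_univ _, rfl⟩))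
  have hT := fun k s => hB2 (T k s) (Finset.mem_union_right _
    (Finset.mem_image.2 ⟨(k, s), Finset.mem_univ _, rfl⟩))
  have hχ : ‖χ‖ ≤ 1 := ContinuousLinearMap.opNorm_le_bound _ zero_le_one fun a => by
    simpa using hn a
  set ρ : ℕ → ℝ := fun n => 9 * (1 / 2) ^ n / D n with hρ
  have hρ0 : ∀ n, 0 ≤ ρ n := fun n => by have := hD n; simp only [hρ]; positivity
  set t : ℕ → ℂ := fun n => if n % 2 = 0 then B (∑ k, (l n k).comp (lm (S k none))) χ
    else B χ (∑ k, (l n k).comp (rm (T k none))) with ht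
  have c1 : ∀ n, D n * ρ (n + 1) + D n * ρ n ≤ 27 / 2 * (1 / 2) ^ n := by
    intro n
    have e1 : D n * ρ n = 9 * (1 / 2) ^ n := by
      have := (hD n).ne'
      simp only [hρ]; field_simp
    have e2 : D (n + 1) * ρ (n + 1) = 9 * (1 / 2) ^ (n + 1) := by
      have := (hD (n + 1)).ne'
      simp only [hρ]; field_simp
    have e3 : D n * ρ (n + 1) ≤ D (n + 1) * ρ (n + 1) :=
      mul_le_mul_of_nonneg_right (h5 n) (hρ0 _)
    rw [pow_succ] at e2
    linarith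
  have t1 : ∀ n, ‖t n - t (n + 1)‖ ≤ 54 * ε * (1 / 2) ^ n := by
    intro n
    have c2 : 4 * ε * (D n * ρ (n + 1) + D n * ρ n) ≤ 54 * ε * (1 / 2) ^ n := by
      have := mul_le_mul_of_nonneg_left (c1 n) (by positivity : 0 ≤ 4 * ε)
      linarith
    rcases Nat.mod_two_eq_zero_or_one n with hn0 | hn0
    · have hn1 : (n + 1) % 2 = 1 := by omega
      have := fr_link χ hmul B S T hε.le (hρ0 n) (hρ0 (n + 1)) hS hT h1 h2 h3 (l n) (l (n + 1))
        (h6 n) (h7 n) (fun s w => h8 n s w hn0) (fun s w => h9 (n + 1) s w hn1)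
      simp only [ht, hn0, hn1, if_true, one_ne_zero, if_false]
      exact this.trans c2
    · have hn1 : (n + 1) % 2 = 0 := by omega
      have := fr_link χ hmul B S T hε.le (hρ0 (n + 1)) (hρ0 n) hS hT h1 h2 h3 (l (n + 1)) (l n)
        (h7 n) (h6 n) (fun s w => h8 (n + 1) s w hn1) (fun s w => h9 n s w hn0)
      simp only [ht, hn0, hn1, if_true, one_ne_zero, if_false]
      rw [norm_sub_rev]
      exact this.trans (by linarith)
  have t0 : ‖t 0‖ ≤ ε * D 0 := by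
    have e1 : t 0 = ∑ k, (B ((l 0 k).comp (lm (S k none))) χ -
        B (l 0 k) (χ.comp (rm (S k none)))) := by
      have : ∀ k, χ.comp (rm (S k none)) = 0 := fun k => by
        ext w
        simp [hmul, h1]
      simp [ht, this]
    rw [e1]
    refine (norm_sum_le _ _).trans ?_
    calc ∑ k, ‖B ((l 0 k).comp (lm (S k none))) χ - B (l 0 k) (χ.comp (rm (S k none)))‖
        ≤ ∑ k, ε * (‖l 0 k‖ * 1) :=
          Finset.sum_le_sum fun k _ => (hS k none _ _).trans (by gcongr)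
      _ = ε * ∑ k, ‖l 0 k‖ := by simp only [mul_one, Finset.mul_sum]
      _ ≤ ε * D 0 := by gcongr; exact h6 0
  have t2 : ∀ n, ‖t n - 1‖ ≤ ‖B‖ * 9 * (1 / 2) ^ n := by
    intro n
    have r1 : ρ n ≤ 9 * (1 / 2) ^ n := div_le_self (by positivity) (h4 n)
    rcases Nat.mod_two_eq_zero_or_one n with hn0 | hn0
    · have n1 : ‖∑ k, (l n k).comp (lm (S k none)) - χ‖ ≤ ρ n :=
        ContinuousLinearMap.opNorm_le_bound _ (hρ0 n) fun w => by
          simpa [hρ] using h8 n none w hn0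
      have e1 : t n - 1 = B (∑ k, (l n k).comp (lm (S k none)) - χ) χ := by
        simp only [ht, hn0, if_true, map_sub, sub_apply, hB1]
      rw [e1]
      refine (B.le_opNorm₂ _ _).trans ?_
      calc ‖B‖ * ‖∑ k, (l n k).comp (lm (S k none)) - χ‖ * ‖χ‖
          ≤ ‖B‖ * (9 * (1 / 2) ^ n) * 1 := by gcongr; exact n1.trans r1
        _ = _ := by ring
    · have n1 : ‖∑ k, (l n k).comp (rm (T k none)) - χ‖ ≤ ρ n :=
        ContinuousLinearMap.opNorm_le_bound _ (hρ0 n) fun w => by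
          simpa [hρ] using h9 n none w hn0
      have e1 : t n - 1 = B χ (∑ k, (l n k).comp (rm (T k none)) - χ) := by
        simp only [ht, hn0, one_ne_zero, if_false, map_sub, hB1]
      rw [e1]
      refine (B.le_opNorm₂ _ _).trans ?_
      calc ‖B‖ * ‖χ‖ * ‖∑ k, (l n k).comp (rm (T k none)) - χ‖
          ≤ ‖B‖ * 1 * (9 * (1 / 2) ^ n) := by gcongr; exact n1.trans r1
        _ = _ := by ring
  have t3 : ∀ n, ‖t 0 - t n‖ ≤ 108 * ε * (1 - (1 / 2) ^ n) := by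
    intro n
    induction n with
    | zero => simp
    | succ n ih =>
      have := norm_sub_le_norm_sub_add_norm_sub (t 0) (t n) (t (n + 1))
      have h' := t1 n
      rw [pow_succ]
      linarith
  have fin : ∀ n : ℕ, 1 ≤ ε * D 0 + 108 * ε + ‖B‖ * 9 * (1 / 2) ^ n := by
    intro n
    have e1 : (1 : ℂ) = t 0 - (t 0 - t n) - (t n - 1) := by ring
    have e2 : ‖(1 : ℂ)‖ ≤ ‖t 0‖ + ‖t 0 - t n‖ + ‖t n - 1‖ := by
      conv_lhs => rw [e1]
      exact (norm_sub_le _ _).trans (by gcongr; exact norm_sub_le _ _)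
    have e3 : 0 ≤ 108 * ε * (1 / 2 : ℝ) ^ n := by positivity
    rw [norm_one] at e2
    have := t3 n
    have := t2 n
    linarith
  have lim : Filter.Tendsto (fun n : ℕ => ε * D 0 + 108 * ε + ‖B‖ * 9 * (1 / 2 : ℝ) ^ n)
      Filter.atTop (nhds (ε * D 0 + 108 * ε + ‖B‖ * 9 * 0)) :=
    tendsto_const_nhds.add ((tendsto_pow_atTop_nhds_zero_of_lt_one (by norm_num)
      (by norm_num)).const_mul _)
  have last := ge_of_tendsto' lim fin
  have e4 : ε * (D 0 + 109) = 1 := by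
    have := hD 0
    rw [hεd]; field_simp
  linarith

end Pool.Agent.Lib.MP_bcc96c_an
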