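import Pool.Agent.Lib.MP_bcc96c_an.FrBridge
import Pool.Agent.Lib.MP_bcc96c_an.FrChain

/-! Approximate amenability forces the norm to be equivalent to a one-sided multiplier norm. -/

set_option maxSynthPendingDepth 3

namespace Pool.Agent.Lib.MP_bcc96c_an

universe u

theorem mult_norm {A : Type u} [NonUnitalNormedRing A] [NormedSpace ℂ A] [IsScalarTower ℂ A A]
    [SMulCommClass ℂ A A] [CompleteSpace A]
    (h : ∀ F : Finset A, ∀ ε : ℝ, 0 < ε → ∃ η : XM A →L[ℂ] ℂ,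
      ∀ a ∈ F, ‖η.comp (RM A a) - η.comp (LM A a) - DM A a‖ < ε) :
    (∃ C : ℝ, ∀ x : A, ‖x‖ ≤ C * ‖ContinuousLinearMap.mul ℂ A x‖) ∨
    (∃ C : ℝ, ∀ x : A, ‖x‖ ≤ C * ‖(ContinuousLinearMap.mul ℂ A).flip x‖) := by
  by_contra hno
  rw [not_or] at hno
  obtain ⟨ι, χ, hι, hm, hmul, hone, hn, h0, h1, h2⟩ := exists_ext (A := A)
  haveI : NormOneClass (WithLp 1 (Unitization ℂ A)) := ⟨h2⟩
  obtain ⟨hRU, hLU, hB⟩ := bridge ι hι hm χ hone h0 h1 h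
  obtain ⟨S, T, l, D, g1, g2, g3, g4, g5, g6, g7, g8, g9⟩ := frames χ hmul hone hn hRU hLU
    (fun d hd => by
      obtain ⟨x, a1, a2⟩ := rough _ hno.1 hd
      refine ⟨ι x, h0 x, by rw [hι, a1], fun r hr => ?_⟩
      obtain ⟨a, rfl⟩ := h1 r hr
      rw [← hm, hι, hι]
      exact a2 a)
    (fun d hd => by
      obtain ⟨x, a1, a2⟩ := rough _ hno.2 hd
      refine ⟨ι x, h0 x, by rw [hι, a1], fun r hr => ?_⟩
      obtain ⟨a, rfl⟩ := h1 r hr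
      rw [← hm, hι, hι]
      exact a2 a)
  exact chain χ hmul hn hB S T l D g1 g2 g3 g4 g5 g6 g7 g8 g9

end Pool.Agent.Lib.MP_bcc96c_an
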