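import Pool.Agent.Lib.MP_bcc96c_an.Core

/-! A copy of a normed algebra with the reversed product, and the elimination lemma. -/

namespace Pool.Agent.Lib.MP_bcc96c_an

universe u

/-- The same normed space with the reversed product. -/
def Rev (R : Type u) : Type u := R

namespace Rev

variable {R : Type u}

/-- The identity, forgetting the reversal. -/
def un (a : Rev R) : R := a

noncomputable instance [i : NormedRing R] : NormedRing (Rev R) :=
  { i with
    mul := fun a b => (un b * un a : R)
    left_distrib := fun a b c => add_mul (un b) (un c) (un a)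
    right_distrib := fun a b c => mul_add (un c) (un a) (un b)
    zero_mul := fun a => mul_zero (un a)
    mul_zero := fun a => zero_mul (un a)
    mul_assoc := fun a b c => (mul_assoc (un c) (un b) (un a)).symm
    one_mul := fun a => mul_one (un a)
    mul_one := fun a => one_mul (un a)
    npow := fun n a => (un a ^ n : R)
    npow_zero := fun a => pow_zero (un a)
    npow_succ := fun n a => pow_succ' (un a) n
    norm_mul_le := fun a b => (norm_mul_le (un b) (un a)).trans (mul_comm _ _).le }

noncomputable instance [NormedRing R] [i : NormedAlgebra ℂ R] : NormedAlgebra ℂ (Rev R) :=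
  { smul := fun c a => (c • un a : R)
    algebraMap :=
      { toFun := fun c => (algebraMap ℂ R c : R)
        map_one' := map_one (algebraMap ℂ R)
        map_mul' := fun a b => by
          change algebraMap ℂ R (a * b) = algebraMap ℂ R b * algebraMap ℂ R a
          rw [mul_comm, map_mul]
        map_zero' := map_zero (algebraMap ℂ R)
        map_add' := map_add (algebraMap ℂ R) }
    commutes' := fun c a => (Algebra.commutes c (un a)).symm
    smul_def' := fun c a => (Algebra.smul_def c (un a)).trans (Algebra.commutes c (un a))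
    norm_smul_le := fun c a => norm_smul_le c (un a) }

instance [NormedRing R] [i : NormOneClass R] : NormOneClass (Rev R) := ⟨i.norm_one⟩

end Rev

theorem elim {R : Type u} [Ring R] [Algebra ℂ R] (P Q : Fin 3 → Fin 3 → R)
    (h : ∀ i j, ∑ k, P i k * Q j k = if i = j then 1 else 0) (v : Fin 3 → R)
    (hv : ∑ k, v k * Q 2 k = 0) {e : ℂ} (he : e ≠ 0) :
    ∃ P' Q' : Fin 3 → Fin 3 → R, (∀ i j, ∑ k, P' i k * Q' j k = if i = j then 1 else 0) ∧
      ∑ k, (v k + e • P 2 k) * Q' 1 k = 0 ∧ ∑ k, (v k + e • P 2 k) * Q' 2 k = 0 ∧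
      P' 2 = P 1 := by
  let W : Fin 3 → Fin 3 → R := fun j k => Q j k - e⁻¹ • (Q 2 k * ∑ i, v i * Q j i)
  let U : Fin 3 → R := fun k => P 2 k + e⁻¹ • v k
  have h1 : ∀ (u : Fin 3 → R) j, ∑ k, u k * W j k =
      ∑ k, u k * Q j k - e⁻¹ • ((∑ k, u k * Q 2 k) * ∑ i, v i * Q j i) := by
    intro u j
    simp only [W, mul_sub, mul_smul_comm, Finset.sum_sub_distrib, ← Finset.smul_sum,
      Finset.sum_mul, mul_assoc]
  have h2 : ∀ w : Fin 3 → R, ∑ k, U k * w k = ∑ k, P 2 k * w k + e⁻¹ • ∑ k, v k * w k := by
    intro w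
    simp only [U, add_mul, smul_mul_assoc, Finset.sum_add_distrib, ← Finset.smul_sum]
  have h3 : ∀ w : Fin 3 → R, ∑ k, (v k + e • P 2 k) * w k = e • ∑ k, U k * w k := by
    intro w
    rw [h2, smul_add, smul_smul, mul_inv_cancel₀ he, one_smul, add_comm]
    simp only [add_mul, smul_mul_assoc, Finset.sum_add_distrib, ← Finset.smul_sum]
  have h4 : ∑ k, U k * Q 2 k = 1 := by rw [h2, h, hv]; simp
  have h5 : ∀ j, j ≠ 2 → ∑ k, U k * W j k = 0 := by
    intro j hj
    rw [h1, h4, h2, h, if_neg hj.symm]; simp
  have h6 : ∀ i j, i ≠ 2 → ∑ k, P i k * W j k = if i = j then 1 else 0 := by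
    intro i j hi
    rw [h1, h, h, if_neg hi]; simp
  refine ⟨![U, P 0, P 1], ![Q 2, W 0, W 1], ?_, ?_, ?_, rfl⟩
  · intro i j
    fin_cases i <;> fin_cases j
    · simpa using h4
    · simpa using h5 0 (by decide)
    · simpa using h5 1 (by decide)
    · simpa using h 0 2
    · simpa using h6 0 0 (by decide)
    · simpa using h6 0 1 (by decide)
    · simpa using h 1 2
    · simpa using h6 1 0 (by decide)
    · simpa using h6 1 1 (by decide)
  · change ∑ k, (v k + e • P 2 k) * W 0 k = 0
    rw [h3, h5 0 (by decide), smul_zero]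
  · change ∑ k, (v k + e • P 2 k) * W 1 k = 0
    rw [h3, h5 1 (by decide), smul_zero]

end Pool.Agent.Lib.MP_bcc96c_an
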