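import Pool.Agent.Lib.MP_bcc96c_an.FrOp

/-! States of the frame construction and the step lemma. -/

namespace Pool.Agent.Lib.MP_bcc96c_an

universe u

/-- Data of one stage. -/
structure FSt (R : Type u) where
  y : Fin 3 → R
  yb : Fin 3 → R
  ρ : Fin 3 → Fin 3 → R
  η : Fin 3 → Fin 3 → R
  ρb : Fin 3 → Fin 3 → R
  ηb : Fin 3 → Fin 3 → R
  P : Fin 3 → Fin 3 → R
  Q : Fin 3 → Fin 3 → R
  z : Option (Fin 3) → R
  zb : Option (Fin 3) → R
  c : ℝ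
  cb : ℝ

/-- Invariants of a stage for the product `m`. -/
def FGood {R : Type u} [AddCommMonoid R] [One R] (χ : R → ℂ) (m : R → R → R) (s : FSt R) : Prop :=
  (∀ k, χ (s.y k) = 0) ∧ (∀ k, χ (s.yb k) = 0) ∧
  (∀ i j, ∑ k, m (s.ρ i k) (s.η j k) = if j = i then 1 else 0) ∧
  ∑ k, m (s.ρ 1 k) (s.y k) = 0 ∧ ∑ k, m (s.ρ 2 k) (s.y k) = 0 ∧
  (∀ i j, ∑ k, m (s.ηb j k) (s.ρb i k) = if j = i then 1 else 0) ∧
  ∑ k, m (s.yb k) (s.ρb 1 k) = 0 ∧ ∑ k, m (s.yb k) (s.ρb 2 k) = 0 ∧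
  (∀ i j, ∑ k, m (s.P i k) (s.Q j k) = if i = j then 1 else 0) ∧
  ∑ k, m (s.z (some k)) (s.Q 2 k) = 0 ∧ ∑ k, m (s.P 1 k) (s.zb (some k)) = 0 ∧
  ∑ k, m (s.P 2 k) (s.zb (some k)) = 0 ∧ ∑ t, m (s.z t) (s.zb t) = 0 ∧
  (∀ t, χ (s.z t) = if t = none then 1 else 0) ∧ 0 < s.c ∧ 0 < s.cb

/-- Cost of the next functional on the active side. -/
noncomputable def FSt.Lo {R : Type u} [Norm R] (s : FSt R) : ℝ := (∑ k, ‖s.ρ 1 k‖) / s.c

/-- Cost of the next functional on the other side. -/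
noncomputable def FSt.Lt {R : Type u} [Norm R] (s : FSt R) : ℝ := (∑ k, ‖s.ρb 1 k‖) / s.cb

/-- Size of the next increment on the active side. -/
noncomputable def FSt.ao {R : Type u} [Norm R] (s : FSt R) : ℝ := s.c * ∑ k, ‖s.η 1 k‖

/-- Size of the next increment on the other side. -/
noncomputable def FSt.at' {R : Type u} [Norm R] (s : FSt R) : ℝ := s.cb * ∑ k, ‖s.ηb 1 k‖

variable {R : Type u} [NormedRing R] [NormedAlgebra ℂ R]

theorem small_scalar {ι : Type} [Fintype ι] (w : ι → ℝ) (hw : ∀ i, 0 ≤ w i) {δ : ℝ} (hδ : 0 < δ) :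
    ∃ e : ℝ, 0 < e ∧ ∀ i, e * w i ≤ δ := by
  have h0 : 0 ≤ ∑ i, w i := Finset.sum_nonneg fun i _ => hw i
  refine ⟨δ / (1 + ∑ i, w i), by positivity, fun i => ?_⟩
  have h1 : w i ≤ ∑ i, w i := Finset.single_le_sum (fun i _ => hw i) (Finset.mem_univ i)
  rw [div_mul_eq_mul_div, div_le_iff₀ (by positivity)]
  nlinarith

omit [NormedAlgebra ℂ R] in
theorem unit_right {χ : R → ℂ}
    (hRU : ∀ (Y : Finset R) (δ : ℝ), 0 < δ → (∀ y ∈ Y, χ y = 0) →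
      ∃ f, χ f = 0 ∧ ∀ y ∈ Y, ‖y * f - y‖ ≤ δ)
    (y : Fin 3 → R) (hy : ∀ k, χ (y k) = 0) (z : Option (Fin 3) → R) {δ : ℝ} (hδ : 0 < δ) :
    ∃ f, χ f = 0 ∧ ∀ k t, ‖(y k * f - y k) * z t‖ ≤ δ := by
  classical
  obtain ⟨e, he, h⟩ := small_scalar (fun t => ‖z t‖) (fun _ => norm_nonneg _) hδ
  obtain ⟨f, hf, h'⟩ := hRU (Finset.univ.image y) e he (by simpa using hy)
  refine ⟨f, hf, fun k t => (norm_mul_le _ _).trans (le_trans ?_ (h t))⟩
  exact mul_le_mul_of_nonneg_right (h' _ (by simp)) (norm_nonneg _)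

omit [NormedAlgebra ℂ R] in
theorem unit_left {χ : R → ℂ}
    (hLU : ∀ (Y : Finset R) (δ : ℝ), 0 < δ → (∀ y ∈ Y, χ y = 0) →
      ∃ f, χ f = 0 ∧ ∀ y ∈ Y, ‖f * y - y‖ ≤ δ)
    (y : Fin 3 → R) (hy : ∀ k, χ (y k) = 0) (z : Option (Fin 3) → R) {δ : ℝ} (hδ : 0 < δ) :
    ∃ f, χ f = 0 ∧ ∀ k t, ‖z t * (f * y k - y k)‖ ≤ δ := by
  classical
  obtain ⟨e, he, h⟩ := small_scalar (fun t => ‖z t‖) (fun _ => norm_nonneg _) hδ
  obtain ⟨f, hf, h'⟩ := hLU (Finset.univ.image y) e he (by simpa using hy)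
  refine ⟨f, hf, fun k t => (norm_mul_le _ _).trans (le_trans ?_ (h t))⟩
  rw [mul_comm]
  exact mul_le_mul_of_nonneg_right (h' _ (by simp)) (norm_nonneg _)

/-- Part (b): a new frame after an increment. -/
theorem step_b (χ : R →L[ℂ] ℂ) (hmul : ∀ a b, χ (a * b) = χ a * χ b)
    (hRU : ∀ (Y : Finset R) (δ : ℝ), 0 < δ → (∀ y ∈ Y, χ y = 0) →
      ∃ f, χ f = 0 ∧ ∀ y ∈ Y, ‖y * f - y‖ ≤ δ)
    (y : Fin 3 → R) (hy : ∀ k, χ (y k) = 0) (ρ η : Fin 3 → Fin 3 → R)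
    (h : ∀ i j, ∑ k, ρ i k * η j k = if j = i then 1 else 0) (h2 : ∑ k, ρ 2 k * y k = 0)
    (z : Option (Fin 3) → R) {δ : ℝ} (hδ : 0 < δ) :
    ∃ (y' : Fin 3 → R) (ρ' η' : Fin 3 → Fin 3 → R), (∀ k, χ (y' k) = 0) ∧
      (∀ i j, ∑ k, ρ' i k * η' j k = if j = i then 1 else 0) ∧ ∑ k, ρ' 1 k * y' k = 0 ∧
      ∑ k, ρ' 2 k * y' k = 0 ∧ ∀ k t, ‖y' k * z t - y k * z t‖ ≤ δ := by
  obtain ⟨f, hf, h3⟩ := unit_right hRU y hy z (half_pos hδ)
  obtain ⟨e, he, h4⟩ := small_scalar (fun p : Fin 3 × Option (Fin 3) => ‖η 2 p.1 * f * z p.2‖)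
    (fun _ => norm_nonneg _) (half_pos hδ)
  have he' : (e : ℂ) ≠ 0 := by exact_mod_cast he.ne'
  obtain ⟨η', ρ', g1, g2, g3, -⟩ := elim (R := Rev R) η ρ (fun i j => h j i) y h2 he'
  refine ⟨fun k => (y k + (e : ℂ) • η 2 k) * f, ρ', η', fun k => by rw [hmul, hf, mul_zero],
    fun i j => g1 j i, ?_, ?_, fun k t => ?_⟩
  · have : ∑ k, (Rev.un (ρ' 1 k) : R) * (y k + (e : ℂ) • η 2 k) = 0 := g2
    change ∑ k, (Rev.un (ρ' 1 k) : R) * ((y k + (e : ℂ) • η 2 k) * f) = 0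
    simp only [← mul_assoc]
    rw [← Finset.sum_mul, this, zero_mul]
  · have : ∑ k, (Rev.un (ρ' 2 k) : R) * (y k + (e : ℂ) • η 2 k) = 0 := g3
    change ∑ k, (Rev.un (ρ' 2 k) : R) * ((y k + (e : ℂ) • η 2 k) * f) = 0
    simp only [← mul_assoc]
    rw [← Finset.sum_mul, this, zero_mul]
  · have : (y k + (e : ℂ) • η 2 k) * f * z t - y k * z t =
        (y k * f - y k) * z t + (e : ℂ) • (η 2 k * f * z t) := by
      simp only [add_mul, sub_mul, smul_mul_assoc]; abel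
    rw [this]
    refine (norm_add_le _ _).trans ?_
    have a1 := h4 (k, t)
    rw [norm_smul, Complex.norm_real, Real.norm_of_nonneg he.le]
    linarith [h3 k t]

/-- Part (c): passing the distinguished slot to the other side. -/
theorem step_c (χ : R →L[ℂ] ℂ) (hmul : ∀ a b, χ (a * b) = χ a * χ b) (hone : χ 1 = 1)
    (hRU : ∀ (Y : Finset R) (δ : ℝ), 0 < δ → (∀ y ∈ Y, χ y = 0) →
      ∃ f, χ f = 0 ∧ ∀ y ∈ Y, ‖y * f - y‖ ≤ δ)
    (hLU : ∀ (Y : Finset R) (δ : ℝ), 0 < δ → (∀ y ∈ Y, χ y = 0) →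
      ∃ f, χ f = 0 ∧ ∀ y ∈ Y, ‖f * y - y‖ ≤ δ)
    (y yb : Fin 3 → R) (hy : ∀ k, χ (y k) = 0) (hyb : ∀ k, χ (yb k) = 0)
    (P Q : Fin 3 → Fin 3 → R) (h : ∀ i j, ∑ k, P i k * Q j k = if i = j then 1 else 0)
    (z zb : Option (Fin 3) → R) (h1 : ∑ k, z (some k) * Q 2 k = 0)
    (h2 : ∑ k, P 1 k * zb (some k) = 0) (h3 : ∑ k, P 2 k * zb (some k) = 0)
    (h4 : ∑ t, z t * zb t = 0) {δ : ℝ} (hδ : 0 < δ) :
    ∃ (P' Q' : Fin 3 → Fin 3 → R) (z' zb' : Option (Fin 3) → R),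
      (∀ i j, ∑ k, P' i k * Q' j k = if i = j then 1 else 0) ∧
      ∑ k, P' 2 k * zb' (some k) = 0 ∧ ∑ k, z' (some k) * Q' 1 k = 0 ∧
      ∑ k, z' (some k) * Q' 2 k = 0 ∧ ∑ t, z' t * zb' t = 0 ∧
      (∀ t, χ (zb' t) = if t = none then 1 else 0) ∧ (∀ k t, ‖y k * z' t - y k * z t‖ ≤ δ) ∧
      ∀ k t, ‖zb' t * yb k - zb t * yb k‖ ≤ δ := by
  obtain ⟨f, hf, g1⟩ := unit_right hRU y hy z (half_pos hδ)
  obtain ⟨e, he, g2⟩ := small_scalar (fun p : Fin 3 × Fin 3 => ‖y p.1 * P 2 p.2‖)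
    (fun _ => norm_nonneg _) (half_pos hδ)
  have he' : (e : ℂ) ≠ 0 := by exact_mod_cast he.ne'
  have hv : ∑ k, f * z (some k) * Q 2 k = 0 := by
    simp only [mul_assoc]; rw [← Finset.mul_sum, h1, mul_zero]
  obtain ⟨P', Q', g3, g4, g5, g6⟩ := elim P Q h (fun k => f * z (some k)) hv he'
  let w : Option (Fin 3) → R := fun t =>
    t.elim 1 fun k => -((e : ℂ)⁻¹ • (Q 2 k * (f * z none)))
  obtain ⟨g, hg, g7⟩ := unit_left hLU yb hyb (fun t => zb t - w t) hδ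
  let z' : Option (Fin 3) → R := fun t =>
    t.elim (f * z none) fun k => f * z (some k) + (e : ℂ) • P 2 k
  have a1 : ∑ t, z' t * zb t = 0 := by
    rw [Fintype.sum_option] at h4 ⊢
    simp only [z', Option.elim, add_mul, smul_mul_assoc, Finset.sum_add_distrib,
      ← Finset.smul_sum, mul_assoc, ← Finset.mul_sum, h3, smul_zero, add_zero]
    rw [← mul_add, h4, mul_zero]
  have a2 : ∑ k, (f * z (some k) + (e : ℂ) • P 2 k) * Q 2 k = (e : ℂ) • (1 : R) := by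
    simp only [add_mul, smul_mul_assoc, Finset.sum_add_distrib, ← Finset.smul_sum, hv, h 2 2]
    simp
  have a3 : ∑ t, z' t * w t = 0 := by
    rw [Fintype.sum_option]
    simp only [z', w, Option.elim, mul_neg, mul_smul_comm, Finset.sum_neg_distrib,
      ← Finset.smul_sum, ← mul_assoc, ← Finset.sum_mul, a2, smul_mul_assoc, one_mul, mul_one,
      smul_smul, inv_mul_cancel₀ he', one_smul, add_neg_cancel]
  refine ⟨P', Q', z', fun t => zb t * g + w t * (1 - g), g3, ?_, g4, g5, ?_, fun t => ?_,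
    fun k t => ?_, fun k t => ?_⟩
  · rw [g6]
    simp only [w, Option.elim, mul_add, Finset.sum_add_distrib, ← mul_assoc, ← Finset.sum_mul, h2,
      mul_neg, mul_smul_comm, Finset.sum_neg_distrib, ← Finset.smul_sum, h 1 2]
    simp
  · simp only [mul_add, Finset.sum_add_distrib, ← mul_assoc, ← Finset.sum_mul, a1, a3]
    simp
  · cases t with
    | none => simp [w, hmul, hg, hone]
    | some k => simp [w, hmul, hg, hf]
  · cases t with
    | none =>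
      have : y k * z' none - y k * z none = (y k * f - y k) * z none := by
        simp only [z', Option.elim, sub_mul, mul_assoc]
      rw [this]; linarith [g1 k none]
    | some i =>
      have : y k * z' (some i) - y k * z (some i) =
          (y k * f - y k) * z (some i) + (e : ℂ) • (y k * P 2 i) := by
        simp only [z', Option.elim, sub_mul, mul_assoc, mul_add, mul_smul_comm]; abel
      rw [this]
      refine (norm_add_le _ _).trans ?_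
      have b1 := g2 (k, i)
      rw [norm_smul, Complex.norm_real, Real.norm_of_nonneg he.le]
      linarith [g1 k (some i)]
  · have : (zb t * g + w t * (1 - g)) * yb k - zb t * yb k = (zb t - w t) * (g * yb k - yb k) := by
      noncomm_ring
    rw [this]; exact g7 k t

/-- One stage of the construction. -/
theorem fstep [NormOneClass R] (χ : R →L[ℂ] ℂ) (hmul : ∀ a b, χ (a * b) = χ a * χ b)
    (hone : χ 1 = 1) (hn : ∀ a, ‖χ a‖ ≤ ‖a‖)
    (hRU : ∀ (Y : Finset R) (δ : ℝ), 0 < δ → (∀ y ∈ Y, χ y = 0) →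
      ∃ f, χ f = 0 ∧ ∀ y ∈ Y, ‖y * f - y‖ ≤ δ)
    (hLU : ∀ (Y : Finset R) (δ : ℝ), 0 < δ → (∀ y ∈ Y, χ y = 0) →
      ∃ f, χ f = 0 ∧ ∀ y ∈ Y, ‖f * y - y‖ ≤ δ)
    (hRR : ∀ d : ℝ, 0 < d → ∃ x, χ x = 0 ∧ ‖x‖ = 1 ∧ ∀ r, χ r = 0 → ‖x * r‖ ≤ d * ‖r‖)
    (s : FSt R) (hs : FGood χ (fun a b => a * b) s) {τ : ℝ} (hτ : 0 < τ) (hτ1 : τ ≤ 1) :
    ∃ (s' : FSt R) (l : Fin 3 → R →L[ℂ] ℂ), FGood χ (fun a b => b * a) s' ∧
      (∀ k t, ‖s'.z t * s'.y k - s.zb t * s.yb k‖ ≤ τ) ∧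
      (∀ k t, ‖s'.yb k * s'.zb t - s.y k * s.z t‖ ≤ 2 * s.ao + τ) ∧
      s'.Lo = s.Lt ∧ s'.ao = s.at' ∧ s'.at' ≤ τ ∧ ∑ k, ‖l k‖ ≤ s.Lo ∧
      ∀ t w, ‖∑ k, l k (s'.yb k * s'.zb t * w) - (if t = none then χ w else 0)‖ ≤ τ * ‖w‖ := by
  obtain ⟨hy, hyb, f1, -, -, f2, kb1, kb2, f3, zq, pz1, pz2, rel, hz, hc, hcb⟩ := id hs
  obtain ⟨-, -, -, k1, k2, -⟩ := hs
  have hL : 0 ≤ s.Lo := div_nonneg (Finset.sum_nonneg fun _ _ => norm_nonneg _) hc.le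
  set δ : ℝ := τ / (2 * s.Lo + 2) with hδ
  have hδ0 : 0 < δ := by positivity
  have hδ1 : δ * (2 * s.Lo + 2) = τ := by rw [hδ]; field_simp
  obtain ⟨d, hd, hd'⟩ := small_scalar (fun t => 2 * ‖s.z t‖) (fun _ => by positivity) hδ0
  obtain ⟨x, hx0, hx1, hx⟩ := hRR d hd
  have hxr : ∀ r, ‖x * r - χ r • x‖ ≤ d * (2 * ‖r‖) := by
    intro r
    have a1 : x * r - χ r • x = x * (r - χ r • (1 : R)) := by
      rw [mul_sub, mul_smul_comm, mul_one]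
    rw [a1]
    refine (hx _ (by simp [hone])).trans (mul_le_mul_of_nonneg_left ?_ hd.le)
    refine (norm_sub_le _ _).trans ?_
    rw [norm_smul, norm_one]
    linarith [hn r]
  obtain ⟨lam, hl1, hl2⟩ := exists_dual_vector ℂ x (by rw [← norm_ne_zero_iff, hx1]; norm_num)
  rw [hx1] at hl2
  have hc' : (s.c : ℂ) ≠ 0 := by exact_mod_cast hc.ne'
  let y1 : Fin 3 → R := fun k => s.y k + (s.c : ℂ) • (s.η 1 k * x)
  have e1 : ∀ i, ∑ k, s.ρ i k * y1 k =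
      ∑ k, s.ρ i k * s.y k + (s.c : ℂ) • ((∑ k, s.ρ i k * s.η 1 k) * x) := by
    intro i
    simp only [y1, mul_add, mul_smul_comm, Finset.sum_add_distrib, ← Finset.smul_sum,
      Finset.sum_mul, mul_assoc]
  have e2 : ∑ k, s.ρ 1 k * y1 k = (s.c : ℂ) • x := by rw [e1, k1, f1]; simp
  have e3 : ∑ k, s.ρ 2 k * y1 k = 0 := by rw [e1, k2, f1]; simp
  have hy1 : ∀ k, χ (y1 k) = 0 := fun k => by simp [y1, hy, hmul, hx0]
  obtain ⟨y2, ρ', η', hy2, g1, g2, g3, g4⟩ := step_b χ hmul hRU y1 hy1 s.ρ s.η f1 e3 s.z hδ0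
  obtain ⟨P', Q', z', zb', g5, g6, g7, g8, g9, g10, g11, g12⟩ :=
    step_c χ hmul hone hRU hLU y2 s.yb hy2 hyb s.P s.Q f3 s.z s.zb zq pz1 pz2 rel hδ0
  obtain ⟨c', hc0, hc1⟩ := small_scalar (fun _ : Unit => ∑ k, ‖η' 1 k‖)
    (fun _ => Finset.sum_nonneg fun _ _ => norm_nonneg _) hτ
  have n1 : ∀ k t, ‖y2 k * z' t - y1 k * s.z t‖ ≤ 2 * δ := fun k t => by
    linarith [norm_sub_le_norm_sub_add_norm_sub (y2 k * z' t) (y2 k * s.z t) (y1 k * s.z t),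
      g11 k t, g4 k t]
  have n2 : ∀ t, ‖x * s.z t‖ ≤ 2 := fun t => by
    have a1 := (hxr (s.z t)).trans (hd' t)
    have a2 : ‖χ (s.z t) • x‖ ≤ 1 := by
      rw [norm_smul, hx1, hz]; split_ifs <;> simp
    have a3 := norm_le_norm_sub_add (x * s.z t) (χ (s.z t) • x)
    nlinarith
  let l : Fin 3 → R →L[ℂ] ℂ := fun k => (s.c : ℂ)⁻¹ • lam.comp (lm (s.ρ 1 k))
  have n3 : ∑ k, ‖l k‖ ≤ s.Lo := by
    rw [FSt.Lo, Finset.sum_div]
    refine Finset.sum_le_sum fun k _ => ?_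
    have a1 := norm_comp_lm lam (s.ρ 1 k)
    rw [hl1, one_mul] at a1
    simp only [l]
    rw [norm_smul, norm_inv, Complex.norm_real, Real.norm_of_nonneg hc.le, inv_mul_eq_div]
    gcongr
  refine ⟨⟨s.yb, y2, s.ρb, s.ηb, ρ', η', Q', P', zb', z', s.cb, c'⟩, l,
    ⟨hyb, hy2, f2, kb1, kb2, g1, g2, g3, fun i j => ?_, g6, g7, g8, g9, g10, hcb, hc0⟩,
    fun k t => (g12 k t).trans (by nlinarith), fun k t => ?_, rfl, rfl, hc1 (), n3,
    fun t w => ?_⟩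
  · simpa [eq_comm] using g5 j i
  · have a1 : y1 k * s.z t - s.y k * s.z t = (s.c : ℂ) • (s.η 1 k * (x * s.z t)) := by
      simp only [y1, add_mul, smul_mul_assoc, mul_assoc]; abel
    have a2 : ‖y1 k * s.z t - s.y k * s.z t‖ ≤ 2 * s.ao := by
      rw [a1, norm_smul, Complex.norm_real, Real.norm_of_nonneg hc.le, FSt.ao]
      have b1 : ‖s.η 1 k‖ ≤ ∑ k, ‖s.η 1 k‖ :=
        Finset.single_le_sum (f := fun k => ‖s.η 1 k‖) (fun _ _ => norm_nonneg _)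
          (Finset.mem_univ k)
      have b2 : ‖s.η 1 k * (x * s.z t)‖ ≤ (∑ k, ‖s.η 1 k‖) * 2 :=
        (norm_mul_le _ _).trans (mul_le_mul b1 (n2 t) (norm_nonneg _) ((norm_nonneg _).trans b1))
      nlinarith
    have a3 := norm_sub_le_norm_sub_add_norm_sub (y2 k * z' t) (y1 k * s.z t) (s.y k * s.z t)
    have a4 := n1 k t
    change ‖y2 k * z' t - s.y k * s.z t‖ ≤ _
    nlinarith
  · change ‖∑ k, l k (y2 k * z' t * w) - _‖ ≤ _
    have a1 : ∑ k, l k (y1 k * s.z t * w) = lam (x * (s.z t * w)) := by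
      have : ∑ k, l k (y1 k * s.z t * w) =
          (s.c : ℂ)⁻¹ * lam ((∑ k, s.ρ 1 k * y1 k) * (s.z t * w)) := by
        simp only [l, Finset.sum_mul, map_sum, Finset.mul_sum, mul_assoc,
          ContinuousLinearMap.smul_apply, ContinuousLinearMap.comp_apply, lm_apply, smul_eq_mul]
      rw [this, e2, smul_mul_assoc, map_smul, smul_eq_mul, ← mul_assoc, inv_mul_cancel₀ hc',
        one_mul]
    have a2 : ‖lam (x * (s.z t * w)) - (if t = none then χ w else 0)‖ ≤ δ * ‖w‖ := by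
      have b1 : (if t = none then χ w else 0) = lam (χ (s.z t * w) • x) := by
        rw [map_smul, hl2, hmul, hz]; split_ifs <;> simp
      rw [b1, ← map_sub]
      refine (lam.le_opNorm _).trans ?_
      rw [hl1, one_mul]
      refine (hxr _).trans ?_
      have b2 := norm_mul_le (s.z t) w
      have b3 := mul_le_mul_of_nonneg_right (hd' t) (norm_nonneg w)
      nlinarith
    have a3 : ‖∑ k, l k (y2 k * z' t * w) - ∑ k, l k (y1 k * s.z t * w)‖ ≤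
        s.Lo * (2 * δ * ‖w‖) := by
      rw [← Finset.sum_sub_distrib]
      refine (norm_sum_le _ _).trans (le_trans (Finset.sum_le_sum fun k _ => ?_)
        ((Finset.sum_mul _ _ _).symm.le.trans (mul_le_mul_of_nonneg_right n3 (by positivity))))
      rw [← map_sub, ← sub_mul]
      refine ((l k).le_opNorm _).trans (mul_le_mul_of_nonneg_left ?_ (norm_nonneg _))
      exact (norm_mul_le _ _).trans (mul_le_mul_of_nonneg_right (n1 k t) (norm_nonneg _))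
    have a4 := norm_sub_le_norm_sub_add_norm_sub (∑ k, l k (y2 k * z' t * w))
      (∑ k, l k (y1 k * s.z t * w)) (if t = none then χ w else 0)
    rw [a1] at a3 a4
    have a5 := mul_nonneg hδ0.le (norm_nonneg w)
    rw [← hδ1]
    nlinarith

end Pool.Agent.Lib.MP_bcc96c_an
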