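import Pool.Agent.Lib.MP_bcc96c_an.Piet

/-! A small perturbation of the identity minus a summing operator is Fredholm. -/

namespace Pool.Agent.Lib.MP_bcc96c_an

section alg

variable {W : Type*} [AddCommGroup W] [Module ℝ W] (b : W →ₗ[ℝ] W →ₗ[ℝ] ℝ)

/-- Orthonormal finite families for a bilinear form. -/
def ON {n : ℕ} (ε : Fin n → W) : Prop := ∀ i j, b (ε i) (ε j) = if i = j then 1 else 0

theorem ON.comb {n : ℕ} {ε : Fin n → W} (h : ON b ε) (x : Fin n → ℝ) (j : Fin n) :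
    b (ε j) (∑ i, x i • ε i) = x j := by
  simp [map_sum, h j]

theorem ON.comb_self {n : ℕ} {ε : Fin n → W} (h : ON b ε) (x : Fin n → ℝ) :
    b (∑ i, x i • ε i) (∑ i, x i • ε i) = ∑ i, x i ^ 2 := by
  conv_lhs => rw [map_sum b, LinearMap.sum_apply]
  refine Finset.sum_congr rfl fun j _ => ?_
  rw [map_smul, LinearMap.smul_apply, h.comb, smul_eq_mul, sq]

theorem ON.bessel {n : ℕ} {ε : Fin n → W} (h : ON b ε) (Λ : W →ₗ[ℝ] ℝ) {k : ℝ}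
    (hΛ : ∀ w, Λ w ≤ k * √(b w w)) : ∑ i, Λ (ε i) ^ 2 ≤ k ^ 2 := by
  have h1 := hΛ (∑ i, Λ (ε i) • ε i)
  rw [h.comb_self, map_sum] at h1
  simp only [map_smul, smul_eq_mul, ← sq] at h1
  set s := ∑ i, Λ (ε i) ^ 2
  have hs : 0 ≤ s := Finset.sum_nonneg fun i _ => sq_nonneg _
  have h2 := Real.sq_sqrt hs
  nlinarith [Real.sqrt_nonneg s, sq_nonneg (√s - k)]

theorem ON.proj {n : ℕ} {ε : Fin n → W} (h : ON b ε) (hs : ∀ μ ν, b μ ν = b ν μ) (ν : W) :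
    (∀ j, b (ε j) (ν - ∑ i, b (ε i) ν • ε i) = 0) ∧
    b (ν - ∑ i, b (ε i) ν • ε i) (ν - ∑ i, b (ε i) ν • ε i) = b ν ν - ∑ i, b (ε i) ν ^ 2 := by
  refine ⟨fun j => by rw [map_sub, h.comb, sub_self], ?_⟩
  have h1 : b (∑ i, b (ε i) ν • ε i) ν = ∑ i, b (ε i) ν ^ 2 := by
    rw [map_sum b, LinearMap.sum_apply]
    refine Finset.sum_congr rfl fun j _ => ?_
    rw [map_smul, LinearMap.smul_apply, smul_eq_mul, sq]
  rw [map_sub, map_sub b, LinearMap.sub_apply, LinearMap.sub_apply, h.comb_self, h1, hs ν (∑ _, _),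
    h1]
  ring

theorem hs_small (hs : ∀ μ ν, b μ ν = b ν μ) (h0 : ∀ μ, 0 ≤ b μ μ) (J : W →ₗ[ℝ] W) {C δ : ℝ}
    (hδ : 0 < δ) (hC : ∀ (n : ℕ) (ε : Fin n → W), ON b ε → ∑ i, b (J (ε i)) (J (ε i)) ≤ C)
    (hJ : ∀ ν, b ν ν = 0 → b (J ν) (J ν) = 0) :
    ∃ (n : ℕ) (ε : Fin n → W), ON b ε ∧
      ∀ ν, (∀ i, b (ε i) ν = 0) → b (J ν) (J ν) ≤ δ * b ν ν := by
  by_contra hc
  push Not at hc
  have key : ∀ n : ℕ, ∃ ε : Fin n → W, ON b ε ∧ n * δ ≤ ∑ i, b (J (ε i)) (J (ε i)) := by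
    intro n
    induction n with
    | zero => exact ⟨fun i => i.elim0, fun i => i.elim0, by simp⟩
    | succ n ih =>
      obtain ⟨ε, hε, hsum⟩ := ih
      obtain ⟨ν, hν, hlt⟩ := hc n ε hε
      have hpos : 0 < b ν ν := by
        rcases (h0 ν).eq_or_lt with h | h
        · rw [hJ ν h.symm, ← h] at hlt
          simp at hlt
        · exact h
      have hq : 0 < √(b ν ν) := Real.sqrt_pos.2 hpos
      have hq2 : √(b ν ν) * √(b ν ν) = b ν ν := Real.mul_self_sqrt hpos.le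
      refine ⟨Fin.cons ((√(b ν ν))⁻¹ • ν) ε, fun i j => ?_, ?_⟩
      · refine Fin.cases ?_ (fun i => ?_) i <;> refine Fin.cases ?_ (fun j => ?_) j
        · simp only [Fin.cons_zero, map_smul, LinearMap.smul_apply, smul_eq_mul, if_true]
          field_simp
          nlinarith
        · simp [hs ν, hν, (Fin.succ_ne_zero j).symm]
        · simp [hν, Fin.succ_ne_zero i]
        · simpa using hε i j
      · rw [Fin.sum_univ_succ]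
        simp only [Fin.cons_zero, Fin.cons_succ, map_smul, LinearMap.smul_apply, smul_eq_mul]
        have : δ ≤ (√(b ν ν))⁻¹ * ((√(b ν ν))⁻¹ * b (J ν) (J ν)) := by
          rw [← mul_assoc, ← mul_inv, hq2, le_inv_mul_iff₀ hpos]
          linarith
        push_cast
        linarith
  obtain ⟨n, hn⟩ := exists_nat_gt (C / δ)
  obtain ⟨ε, hε, hsum⟩ := key n
  have := hC n ε hε
  rw [div_lt_iff₀ hδ] at hn
  linarith

end alg

theorem neumann {𝕜 W : Type*} [NontriviallyNormedField 𝕜] [NormedAddCommGroup W]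
    [NormedSpace 𝕜 W] [CompleteSpace W] (E : W →L[𝕜] W) {θ : ℝ} (h0 : 0 ≤ θ) (h1 : θ < 1)
    (hE : ∀ x, ‖E x‖ ≤ θ * ‖x‖) :
    ∃ U : W →L[𝕜] W, (∀ x, U (x - E x) = x) ∧ ∀ x, U x - E (U x) = x := by
  have h : ‖E‖ < 1 := (ContinuousLinearMap.opNorm_le_bound _ h0 hE).trans_lt h1
  let u := Units.oneSub E h
  exact ⟨↑u⁻¹, fun x => congrArg (fun f : W →L[𝕜] W => f x) u.inv_mul,
    fun x => congrArg (fun f : W →L[𝕜] W => f x) u.mul_inv⟩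

variable {A : Type*} [NormedAddCommGroup A] [NormedSpace ℂ A]

theorem approx (I U : (A →L[ℂ] ℂ) →L[ℂ] (A →L[ℂ] ℂ)) {c : ℝ} (hc : 0 ≤ c)
    (hI : ∀ (ι : Type) [Fintype ι] (a : ι → A) (μ : ι → A →L[ℂ] ℂ) (s : ℝ),
      (∀ v : A, ‖v‖ ≤ 1 → c * ∑ k, ‖a k‖ * ‖μ k v‖ ≤ s) → ‖∑ k, I (μ k) (a k)‖ ≤ s) :
    ∃ (n : ℕ) (l : Fin n → (A →L[ℂ] ℂ) →L[ℝ] ℝ) (y : Fin n → A →L[ℂ] ℂ),
      ∀ μ, ‖I (U (I (U μ))) - ∑ i, l i μ • y i‖ ≤ 1 / 2 * ‖μ‖ := by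
  obtain ⟨b, hs, h0, hIb, hsum⟩ := pietsch I hc hI
  have hb1 : ∀ μ, b μ μ ≤ ‖μ‖ ^ 2 := fun μ => by
    have := hsum 1 (fun _ => μ) (‖μ‖ ^ 2) fun v hv => by
      have h1 : ‖μ v‖ ≤ ‖μ‖ := (μ.le_opNorm _).trans (by nlinarith [norm_nonneg μ])
      simpa using pow_le_pow_left₀ (norm_nonneg _) h1 2
    simpa using this
  let J : (A →L[ℂ] ℂ) →ₗ[ℝ] (A →L[ℂ] ℂ) := ((U.comp I).restrictScalars ℝ).toLinearMap
  have hJ : ∀ ν, J ν = U (I ν) := fun _ => rfl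
  have hJb : ∀ ν, ‖J ν‖ ≤ ‖U‖ * c * √(b ν ν) := fun ν => by
    rw [hJ, mul_assoc]
    exact (U.le_opNorm _).trans (mul_le_mul_of_nonneg_left (hIb ν) (norm_nonneg _))
  set k : ℝ := c * ‖U‖ + 1 with hk
  have hk0 : 0 < k := by positivity
  obtain ⟨n, ε, hε, hsm⟩ := hs_small b hs h0 J (C := 2 * (‖U‖ * c) ^ 2) (δ := (1 / (2 * k)) ^ 2)
    (by positivity) (fun n ε hε => by
      refine hsum n (fun i => J (ε i)) _ fun v hv => ?_
      have hv' : ∀ w, ‖J w v‖ ≤ ‖U‖ * c * √(b w w) := fun w =>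
        ((J w).le_opNorm _).trans ((mul_le_of_le_one_right (norm_nonneg _) hv).trans (hJb w))
      let ev : (A →L[ℂ] ℂ) →ₗ[ℝ] ℂ :=
        ((ContinuousLinearMap.apply ℂ ℂ v).restrictScalars ℝ).toLinearMap ∘ₗ J
      have h1 := hε.bessel b (Complex.reLm ∘ₗ ev) (k := ‖U‖ * c) fun w =>
        (Complex.re_le_norm _).trans (hv' w)
      have h2 := hε.bessel b (Complex.imLm ∘ₗ ev) (k := ‖U‖ * c) fun w =>
        (Complex.im_le_norm _).trans (hv' w)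
      have h3 : ∑ i, ‖J (ε i) v‖ ^ 2 = ∑ i, (Complex.reLm ∘ₗ ev) (ε i) ^ 2 +
          ∑ i, (Complex.imLm ∘ₗ ev) (ε i) ^ 2 := by
        rw [← Finset.sum_add_distrib]
        refine Finset.sum_congr rfl fun i _ => ?_
        rw [Complex.sq_norm, Complex.normSq_apply, sq, sq]
        rfl
      linarith)
    (fun ν hν => by
      have h1 := hJb ν
      rw [hν, Real.sqrt_zero, mul_zero, norm_le_zero_iff] at h1
      simp [h1])
  have hl : ∀ i ν, |b (ε i) ν| ≤ ‖ν‖ := fun i ν => by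
    have h1 := (hε.proj b hs ν).2
    have h2 := h0 (ν - ∑ i, b (ε i) ν • ε i)
    have h3 : b (ε i) ν ^ 2 ≤ ∑ i, b (ε i) ν ^ 2 :=
      Finset.single_le_sum (f := fun i => b (ε i) ν ^ 2) (fun i _ => sq_nonneg _) (Finset.mem_univ i)
    exact abs_le_of_sq_le_sq (by linarith [hb1 ν]) (norm_nonneg _)
  refine ⟨n, fun i => (LinearMap.mkContinuous (b (ε i)) 1 fun ν => by
    simpa using hl i ν).comp (U.restrictScalars ℝ), fun i => I (J (ε i)), fun μ => ?_⟩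
  obtain ⟨h1, h2⟩ := hε.proj b hs (U μ)
  set ν' := U μ - ∑ i, b (ε i) (U μ) • ε i with hν'
  have h3 : I (U (I (U μ))) - ∑ i, b (ε i) (U μ) • I (J (ε i)) = I (J ν') := by
    rw [hν', map_sub, map_sub, map_sum, map_sum]
    simp only [map_smul, ContinuousLinearMap.map_smul_of_tower]
    rfl
  change ‖I (U (I (U μ))) - ∑ i, b (ε i) (U μ) • I (J (ε i))‖ ≤ _
  rw [h3]
  have h4 : b ν' ν' ≤ (‖U‖ * ‖μ‖) ^ 2 := by
    have h5 : 0 ≤ ∑ i, b (ε i) (U μ) ^ 2 := Finset.sum_nonneg fun i _ => sq_nonneg _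
    have h6 := pow_le_pow_left₀ (norm_nonneg _) (U.le_opNorm μ) 2
    linarith [hb1 (U μ)]
  have h7 : √(b (J ν') (J ν')) ≤ 1 / (2 * k) * (‖U‖ * ‖μ‖) := by
    refine Real.sqrt_le_iff.2 ⟨by positivity, (hsm ν' h1).trans ?_⟩
    rw [mul_pow]
    gcongr
  refine (hIb _).trans ((mul_le_mul_of_nonneg_left h7 hc).trans ?_)
  have h8 : c * (1 / (2 * k) * (‖U‖ * ‖μ‖)) = 1 / 2 * ‖μ‖ * (c * ‖U‖ / k) := by field_simp
  rw [h8]
  refine mul_le_of_le_one_right (by positivity) ?_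
  rw [div_le_one hk0]
  linarith

theorem fred (T I : (A →L[ℂ] ℂ) →L[ℂ] (A →L[ℂ] ℂ)) {c θ : ℝ} (hc : 0 ≤ c) (hθ0 : 0 ≤ θ)
    (hθ : θ < 1) (hT : ∀ μ, ‖μ - T μ - I μ‖ ≤ θ * ‖μ‖)
    (hI : ∀ (ι : Type) [Fintype ι] (a : ι → A) (μ : ι → A →L[ℂ] ℂ) (s : ℝ),
      (∀ v : A, ‖v‖ ≤ 1 → c * ∑ k, ‖a k‖ * ‖μ k v‖ ≤ s) → ‖∑ k, I (μ k) (a k)‖ ≤ s) :
    FiniteDimensional ℂ (LinearMap.ker (T : (A →L[ℂ] ℂ) →ₗ[ℂ] (A →L[ℂ] ℂ))) ∧
    ∃ (n : ℕ) (l : Fin n → (A →L[ℂ] ℂ) →L[ℝ] ℝ) (c₂ : ℝ),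
      ∀ ψ, (∀ i, l i ψ = 0) → ∃ ν, T ν = ψ ∧ ‖ν‖ ≤ c₂ * ‖ψ‖ := by
  obtain ⟨U, hU1', hU2'⟩ := neumann (ContinuousLinearMap.id ℂ (A →L[ℂ] ℂ) - T - I) hθ0 hθ hT
  have hu : ∀ μ : A →L[ℂ] ℂ, μ - (ContinuousLinearMap.id ℂ (A →L[ℂ] ℂ) - T - I) μ = T μ + I μ :=
    fun μ => by
      change μ - (μ - T μ - I μ) = _
      abel
  have hU1 : ∀ μ, U (T μ + I μ) = μ := fun μ => by rw [← hu, hU1']
  have hU2 : ∀ μ, T (U μ) + I (U μ) = μ := fun μ => by rw [← hu, hU2']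
  obtain ⟨n, l, y, hy⟩ := approx I U hc hI
  have hz : ∀ y : A →L[ℂ] ℂ, (0 : ℝ) • y = 0 := fun y => by ext; simp
  constructor
  · let j : LinearMap.ker (T : (A →L[ℂ] ℂ) →ₗ[ℂ] (A →L[ℂ] ℂ)) →ₗ[ℝ] (Fin n → ℝ) :=
      LinearMap.pi fun i => (l i).toLinearMap ∘ₗ (I.restrictScalars ℝ).toLinearMap ∘ₗ
        (Submodule.subtype _).restrictScalars ℝ
    have hj : Function.Injective j := by
      rw [injective_iff_map_eq_zero]
      rintro ⟨μ, hμ⟩ h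
      have hμ' : T μ = 0 := hμ
      have h1 : U (I μ) = μ := by simpa [hμ'] using hU1 μ
      have h2 := hy (I μ)
      have h3 : ∀ i, l i (I μ) = 0 := fun i => congrFun h i
      simp only [h1, h3, hz, Finset.sum_const_zero, sub_zero] at h2
      have h4 : I μ = 0 := by
        rw [← norm_le_zero_iff]
        linarith
      ext1
      simpa [h4] using h1.symm
    have : FiniteDimensional ℝ (LinearMap.ker (T : (A →L[ℂ] ℂ) →ₗ[ℂ] (A →L[ℂ] ℂ))) :=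
      FiniteDimensional.of_injective j hj
    exact Module.Finite.of_restrictScalars_finite ℝ ℂ _
  · let S : (A →L[ℂ] ℂ) →L[ℝ] (A →L[ℂ] ℂ) :=
      (I.comp (U.comp (I.comp U))).restrictScalars ℝ - ∑ i, (l i).smulRight (y i)
    have hS : ∀ μ, S μ = I (U (I (U μ))) - ∑ i, l i μ • y i := fun μ => by
      simp [S]
    obtain ⟨V, -, hV⟩ := neumann S (θ := 1 / 2) (by norm_num) (by norm_num) fun μ => by
      rw [hS]; exact hy μ
    let P : (A →L[ℂ] ℂ) →L[ℝ] (A →L[ℂ] ℂ) :=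
      ((U + U.comp (I.comp U)).restrictScalars ℝ).comp V
    refine ⟨n, fun i => (l i).comp V, ‖P‖, fun ψ hψ => ⟨P ψ, ?_, P.le_opNorm ψ⟩⟩
    have h1 := hV ψ
    have h2 : ∀ i, l i (V ψ) = 0 := hψ
    simp only [hS, h2, hz, Finset.sum_const_zero, sub_zero] at h1
    change T (U (V ψ) + U (I (U (V ψ)))) = ψ
    rw [map_add, eq_sub_of_add_eq (hU2 (V ψ)), eq_sub_of_add_eq (hU2 (I (U (V ψ))))]
    conv_rhs => rw [← h1]
    abel

end Pool.Agent.Lib.MP_bcc96c_an
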