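import Pool.Agent.Lib.MP_bcc96c_an.Core

/-! The test bimodule and the dichotomy. -/

set_option maxSynthPendingDepth 3

namespace Pool.Agent.Lib.MP_bcc96c_an

universe u

variable (A : Type u) [NonUnitalNormedRing A] [NormedSpace ℂ A] [IsScalarTower ℂ A A]
  [SMulCommClass ℂ A A]

/-- The test bimodule: a bounded bilinear form and two functionals. -/
abbrev XM : Type u := (A →L[ℂ] A →L[ℂ] ℂ) × (A →L[ℂ] ℂ) × (A →L[ℂ] ℂ)

omit [IsScalarTower ℂ A A] [SMulCommClass ℂ A A] in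
theorem bil_le (β : A →L[ℂ] A →L[ℂ] ℂ) {C : ℝ} (hC : 0 ≤ C)
    (h : ∀ x y, ‖β x y‖ ≤ C * ‖x‖ * ‖y‖) : ‖β‖ ≤ C :=
  ContinuousLinearMap.opNorm_le_bound _ hC fun x =>
    ContinuousLinearMap.opNorm_le_bound _ (by positivity) (h x)

/-- Right action. -/
noncomputable def RM : A →L[ℂ] XM A →L[ℂ] XM A :=
  LinearMap.mkContinuous₂
    (LinearMap.mk₂ ℂ (fun (a : A) (x : XM A) => (x.1.comp (lm a), x.2.1.comp (lm a), x.1 a))
      (fun a b x => by ext <;> simp [add_mul])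
      (fun c a x => by ext <;> simp [smul_mul_assoc])
      (fun a x y => by ext <;> simp)
      (fun c a x => by ext <;> simp)) 1
    (fun a x => by
      have h1 : ‖x.1‖ ≤ ‖x‖ := norm_fst_le x
      have h2 : ‖x.2.1‖ ≤ ‖x‖ := (norm_fst_le x.2).trans (norm_snd_le x)
      rw [one_mul, mul_comm]
      refine norm_prod_le_iff.2 ⟨?_, norm_prod_le_iff.2 ⟨?_, ?_⟩⟩
      · refine bil_le A _ (by positivity) fun s t => (x.1.le_opNorm₂ (a * s) t).trans ?_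
        rw [mul_assoc ‖x‖]
        gcongr
        exact norm_mul_le _ _
      · exact (norm_comp_lm _ _).trans (by gcongr)
      · exact (x.1.le_opNorm a).trans (by gcongr))

/-- Left action. -/
noncomputable def LM : A →L[ℂ] XM A →L[ℂ] XM A :=
  LinearMap.mkContinuous₂
    (LinearMap.mk₂ ℂ (fun (a : A) (x : XM A) =>
        ((x.1.flip.comp (rm a)).flip, x.1.flip a, x.2.2.comp (rm a)))
      (fun a b x => by ext <;> simp [mul_add])
      (fun c a x => by ext <;> simp [mul_smul_comm])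
      (fun a x y => by ext <;> simp)
      (fun c a x => by ext <;> simp)) 1
    (fun a x => by
      have h1 : ‖x.1‖ ≤ ‖x‖ := norm_fst_le x
      have h2 : ‖x.2.2‖ ≤ ‖x‖ := (norm_snd_le x.2).trans (norm_snd_le x)
      rw [one_mul, mul_comm]
      refine norm_prod_le_iff.2 ⟨?_, norm_prod_le_iff.2 ⟨?_, ?_⟩⟩
      · refine bil_le A _ (by positivity) fun s t => (x.1.le_opNorm₂ s (t * a)).trans ?_
        calc ‖x.1‖ * ‖s‖ * ‖t * a‖ ≤ ‖x‖ * ‖s‖ * (‖t‖ * ‖a‖) := by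
              gcongr
              exact norm_mul_le _ _
          _ = _ := by ring
      · refine ContinuousLinearMap.opNorm_le_bound _ (by positivity) fun s =>
          (x.1.le_opNorm₂ s a).trans ?_
        rw [mul_right_comm]
        gcongr
      · exact (norm_comp_rm _ _).trans (by gcongr))

/-- The derivation `a ↦ a ⊗ 1 - 1 ⊗ a`. -/
noncomputable def DM : A →L[ℂ] (XM A →L[ℂ] ℂ) :=
  (((ContinuousLinearMap.fst ℂ (A →L[ℂ] ℂ) (A →L[ℂ] ℂ)).comp (ContinuousLinearMap.snd ℂ _ _) -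
    (ContinuousLinearMap.snd ℂ (A →L[ℂ] ℂ) (A →L[ℂ] ℂ)).comp (ContinuousLinearMap.snd ℂ _ _) :
      XM A →L[ℂ] A →L[ℂ] ℂ)).flip

theorem RM_apply (a : A) (x : XM A) :
    RM A a x = (x.1.comp (lm a), x.2.1.comp (lm a), x.1 a) := rfl

theorem LM_apply (a : A) (x : XM A) :
    LM A a x = ((x.1.flip.comp (rm a)).flip, x.1.flip a, x.2.2.comp (rm a)) := rfl

omit [IsScalarTower ℂ A A] [SMulCommClass ℂ A A] in
theorem DM_apply (a : A) (x : XM A) : DM A a x = x.2.1 a - x.2.2 a := rfl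

variable {A}

theorem right_ai (η : XM A →L[ℂ] ℂ) (F : Finset A) {δ ε R : ℝ} (hδ : 0 ≤ δ) (hε : 0 < ε)
    (hR : 0 ≤ R) (h : ∀ a ∈ F, ‖η.comp (RM A a) - η.comp (LM A a) - DM A a‖ < δ)
    (hη : ∀ φ : A →L[ℂ] ℂ, ‖η (0, φ, 0)‖ ≤ R * ‖φ‖) :
    ∃ e : A, ‖e‖ ≤ R ∧ ∀ a ∈ F, ‖a * e - a‖ < F.card * δ + ε := by
  obtain ⟨e, he, h'⟩ := hb (S := F) (fun b => lm (b : A)) (fun b => (b : A)) hR hδ hε (by
    intro μ
    have h1 : ∀ b : F, ‖η (0, (μ b).comp (lm (b : A)), 0) - μ b b‖ ≤ δ * ‖μ b‖ := by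
      intro b
      have h2 := (η.comp (RM A b) - η.comp (LM A b) - DM A b).le_of_opNorm_le (h b b.2).le
        (0, μ b, 0)
      have h3 : RM A b (0, μ b, 0) = (0, (μ b).comp (lm (b : A)), 0) := by
        rw [RM_apply]; ext <;> simp
      have h4 : LM A b (0, μ b, 0) = 0 := by rw [LM_apply]; ext <;> simp
      simpa [h3, h4, DM_apply, Prod.norm_def] using h2
    have h5 : η (0, ∑ b : F, (μ b).comp (lm (b : A)), 0) =
        ∑ b : F, η (0, (μ b).comp (lm (b : A)), 0) := by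
      rw [← map_sum]
      congr 1
      ext <;> simp [Prod.fst_sum, Prod.snd_sum]
    have h6 := hη (∑ b : F, (μ b).comp (lm (b : A)))
    have h7 : ‖∑ b : F, η (0, (μ b).comp (lm (b : A)), 0) - ∑ b : F, μ b b‖ ≤ δ * ∑ b, ‖μ b‖ := by
      rw [← Finset.sum_sub_distrib, Finset.mul_sum]
      exact (norm_sum_le _ _).trans (Finset.sum_le_sum fun b _ => h1 b)
    rw [h5] at h6
    refine (Complex.re_le_norm _).trans ?_
    linarith [norm_le_norm_add_norm_sub (∑ b : F, η (0, (μ b).comp (lm (b : A)), 0))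
      (∑ b : F, μ b b)])
  exact ⟨e, he, fun a ha => by simpa using h' ⟨a, ha⟩⟩

theorem left_ai (η : XM A →L[ℂ] ℂ) (F : Finset A) {δ ε : ℝ} (hδ : 0 ≤ δ) (hε : 0 < ε)
    (h : ∀ a ∈ F, ‖η.comp (RM A a) - η.comp (LM A a) - DM A a‖ < δ) :
    ∃ e : A, ∀ a ∈ F, ‖e * a - a‖ < F.card * δ + ε := by
  obtain ⟨e, -, h'⟩ := hb (S := F) (fun b => rm (b : A)) (fun b => (b : A)) (norm_nonneg η) hδ hε
    (by
    intro μ
    have h1 : ∀ b : F, ‖η (0, 0, (μ b).comp (rm (b : A))) - μ b b‖ ≤ δ * ‖μ b‖ := by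
      intro b
      have h2 := (η.comp (RM A b) - η.comp (LM A b) - DM A b).le_of_opNorm_le (h b b.2).le
        (0, 0, μ b)
      have h3 : LM A b (0, 0, μ b) = (0, 0, (μ b).comp (rm (b : A))) := by
        rw [LM_apply]; ext <;> simp
      have h4 : RM A b (0, 0, μ b) = 0 := by rw [RM_apply]; ext <;> simp
      rw [norm_sub_rev]
      simpa [h3, h4, DM_apply, Prod.norm_def, neg_add_eq_sub] using h2
    have h5 : η (0, 0, ∑ b : F, (μ b).comp (rm (b : A))) =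
        ∑ b : F, η (0, 0, (μ b).comp (rm (b : A))) := by
      rw [← map_sum]
      congr 1
      ext <;> simp [Prod.fst_sum, Prod.snd_sum]
    have h6 : ‖η (0, 0, ∑ b : F, (μ b).comp (rm (b : A)))‖ ≤
        ‖η‖ * ‖∑ b : F, (μ b).comp (rm (b : A))‖ := by
      simpa [Prod.norm_def] using η.le_opNorm (0, 0, ∑ b : F, (μ b).comp (rm (b : A)))
    have h7 : ‖∑ b : F, η (0, 0, (μ b).comp (rm (b : A))) - ∑ b : F, μ b b‖ ≤ δ * ∑ b, ‖μ b‖ := by
      rw [← Finset.sum_sub_distrib, Finset.mul_sum]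
      exact (norm_sum_le _ _).trans (Finset.sum_le_sum fun b _ => h1 b)
    rw [h5] at h6
    refine (Complex.re_le_norm _).trans ?_
    linarith [norm_le_norm_add_norm_sub (∑ b : F, η (0, 0, (μ b).comp (rm (b : A))))
      (∑ b : F, μ b b)])
  exact ⟨e, fun a ha => by simpa using h' ⟨a, ha⟩⟩

/-- The bilinear form `φ ⊗ μ`. -/
noncomputable def tens (φ : A →L[ℂ] ℂ) : (A →L[ℂ] ℂ) →L[ℂ] XM A :=
  (ContinuousLinearMap.inl ℂ _ _).comp (ContinuousLinearMap.smulRightL ℂ A (A →L[ℂ] ℂ) φ)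

omit [IsScalarTower ℂ A A] [SMulCommClass ℂ A A] in
theorem tens_apply (φ μ : A →L[ℂ] ℂ) : tens φ μ = (φ.smulRight μ, 0) := rfl

theorem slice (η : XM A →L[ℂ] ℂ) {C : ℝ} (hC : 0 ≤ C)
    (hη : ∀ a : A, ‖η.comp (RM A a) - η.comp (LM A a)‖ ≤ C * ‖a‖) (φ : A →L[ℂ] ℂ)
    (hφ : C * ‖φ‖ < ‖η (0, φ, 0)‖)
    (hr : ∀ (z : A) (ε : ℝ), 0 < ε → ∃ f : A, ‖z * f - z‖ < ε)
    (hle : ∀ (F : Finset A) (ε : ℝ), 0 < ε → ∃ e : A, ∀ a ∈ F, ‖e * a - a‖ < ε) :
    ∃ K : ℝ, ∀ (F : Finset A) (ε : ℝ), 0 < ε → ∃ e : A, ‖e‖ ≤ K ∧ ∀ a ∈ F, ‖e * a - a‖ < ε := by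
  set s : ℂ := η (0, φ, 0) with hs
  have hs0 : 0 < ‖s‖ := lt_of_le_of_lt (by positivity) hφ
  have hs1 : s ≠ 0 := norm_pos_iff.1 hs0
  let Ψ : (A →L[ℂ] ℂ) →L[ℂ] ℂ := (-s⁻¹) • η.comp (tens φ)
  let T : (A →L[ℂ] ℂ) →L[ℂ] (A →L[ℂ] ℂ) :=
    ((ContinuousLinearMap.compL ℂ A (A →L[ℂ] ℂ) ℂ Ψ).comp
      ((ContinuousLinearMap.compL ℂ A A (A →L[ℂ] ℂ)).flip (ContinuousLinearMap.id ℂ A))).comp
      (((ContinuousLinearMap.compL ℂ A A ℂ).flip.comp (ContinuousLinearMap.mul ℂ A).flip).flip)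
  have hT : ∀ μ a, T μ a = Ψ (μ.comp (rm a)) := fun _ _ => rfl
  let I : (A →L[ℂ] ℂ) →L[ℂ] (A →L[ℂ] ℂ) :=
    s⁻¹ • ((ContinuousLinearMap.compL ℂ A (XM A) ℂ η).comp ((RM A).flip.comp (tens φ)))
  have hI : ∀ μ a, I μ a = s⁻¹ * η (RM A a (tens φ μ)) := fun _ _ => rfl
  obtain ⟨hfd, n, l, c₂, hl⟩ := fred T I (c := ‖s‖⁻¹ * ‖η‖ * ‖φ‖) (θ := C * ‖φ‖ / ‖s‖)
    (by positivity) (by positivity) ((div_lt_one hs0).2 hφ) (fun μ => by
      refine ContinuousLinearMap.opNorm_le_bound _ (by positivity) fun a => ?_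
      have h1 := (η.comp (RM A a) - η.comp (LM A a)).le_of_opNorm_le (hη a) (tens φ μ)
      have h2 : LM A a (tens φ μ) = tens φ (μ.comp (rm a)) + μ a • (0, φ, 0) := by
        rw [LM_apply, tens_apply, tens_apply]
        ext <;> simp [mul_comm]
      have h3 : ‖tens φ μ‖ = ‖φ‖ * ‖μ‖ := by simp [tens_apply, Prod.norm_def]; positivity
      have h4 : (μ - T μ - I μ) a =
          -s⁻¹ * (η.comp (RM A a) - η.comp (LM A a)) (tens φ μ) := by
        change μ a - T μ a - I μ a = -s⁻¹ * (η (RM A a (tens φ μ)) - η (LM A a (tens φ μ)))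
        rw [hT, hI, h2, map_add, map_smul, ← hs]
        change μ a - -s⁻¹ * η (tens φ (μ.comp (rm a))) - _ = _
        rw [smul_eq_mul]
        field_simp
        ring
      rw [h4, norm_mul, norm_neg, norm_inv]
      rw [h3] at h1
      calc ‖s‖⁻¹ * _ ≤ ‖s‖⁻¹ * (C * ‖a‖ * (‖φ‖ * ‖μ‖)) := by gcongr
        _ = _ := by field_simp)
    (fun ι _ a μ r hr => by
      have h1 : ∑ k, I (μ k) (a k) = s⁻¹ * η (∑ k, RM A (a k) (tens φ (μ k))) := by
        simp only [hI, map_sum, Finset.mul_sum]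
      have h0 : 0 ≤ r := by simpa using hr 0 (by simp)
      have h2 : ‖s‖⁻¹ * ‖η‖ * ‖∑ k, RM A (a k) (tens φ (μ k))‖ ≤ r := by
        have hv : ∀ v : A, ‖s‖⁻¹ * ‖η‖ * ‖φ‖ * ∑ k, ‖a k‖ * ‖μ k v‖ ≤ r * ‖v‖ := by
          intro v
          rcases eq_or_ne v 0 with rfl | hv
          · simp
          have hp : 0 < ‖v‖ := norm_pos_iff.2 hv
          have := hr (((‖v‖⁻¹ : ℝ) : ℂ) • v) (by
            rw [norm_smul, Complex.norm_real, norm_inv, norm_norm, inv_mul_cancel₀ hp.ne'])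
          simp only [map_smul, norm_smul, Complex.norm_real, norm_inv, norm_norm,
            mul_left_comm _ ‖v‖⁻¹, ← Finset.mul_sum] at this
          rwa [inv_mul_le_iff₀ hp, mul_comm ‖v‖] at this
        have h3 : ‖((‖s‖⁻¹ * ‖η‖ : ℝ) : ℂ) • ∑ k, RM A (a k) (tens φ (μ k))‖ ≤ r := by
          refine norm_prod_le_iff.2 ⟨?_, norm_prod_le_iff.2 ⟨?_, ?_⟩⟩
          · refine bil_le A _ h0 fun x v => ?_
            have : (((‖s‖⁻¹ * ‖η‖ : ℝ) : ℂ) • ∑ k, RM A (a k) (tens φ (μ k))).1 x v =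
                ((‖s‖⁻¹ * ‖η‖ : ℝ) : ℂ) * ∑ k, φ (a k * x) * μ k v := by
              simp [Prod.fst_sum, RM_apply, tens_apply]
            rw [this, norm_mul, Complex.norm_real, Real.norm_of_nonneg (by positivity)]
            have h4 : ‖∑ k, φ (a k * x) * μ k v‖ ≤ ‖x‖ * (‖φ‖ * ∑ k, ‖a k‖ * ‖μ k v‖) := by
              rw [Finset.mul_sum, Finset.mul_sum]
              refine (norm_sum_le _ _).trans (Finset.sum_le_sum fun k _ => ?_)
              rw [norm_mul]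
              calc ‖φ (a k * x)‖ * ‖μ k v‖ ≤ ‖φ‖ * (‖a k‖ * ‖x‖) * ‖μ k v‖ := by
                    gcongr
                    exact (φ.le_opNorm _).trans
                      (mul_le_mul_of_nonneg_left (norm_mul_le _ _) (norm_nonneg _))
                _ = _ := by ring
            calc _ ≤ ‖s‖⁻¹ * ‖η‖ * (‖x‖ * (‖φ‖ * ∑ k, ‖a k‖ * ‖μ k v‖)) := by gcongr
              _ = ‖x‖ * (‖s‖⁻¹ * ‖η‖ * ‖φ‖ * ∑ k, ‖a k‖ * ‖μ k v‖) := by ring
              _ ≤ ‖x‖ * (r * ‖v‖) := mul_le_mul_of_nonneg_left (hv v) (norm_nonneg _)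
              _ = _ := by ring
          · have : (((‖s‖⁻¹ * ‖η‖ : ℝ) : ℂ) • ∑ k, RM A (a k) (tens φ (μ k))).2.1 = 0 := by
              ext
              simp [Prod.fst_sum, Prod.snd_sum, RM_apply, tens_apply]
            rw [this, norm_zero]
            exact h0
          · refine ContinuousLinearMap.opNorm_le_bound _ h0 fun v => ?_
            have : (((‖s‖⁻¹ * ‖η‖ : ℝ) : ℂ) • ∑ k, RM A (a k) (tens φ (μ k))).2.2 v =
                ((‖s‖⁻¹ * ‖η‖ : ℝ) : ℂ) * ∑ k, φ (a k) * μ k v := by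
              simp [Prod.snd_sum, RM_apply, tens_apply]
            rw [this, norm_mul, Complex.norm_real, Real.norm_of_nonneg (by positivity)]
            have h4 : ‖∑ k, φ (a k) * μ k v‖ ≤ ‖φ‖ * ∑ k, ‖a k‖ * ‖μ k v‖ := by
              rw [Finset.mul_sum]
              refine (norm_sum_le _ _).trans (Finset.sum_le_sum fun k _ => ?_)
              rw [norm_mul, ← mul_assoc]
              gcongr
              exact φ.le_opNorm _
            calc _ ≤ ‖s‖⁻¹ * ‖η‖ * (‖φ‖ * ∑ k, ‖a k‖ * ‖μ k v‖) := by gcongr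
              _ = ‖s‖⁻¹ * ‖η‖ * ‖φ‖ * ∑ k, ‖a k‖ * ‖μ k v‖ := by ring
              _ ≤ _ := hv v
        rwa [norm_smul, Complex.norm_real, Real.norm_of_nonneg (by positivity)] at h3
      rw [h1, norm_mul, norm_inv]
      refine le_trans ?_ h2
      rw [mul_assoc]
      gcongr
      exact η.le_opNorm _)
  exact core Ψ T hT hfd l c₂ hl hr hle

theorem dichotomy {C : ℝ}
    (h : ∀ F : Finset A, ∀ ε : ℝ, 0 < ε → ∃ η : XM A →L[ℂ] ℂ,
      (∀ a : A, ‖η.comp (RM A a) - η.comp (LM A a)‖ ≤ C * ‖a‖) ∧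
      ∀ a ∈ F, ‖η.comp (RM A a) - η.comp (LM A a) - DM A a‖ < ε) :
    ((∀ (F : Finset A) (ε : ℝ), 0 < ε → ∃ e : A, ∀ a ∈ F, ‖e * a - a‖ < ε) ∧
      ∀ (F : Finset A) (ε : ℝ), 0 < ε → ∃ e : A, ∀ a ∈ F, ‖a * e - a‖ < ε) ∧
    ((∃ K : ℝ, ∀ (F : Finset A) (ε : ℝ), 0 < ε → ∃ e : A, ‖e‖ ≤ K ∧ ∀ a ∈ F, ‖e * a - a‖ < ε) ∨
      ∃ K : ℝ, ∀ (F : Finset A) (ε : ℝ), 0 < ε →
        ∃ e : A, ‖e‖ ≤ K ∧ ∀ a ∈ F, ‖a * e - a‖ < ε) := by
  have hnum : ∀ (F : Finset A) (ε : ℝ), 0 < ε →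
      (F.card : ℝ) * (ε / (F.card + 1)) + ε / (F.card + 1) = ε := fun F ε _ => by field_simp
  have hle : ∀ (F : Finset A) (ε : ℝ), 0 < ε → ∃ e : A, ∀ a ∈ F, ‖e * a - a‖ < ε := by
    intro F ε hε
    have hδ : 0 < ε / (F.card + 1) := by positivity
    obtain ⟨η, -, hη⟩ := h F _ hδ
    obtain ⟨e, he⟩ := left_ai η F hδ.le hδ hη
    exact ⟨e, by rwa [hnum F ε hε] at he⟩
  have hri : ∀ (F : Finset A) (ε : ℝ), 0 < ε → ∃ e : A, ∀ a ∈ F, ‖a * e - a‖ < ε := by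
    intro F ε hε
    have hδ : 0 < ε / (F.card + 1) := by positivity
    obtain ⟨η, -, hη⟩ := h F _ hδ
    obtain ⟨e, -, he⟩ := right_ai η F hδ.le hδ (norm_nonneg η) hη fun φ => by
      simpa [Prod.norm_def] using η.le_opNorm (0, φ, 0)
    exact ⟨e, by rwa [hnum F ε hε] at he⟩
  refine ⟨⟨hle, hri⟩, ?_⟩
  by_cases hc : ∀ η : XM A →L[ℂ] ℂ, (∀ a : A, ‖η.comp (RM A a) - η.comp (LM A a)‖ ≤ |C| * ‖a‖) →
      ∀ φ : A →L[ℂ] ℂ, ‖η (0, φ, 0)‖ ≤ |C| * ‖φ‖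
  · refine Or.inr ⟨|C|, fun F ε hε => ?_⟩
    have hδ : 0 < ε / (F.card + 1) := by positivity
    obtain ⟨η, hb, hη⟩ := h F _ hδ
    obtain ⟨e, hK, he⟩ := right_ai η F hδ.le hδ (abs_nonneg C) hη (hc η fun a =>
      (hb a).trans (mul_le_mul_of_nonneg_right (le_abs_self C) (norm_nonneg a)))
    exact ⟨e, hK, by rwa [hnum F ε hε] at he⟩
  · push Not at hc
    obtain ⟨η, hη, φ, hφ⟩ := hc
    refine Or.inl (slice η (abs_nonneg C) hη φ hφ (fun z ε hε => ?_) hle)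
    obtain ⟨e, he⟩ := hri {z} ε hε
    exact ⟨e, he z (Finset.mem_singleton_self z)⟩

theorem LM_mul (a b : A) (x : XM A) : LM A (a * b) x = LM A a (LM A b x) := by
  simp only [LM_apply]
  ext <;> simp [mul_assoc]

theorem RM_mul (a b : A) (x : XM A) : RM A (a * b) x = RM A b (RM A a x) := by
  simp only [RM_apply]
  ext <;> simp [mul_assoc]

theorem LM_RM (a b : A) (x : XM A) : LM A a (RM A b x) = RM A b (LM A a x) := by
  simp only [LM_apply, RM_apply]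
  ext <;> simp

theorem DM_mul (a b : A) (x : XM A) :
    DM A (a * b) x = DM A b (RM A a x) + DM A a (LM A b x) := by
  simp [DM_apply, LM_apply, RM_apply]

end Pool.Agent.Lib.MP_bcc96c_an
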