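import Mathlib

/-! One side of the construction: a sum of rough elements, its correction term and the
functionals, for an associative bounded bilinear product `m`. -/

namespace Pool.Agent.Lib.MP_bcc96c_an

open Finset Filter Topology

variable {B : Type*} [NormedAddCommGroup B] [NormedSpace ℂ B] [CompleteSpace B]

theorem decay {η : ℕ → ℝ} (hη : ∀ n, η (n + 1) ≤ η n / 2) (n j : ℕ) :
    η (j + n) ≤ η n * (1 / 2) ^ j := by
  induction j with
  | zero => simp
  | succ j ih =>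
    have := hη (j + n)
    rw [show j + 1 + n = j + n + 1 by ring, pow_succ]
    linarith

omit [CompleteSpace B] in
theorem tail_map (z : ℕ → B) (hz : Summable z) (φ : B →L[ℂ] B) (n : ℕ) {c : ℝ}
    (h : ∀ j, ‖φ (z (j + n))‖ ≤ c * (1 / 2) ^ j) :
    ‖φ (∑' j, z j - ∑ j ∈ range n, z j)‖ ≤ c * 2 := by
  have h1 : ∑' j, z j - ∑ j ∈ range n, z j = ∑' j, z (j + n) := by
    rw [← hz.sum_add_tsum_nat_add n]; abel
  rw [h1, φ.map_tsum ((summable_nat_add_iff n).2 hz)]
  exact tsum_of_norm_bounded (hasSum_geometric_two.mul_left c) h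

theorem side (m : B →L[ℂ] B →L[ℂ] B) (hm : ∀ x y z, m (m x y) z = m x (m y z))
    (hn : ∀ x y, ‖m x y‖ ≤ ‖x‖ * ‖y‖) (E : ℕ → Prop) [DecidablePred E] (y g : ℕ → B)
    (η : ℕ → ℝ) {K q : ℝ} (hK : 0 ≤ K) (hq0 : 0 < q) (hq : 8 * (1 + K) * q ≤ 1)
    (hη : ∀ n, η (n + 1) ≤ η n / 2) (hτ : ∀ n : ℕ, 56 * (1 + K) * ((n + 1) * η n) ≤ q ^ n)
    (hgl : ∀ n x, ‖m (g n) x‖ ≤ K * ‖x‖) (hgr : ∀ n x, ‖m x (g n)‖ ≤ K * ‖x‖)
    (z A : ℕ → B) (hz : ∀ n, z n = if E n then y n else 0) (hA : ∀ n, A n = ∑ j ∈ range n, z j)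
    (hU1 : ∀ n, ‖A n - m (g n) (A n)‖ ≤ η n) (hU2 : ∀ n, ‖A n - m (A n) (g n)‖ ≤ η n)
    (hy : ∀ n, ‖y n‖ = q ^ n) (hyx : ∀ n x, ‖m (y n) x‖ ≤ η n * ‖x‖)
    (hyg : ∀ n k, k ≤ n → ‖m (y n) (g k)‖ ≤ η n) (hgy : ∀ n, ‖m (g n) (y n)‖ ≤ η n)
    (a : B) (ha : a = ∑' j, z j) (w : ℕ → B)
    (hw : ∀ k, w k = if E k then 0 else m a (g (k + 1) - g k)) :
    Summable w ∧ Tendsto (fun n => m a (g n)) atTop (𝓝 a) ∧ ∀ n, E n → ∃ l : B →L[ℂ] ℂ,
      l (a - ∑' k, w k) = 1 ∧ ‖l‖ ≤ 2 * (1 + K) / q ^ n ∧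
      ‖l (∑' k, w k)‖ + ‖l.comp (m (a - ∑' k, w k))‖ + ‖l.comp (m (∑' k, w k))‖ ≤
        80 * (1 + K) * ((n + 1) * η n) / q ^ n := by
  have hη0 : ∀ n, 0 ≤ η n := fun n => (norm_nonneg _).trans (hgy n)
  have hq2 : q ≤ 1 / 2 := by nlinarith
  have hzn : ∀ n j, ‖z (j + n)‖ ≤ q ^ n * (1 / 2) ^ j := by
    intro n j
    have h1 : q ^ (j + n) ≤ q ^ n * (1 / 2) ^ j := by
      rw [pow_add, mul_comm]
      gcongr
    rw [hz]
    split_ifs
    · rw [hy]; exact h1
    · rw [norm_zero]; positivity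
  have hzs : Summable z := Summable.of_norm_bounded summable_geometric_two
    (fun j => by simpa using hzn 0 j)
  have T1 : ∀ n, ‖a - A n‖ ≤ q ^ n * 2 := fun n => by
    rw [ha, hA]
    exact tail_map z hzs (ContinuousLinearMap.id ℂ B) n (hzn n)
  have T2 : ∀ n x, ‖m (a - A n) x‖ ≤ η n * ‖x‖ * 2 := fun n x => by
    rw [ha, hA]
    refine tail_map z hzs (m.flip x) n fun j => ?_
    have h1 := decay hη n j
    change ‖m (z (j + n)) x‖ ≤ _
    rw [hz]
    split_ifs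
    · refine (hyx _ _).trans ?_
      rw [mul_right_comm]
      gcongr
    · have := hη0 n
      simp only [map_zero, _root_.zero_apply, norm_zero]
      positivity
  have T3 : ∀ n k, k ≤ n → ‖m (a - A n) (g k)‖ ≤ η n * 2 := fun n k hk => by
    rw [ha, hA]
    refine tail_map z hzs (m.flip (g k)) n fun j => ?_
    have h1 := decay hη n j
    change ‖m (z (j + n)) (g k)‖ ≤ _
    rw [hz]
    split_ifs
    · exact (hyg _ _ (by omega)).trans h1
    · have := hη0 n
      simp only [map_zero, _root_.zero_apply, norm_zero]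
      positivity
  have hAs : ∀ n, A (n + 1) = A n + z n := fun n => by rw [hA, hA, sum_range_succ]
  have hw1 : ∀ k, ‖w k‖ ≤ 6 * η k := by
    intro k
    have h0 := hη0 k
    rw [hw]
    split_ifs with hk
    · rw [norm_zero]; positivity
    · have h1 : A (k + 1) = A k := by rw [hAs, hz, if_neg hk, add_zero]
      have h2 : m a (g (k + 1) - g k) = (m (a - A (k + 1)) (g (k + 1)) - m (a - A (k + 1)) (g k)) +
          ((A k - m (A k) (g k)) - (A (k + 1) - m (A (k + 1)) (g (k + 1)))) := by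
        rw [h1]
        simp only [map_sub, _root_.sub_apply]
        abel
      rw [h2]
      refine (norm_add_le _ _).trans ((add_le_add (norm_sub_le _ _) (norm_sub_le _ _)).trans ?_)
      linarith [T3 (k + 1) (k + 1) le_rfl, T3 (k + 1) k (by omega), hU2 k, hU2 (k + 1), hη k]
  have hws : Summable w := Summable.of_norm_bounded (summable_geometric_two.mul_left (6 * η 0))
    (fun k => (hw1 k).trans (by have := decay hη 0 k; rw [add_zero] at this; linarith))
  refine ⟨hws, ?_, fun n hE => ?_⟩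
  · rw [tendsto_iff_norm_sub_tendsto_zero]
    have h1 : Tendsto (fun n : ℕ => (2 * (1 + K) + η 0) * (1 / 2 : ℝ) ^ n) atTop (𝓝 0) := by
      simpa using (tendsto_pow_atTop_nhds_zero_of_lt_one (r := (1 / 2 : ℝ)) (by norm_num)
        (by norm_num)).const_mul (2 * (1 + K) + η 0)
    refine squeeze_zero (fun _ => norm_nonneg _) (fun n => ?_) h1
    have h2 : m a (g n) - a = (m (a - A n) (g n) - (a - A n)) - (A n - m (A n) (g n)) := by
      simp only [map_sub, _root_.sub_apply]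
      abel
    have h3 := decay hη 0 n
    rw [add_zero] at h3
    have h4 : ‖a - A n‖ ≤ (1 / 2) ^ n * 2 := (T1 n).trans (by gcongr)
    have h5 : K * ‖a - A n‖ ≤ K * ((1 / 2) ^ n * 2) := by gcongr
    rw [h2]
    refine (norm_sub_le _ _).trans ((add_le_add (norm_sub_le _ _) le_rfl).trans ?_)
    linarith [hgr n (a - A n), hU2 n]
  set a₂ := ∑' k, w k with ha₂
  have h0 := hη0 n
  let P : B →L[ℂ] B := ContinuousLinearMap.id ℂ B - m (g n)
  have hP : ∀ x, P x = x - m (g n) x := fun _ => rfl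
  have hPm : ∀ x u, P (m x u) = m (P x) u := fun x u => by
    rw [hP, hP, map_sub, _root_.sub_apply, hm]
  have hPn : ∀ x, ‖P x‖ ≤ (1 + K) * ‖x‖ := fun x => by
    rw [hP]
    linarith [norm_sub_le x (m (g n) x), hgl n x]
  have hPA : ‖P (A n)‖ ≤ η n := hU1 n
  have hKA : K * ‖P (A n)‖ ≤ K * η n := by gcongr
  have hP1 : ∀ k ∈ range n, ‖P (w k)‖ ≤ 6 * (1 + K) * η n := by
    intro k hk
    rw [mem_range] at hk
    rw [hw]
    split_ifs
    · rw [map_zero, norm_zero]; positivity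
    · have h1 : P (m a (g (k + 1) - g k)) = (m (P (A n)) (g (k + 1)) - m (P (A n)) (g k)) +
          P (m (a - A n) (g (k + 1)) - m (a - A n) (g k)) := by
        rw [← hPm, ← hPm, ← map_sub, ← map_add]
        congr 1
        simp only [map_sub, _root_.sub_apply]
        abel
      have h2 : ‖m (a - A n) (g (k + 1)) - m (a - A n) (g k)‖ ≤ 4 * η n := by
        linarith [norm_sub_le (m (a - A n) (g (k + 1))) (m (a - A n) (g k)),
          T3 n (k + 1) (by omega), T3 n k (by omega)]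
      have h3 := (hPn _).trans (mul_le_mul_of_nonneg_left h2 (by positivity))
      rw [h1]
      refine (norm_add_le _ _).trans ((add_le_add (norm_sub_le _ _) h3).trans ?_)
      linarith [hgr (k + 1) (P (A n)), hgr k (P (A n))]
  have hP2 : ‖P (a₂ - ∑ k ∈ range n, w k)‖ ≤ 6 * (1 + K) * η n * 2 := by
    refine tail_map w hws P n fun j => (hPn _).trans ?_
    have h1 := (hw1 (j + n)).trans (mul_le_mul_of_nonneg_left (decay hη n j) (by norm_num))
    calc (1 + K) * ‖w (j + n)‖ ≤ (1 + K) * (6 * (η n * (1 / 2) ^ j)) := by gcongr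
      _ = _ := by ring
  set τ : ℝ := (1 + K) * ((n + 1) * η n) with hτ'
  have hτ1 : (1 + K) * η n ≤ τ := by
    rw [hτ']
    gcongr
    nlinarith [Nat.cast_nonneg (α := ℝ) n]
  have hτ2 : η n ≤ τ := by nlinarith
  have hP3 : ‖P a₂‖ ≤ 12 * τ := by
    have h1 : P a₂ = ∑ k ∈ range n, P (w k) + P (a₂ - ∑ k ∈ range n, w k) := by
      rw [← map_sum, ← map_add]; congr 1; abel
    have h2 : ‖∑ k ∈ range n, P (w k)‖ ≤ n * (6 * (1 + K) * η n) := by
      simpa using (norm_sum_le _ _).trans (sum_le_sum hP1)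
    have h3 : (0 : ℝ) ≤ n * ((1 + K) * η n) := by positivity
    rw [h1]
    refine (norm_add_le _ _).trans ?_
    rw [hτ']
    linarith
  have hP4 : ∀ x, ‖P (m a₂ x)‖ ≤ 12 * τ * ‖x‖ := fun x => by
    rw [hPm]
    exact (hn _ _).trans (by gcongr)
  have hP5 : ∀ x, ‖P (m (a - a₂) x)‖ ≤ 15 * τ * ‖x‖ := fun x => by
    have h1 : P (m (a - a₂) x) = (m (P (A n)) x + P (m (a - A n) x)) - P (m a₂ x) := by
      rw [← hPm, ← map_add, ← map_sub]
      congr 1
      simp only [map_sub, _root_.sub_apply]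
      abel
    have h2 : ‖m (P (A n)) x‖ ≤ τ * ‖x‖ := (hn _ _).trans (by gcongr; exact hPA.trans hτ2)
    have h3 : ‖P (m (a - A n) x)‖ ≤ 2 * (τ * ‖x‖) :=
      calc _ ≤ (1 + K) * (η n * ‖x‖ * 2) :=
            (hPn _).trans (mul_le_mul_of_nonneg_left (T2 n x) (by positivity))
        _ = 2 * ((1 + K) * η n * ‖x‖) := by ring
        _ ≤ _ := by gcongr
    rw [h1]
    refine (norm_sub_le _ _).trans ((add_le_add (norm_add_le _ _) (hP4 x)).trans ?_)
    linarith
  have hqn : 0 < q ^ n := by positivity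
  obtain ⟨ν, hν1, hν2⟩ := exists_dual_vector ℂ (y n) (by rw [hy]; exact hqn.ne')
  have hν : ∀ x, ‖ν x‖ ≤ ‖x‖ := fun x => by simpa [hν1] using ν.le_opNorm x
  set α : ℂ := ν (P (a - a₂)) with hα
  have hα1 : q ^ n / 2 ≤ ‖α‖ := by
    have h1 : y n = P (a - a₂) + ((m (g n) (y n) - P (A n)) + (P a₂ - P (a - A (n + 1)))) := by
      have : a - a₂ = A n + y n + (a - A (n + 1)) - a₂ := by
        rw [hAs, hz, if_pos hE]; abel
      rw [this, map_sub P, map_add P, map_add P, hP (y n)]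
      abel
    have h2 : ‖ν (y n)‖ = q ^ n := by
      rw [hν2, hy]
      simp [abs_of_pos hq0]
    have h3 : ‖P (a - A (n + 1))‖ ≤ q ^ n / 4 :=
      calc _ ≤ (1 + K) * (q ^ (n + 1) * 2) :=
            (hPn _).trans (mul_le_mul_of_nonneg_left (T1 _) (by positivity))
        _ = 8 * (1 + K) * q * (q ^ n / 4) := by ring
        _ ≤ 1 * (q ^ n / 4) := by gcongr
        _ = _ := one_mul _
    have h4 : ‖(m (g n) (y n) - P (A n)) + (P a₂ - P (a - A (n + 1)))‖ ≤ 14 * τ + q ^ n / 4 := by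
      refine (norm_add_le _ _).trans ((add_le_add (norm_sub_le _ _) (norm_sub_le _ _)).trans ?_)
      linarith [hgy n]
    have h5 : ‖ν (y n)‖ ≤ ‖α‖ + (14 * τ + q ^ n / 4) := by
      rw [h1, map_add]
      exact (norm_add_le _ _).trans (add_le_add le_rfl ((hν _).trans h4))
    have h6 := hτ n
    rw [mul_assoc, ← hτ'] at h6
    linarith
  have hα0 : 0 < ‖α‖ := lt_of_lt_of_le (by positivity) hα1
  have hτ0 : 0 ≤ τ := h0.trans hτ2
  let l : B →L[ℂ] ℂ := α⁻¹ • ν.comp P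
  have hl : ∀ x {c : ℝ}, ‖P x‖ ≤ c → ‖l x‖ ≤ 2 * c / q ^ n := by
    intro x c hc
    change ‖α⁻¹ • ν (P x)‖ ≤ _
    rw [norm_smul, norm_inv, inv_mul_eq_div, div_le_div_iff₀ hα0 hqn]
    have h1 := (hν _).trans hc
    have h2 := (norm_nonneg _).trans h1
    nlinarith [norm_nonneg (ν (P x))]
  refine ⟨l, ?_, ?_, ?_⟩
  · change α⁻¹ • ν (P (a - a₂)) = 1
    rw [← hα, smul_eq_mul, inv_mul_cancel₀ (norm_pos_iff.1 hα0)]
  · refine ContinuousLinearMap.opNorm_le_bound _ (by positivity) fun x =>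
      (hl x (hPn x)).trans (le_of_eq ?_)
    ring
  · have h1 := hl _ hP3
    have h2 : ‖l.comp (m (a - a₂))‖ ≤ 30 * τ / q ^ n :=
      ContinuousLinearMap.opNorm_le_bound _ (by positivity) fun x =>
        (hl _ (hP5 x)).trans (le_of_eq (by ring))
    have h3 : ‖l.comp (m a₂)‖ ≤ 24 * τ / q ^ n :=
      ContinuousLinearMap.opNorm_le_bound _ (by positivity) fun x =>
        (hl _ (hP4 x)).trans (le_of_eq (by ring))
    have h4 : 0 ≤ τ / q ^ n := by positivity
    have h5 : 80 * (1 + K) * ((n + 1) * η n) / q ^ n = 80 * (τ / q ^ n) := by rw [hτ']; ring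
    rw [h5]
    rw [mul_div_assoc] at h2 h3
    rw [← mul_assoc, mul_div_assoc] at h1
    linarith

end Pool.Agent.Lib.MP_bcc96c_an
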