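import Pool.Agent.Lib.MP_bcc96c_an.MbLink
import Pool.Agent.Lib.MP_bcc96c_an.MbSide

/-! Approximate amenability together with a multiplier-bounded approximate identity gives a
bounded approximate identity. -/

set_option maxSynthPendingDepth 3

namespace Pool.Agent.Lib.MP_bcc96c_an

open Finset Filter Topology

universe u

variable {A : Type u} [NonUnitalNormedRing A] [NormedSpace ℂ A] [IsScalarTower ℂ A A]
  [SMulCommClass ℂ A A]

theorem rough {K : ℝ} (hK : 0 ≤ K)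
    (hbig : ∀ R : ℝ, ∃ e : A, R < ‖e‖ ∧ ∀ a : A, ‖e * a‖ ≤ K * ‖a‖ ∧ ‖a * e‖ ≤ K * ‖a‖)
    {r d : ℝ} (hr : 0 < r) (hd : 0 < d) :
    ∃ y : A, ‖y‖ = r ∧ ∀ x : A, ‖y * x‖ ≤ d * ‖x‖ ∧ ‖x * y‖ ≤ d * ‖x‖ := by
  obtain ⟨e, he, h⟩ := hbig (r * K / d)
  have h0 : 0 < ‖e‖ := lt_of_le_of_lt (by positivity) he
  have h1 : ‖((r / ‖e‖ : ℝ) : ℂ)‖ = r / ‖e‖ := by
    rw [Complex.norm_real, Real.norm_eq_abs, abs_of_pos (by positivity)]
  have h2 : r / ‖e‖ * K ≤ d := by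
    rw [div_lt_iff₀ hd] at he
    rw [div_mul_eq_mul_div, div_le_iff₀ h0]
    linarith
  have h3 : ∀ x u : A, ‖u‖ ≤ K * ‖x‖ → ‖((r / ‖e‖ : ℝ) : ℂ) • u‖ ≤ d * ‖x‖ := by
    intro x u hu
    rw [norm_smul, h1]
    calc r / ‖e‖ * ‖u‖ ≤ r / ‖e‖ * (K * ‖x‖) := by gcongr
      _ = r / ‖e‖ * K * ‖x‖ := by ring
      _ ≤ _ := by gcongr
  refine ⟨((r / ‖e‖ : ℝ) : ℂ) • e, ?_, fun x => ⟨?_, ?_⟩⟩
  · rw [norm_smul, h1, div_mul_cancel₀ _ h0.ne']
  · rw [smul_mul_assoc]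
    exact h3 x _ (h x).1
  · rw [mul_smul_comm]
    exact h3 x _ (h x).2

theorem construct {K : ℝ} (hK : 0 ≤ K)
    (hai : ∀ F : Finset A, ∀ ε : ℝ, 0 < ε → ∃ e : A,
      (∀ a : A, ‖e * a‖ ≤ K * ‖a‖ ∧ ‖a * e‖ ≤ K * ‖a‖) ∧
        ∀ a ∈ F, ‖e * a - a‖ < ε ∧ ‖a * e - a‖ < ε)
    (hbig : ∀ R : ℝ, ∃ e : A, R < ‖e‖ ∧ ∀ a : A, ‖e * a‖ ≤ K * ‖a‖ ∧ ‖a * e‖ ≤ K * ‖a‖)
    (r η : ℕ → ℝ) (hr : ∀ n, 0 < r n) (hη : ∀ n, 0 < η n) :
    ∃ y g : ℕ → A, g 0 = 0 ∧ (∀ n x, ‖g n * x‖ ≤ K * ‖x‖ ∧ ‖x * g n‖ ≤ K * ‖x‖) ∧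
      (∀ n, ∀ s ∈ ({∑ j ∈ range n, if j % 2 = 0 then y j else 0,
        ∑ j ∈ range n, if ¬ j % 2 = 0 then y j else 0} : Set A),
          ‖s - g n * s‖ ≤ η n ∧ ‖s - s * g n‖ ≤ η n) ∧ (∀ n, ‖y n‖ = r n) ∧
      (∀ n x, ‖y n * x‖ ≤ η n * ‖x‖ ∧ ‖x * y n‖ ≤ η n * ‖x‖) ∧
      ∀ n k, k ≤ n → ‖y n * g k‖ ≤ η n ∧ ‖g k * y n‖ ≤ η n := by
  classical
  choose Y hY1 hY2 using fun (n : ℕ) (N : ℝ) =>
    rough hK hbig (hr n) (d := η n / (|N| + 1)) (by have := hη n; positivity)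
  choose G hG1 hG2 using fun (n : ℕ) (a b : A) => hai {a, b} (η n) (hη n)
  let f : ℕ → A × A × A × ℝ → A × A × A × ℝ := fun n s =>
    (G (n + 1) (s.2.1 + if n % 2 = 0 then Y n s.2.2.2 else 0)
        (s.2.2.1 + if ¬ n % 2 = 0 then Y n s.2.2.2 else 0),
      s.2.1 + (if n % 2 = 0 then Y n s.2.2.2 else 0),
      s.2.2.1 + (if ¬ n % 2 = 0 then Y n s.2.2.2 else 0),
      s.2.2.2 + ‖G (n + 1) (s.2.1 + if n % 2 = 0 then Y n s.2.2.2 else 0)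
        (s.2.2.1 + if ¬ n % 2 = 0 then Y n s.2.2.2 else 0)‖)
  let s : ℕ → A × A × A × ℝ := fun n => Nat.rec (0, 0, 0, 0) f n
  let y : ℕ → A := fun n => Y n (s n).2.2.2
  have h1 : ∀ n, (s n).2.1 = ∑ j ∈ range n, if j % 2 = 0 then y j else 0 := by
    intro n
    induction n with
    | zero => rfl
    | succ n ih => rw [sum_range_succ, ← ih]
  have h2 : ∀ n, (s n).2.2.1 = ∑ j ∈ range n, if ¬ j % 2 = 0 then y j else 0 := by
    intro n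
    induction n with
    | zero => rfl
    | succ n ih => rw [sum_range_succ, ← ih]
  have h3 : ∀ n, (s (n + 1)).1 = G (n + 1) (s (n + 1)).2.1 (s (n + 1)).2.2.1 := fun _ => rfl
  have h4 : ∀ n, (s (n + 1)).2.2.2 = (s n).2.2.2 + ‖(s (n + 1)).1‖ := fun _ => rfl
  have h5 : ∀ n k, k ≤ n → ‖(s k).1‖ ≤ (s n).2.2.2 := by
    intro n
    induction n with
    | zero =>
      intro k hk
      rw [Nat.le_zero.1 hk]
      exact norm_zero.le
    | succ n ih =>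
      intro k hk
      rw [h4]
      rcases Nat.of_le_succ hk with hk | rfl
      · linarith [ih k hk, norm_nonneg (s (n + 1)).1]
      · linarith [ih 0 (Nat.zero_le _), norm_nonneg (s 0).1]
  have h6 : ∀ n (x : A) (c : ℝ), ‖x‖ ≤ (|(s n).2.2.2| + 1) * c →
      ‖y n * x‖ ≤ η n * c ∧ ‖x * y n‖ ≤ η n * c := by
    intro n x c hx
    have k0 := hη n
    have k1 : η n / (|(s n).2.2.2| + 1) * ‖x‖ ≤ η n * c :=
      calc _ ≤ η n / (|(s n).2.2.2| + 1) * ((|(s n).2.2.2| + 1) * c) := by gcongr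
        _ = _ := by field_simp
    exact ⟨(hY2 n _ x).1.trans k1, (hY2 n _ x).2.trans k1⟩
  refine ⟨y, fun n => (s n).1, rfl, fun n x => ?_, fun n u hu => ?_, fun n => hY1 n _,
    fun n x => h6 n x _ ?_, fun n k hk => ?_⟩
  · cases n with
    | zero =>
      change ‖0 * x‖ ≤ _ ∧ ‖x * 0‖ ≤ _
      rw [zero_mul, mul_zero, norm_zero, and_self]
      positivity
    | succ n => exact hG1 _ _ _ x
  · rw [← h1, ← h2] at hu
    cases n with
    | zero =>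
      have : u = 0 := by rcases hu with rfl | rfl <;> rfl
      simp [this, (hη 0).le]
    | succ n =>
      have := hG2 (n + 1) (s (n + 1)).2.1 (s (n + 1)).2.2.1 u (by simpa using hu)
      rw [← h3] at this
      exact ⟨(norm_sub_rev _ _).le.trans this.1.le, (norm_sub_rev _ _).le.trans this.2.le⟩
  · nlinarith [abs_nonneg (s n).2.2.2, norm_nonneg x]
  · simpa using h6 n (s k).1 1 (by linarith [h5 n k hk, le_abs_self (s n).2.2.2])

theorem bai_of_mb [CompleteSpace A] {K : ℝ}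
    (hai : ∀ F : Finset A, ∀ ε : ℝ, 0 < ε → ∃ e : A,
      (∀ a : A, ‖e * a‖ ≤ K * ‖a‖ ∧ ‖a * e‖ ≤ K * ‖a‖) ∧
        ∀ a ∈ F, ‖e * a - a‖ < ε ∧ ‖a * e - a‖ < ε)
    (h : ∀ F : Finset A, ∀ ε : ℝ, 0 < ε → ∃ η : XM A →L[ℂ] ℂ,
      ∀ a ∈ F, ‖η.comp (RM A a) - η.comp (LM A a) - DM A a‖ < ε) :
    ∃ K : ℝ, ∀ F : Finset A, ∀ ε : ℝ, 0 < ε →
      ∃ e : A, ‖e‖ ≤ K ∧ ∀ a ∈ F, ‖e * a - a‖ < ε ∧ ‖a * e - a‖ < ε := by
  wlog hK : 0 ≤ K generalizing K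
  · refine this (K := 0) (fun F ε hε => ?_) le_rfl
    obtain ⟨e, he, he'⟩ := hai F ε hε
    have k : ∀ a : A, K * ‖a‖ ≤ 0 * ‖a‖ := fun a =>
      mul_le_mul_of_nonneg_right (not_le.1 hK).le (norm_nonneg _)
    exact ⟨e, fun a => ⟨(he a).1.trans (k a), (he a).2.trans (k a)⟩, he'⟩
  by_contra hno
  push Not at hno
  have hbig : ∀ R : ℝ, ∃ e : A, R < ‖e‖ ∧ ∀ a : A, ‖e * a‖ ≤ K * ‖a‖ ∧ ‖a * e‖ ≤ K * ‖a‖ := by
    intro R
    obtain ⟨F, ε, hε, hF⟩ := hno R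
    obtain ⟨e, he, he'⟩ := hai F ε hε
    refine ⟨e, not_le.1 fun hR => ?_, he⟩
    obtain ⟨a, ha, k⟩ := hF e hR
    exact absurd (k (he' a ha).1) (not_le.2 (he' a ha).2)
  set q : ℝ := 1 / (8 * (1 + K)) with hq
  have hq0 : 0 < q := by positivity
  have hq1 : 8 * (1 + K) * q = 1 := by rw [hq]; field_simp
  have hq2 : q ≤ 1 / 8 := by nlinarith
  let η : ℕ → ℝ := fun n => (q ^ 2 / 2) ^ (n + 1) / (n + 1)
  have hη0 : ∀ n, 0 < η n := fun n => by positivity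
  have hη1 : ∀ n : ℕ, (n + 1) * η n = q ^ n * (q ^ n * q ^ 2 * (1 / 2) ^ n / 2) := fun n => by
    change (n + 1) * ((q ^ 2 / 2) ^ (n + 1) / (n + 1)) = _
    rw [mul_div_cancel₀ _ (by positivity)]
    ring
  have hη2 : ∀ n, η (n + 1) ≤ η n / 2 := fun n => by
    change (q ^ 2 / 2) ^ (n + 1 + 1) / ((n + 1 : ℕ) + 1) ≤ (q ^ 2 / 2) ^ (n + 1) / (n + 1) / 2
    rw [pow_succ _ (n + 1), div_right_comm, ← mul_one_div ((q ^ 2 / 2) ^ (n + 1)) (2 : ℝ)]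
    push_cast
    gcongr
    · nlinarith
    · linarith
  have hqn : ∀ n, q ^ n ≤ 1 := fun n => pow_le_one₀ hq0.le (by linarith)
  have hτ : ∀ n : ℕ, 56 * (1 + K) * ((n + 1) * η n) ≤ q ^ n := fun n => by
    have k1 : (1 / 2 : ℝ) ^ n ≤ 1 := pow_le_one₀ (by norm_num) (by norm_num)
    have k2 := hqn n
    rw [hη1]
    calc _ ≤ 56 * (1 + K) * (q ^ n * (1 * q ^ 2 * 1 / 2)) := by gcongr
      _ = 8 * (1 + K) * q * (7 / 2 * q) * q ^ n := by ring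
      _ ≤ 1 * 1 * q ^ n := by
        rw [hq1]
        gcongr
        linarith
      _ = _ := by ring
  obtain ⟨y, g, g0, hg, hU, hy, hyx, hyg⟩ :=
    construct hK hai hbig (fun n => q ^ n) η (fun n => by positivity) hη0
  obtain ⟨sa, ta, la⟩ := side (ContinuousLinearMap.mul ℂ A) mul_assoc norm_mul_le
    (fun n => n % 2 = 0) y g η hK hq0 hq1.le hη2 hτ (fun n x => (hg n x).1)
    (fun n x => (hg n x).2) _ _ (fun _ => rfl) (fun _ => rfl)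
    (fun n => (hU n _ (Or.inl rfl)).1) (fun n => (hU n _ (Or.inl rfl)).2) hy
    (fun n x => (hyx n x).1) (fun n k hk => (hyg n k hk).1) (fun n => (hyg n n le_rfl).2)
    _ rfl _ (fun _ => rfl)
  obtain ⟨sb, -, lb⟩ := side (ContinuousLinearMap.mul ℂ A).flip
    (fun x y z => (mul_assoc z y x).symm) (fun x y => (norm_mul_le y x).trans_eq (mul_comm _ _))
    (fun n => ¬ n % 2 = 0) y g η hK hq0 hq1.le hη2 hτ (fun n x => (hg n x).2)
    (fun n x => (hg n x).1) _ _ (fun _ => rfl) (fun _ => rfl)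
    (fun n => (hU n _ (Or.inr rfl)).2) (fun n => (hU n _ (Or.inr rfl)).1) hy
    (fun n x => (hyx n x).2) (fun n k hk => (hyg n k hk).2) (fun n => (hyg n n le_rfl).1)
    _ rfl _ (fun _ => rfl)
  set a : A := ∑' j, if j % 2 = 0 then y j else 0
  set b : A := ∑' j, if ¬ j % 2 = 0 then y j else 0
  set a₂ : A := ∑' k, if k % 2 = 0 then 0 else ContinuousLinearMap.mul ℂ A a (g (k + 1) - g k)
  set b₂ : A := ∑' k, if ¬ k % 2 = 0 then 0 else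
    (ContinuousLinearMap.mul ℂ A).flip b (g (k + 1) - g k)
  have rel : a * b₂ + a₂ * b = a * b := by
    have k1 := ((sb.hasSum.mul_left a).add (sa.hasSum.mul_right b)).tendsto_sum_nat
    refine tendsto_nhds_unique (k1.congr fun n => ?_) (ta.mul_const b)
    have k2 := sum_range_sub (fun k => a * g k * b) n
    rw [g0, mul_zero, zero_mul, sub_zero] at k2
    refine Eq.trans (sum_congr rfl fun k _ => ?_) k2
    by_cases hk : k % 2 = 0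
    · rw [if_pos hk, if_neg (not_not.2 hk), zero_mul, add_zero]
      simp [mul_sub, mul_assoc]
    · rw [if_pos hk, if_neg hk, mul_zero, zero_add]
      simp [mul_sub, sub_mul]
  have hab : (a - a₂) * (b - b₂) = a₂ * b₂ := by
    rw [sub_mul, mul_sub, mul_sub, ← rel]
    abel
  choose la la1 la2 la3 using la
  choose lb lb1 lb2 lb3 using lb
  have hρ : ∀ n : ℕ, 80 * (1 + K) * ((n + 1) * η n) / q ^ n =
      40 * (1 + K) * q ^ 2 * (q ^ n * (1 / 2) ^ n) := fun n => by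
    rw [hη1]
    field_simp
    ring
  refine chain hab (fun n => if hn : n % 2 = 0 then la n hn else lb n hn)
    (fun n => 2 * (1 + K) / q ^ n) (fun n => 40 * (1 + K) * q ^ 2 * (q ^ n * (1 / 2) ^ n))
    (M := 160 * (1 + K) ^ 2) (fun n hn => ?_) (fun n hn => ?_) (fun n => ?_) (fun n => ?_)
    (fun n => ?_) h
  · rw [dif_pos hn, ← hρ]
    exact ⟨la1 n hn, la3 n hn⟩
  · rw [dif_neg hn, ← hρ]
    exact ⟨lb1 n hn, lb3 n hn⟩
  · split_ifs with hn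
    · exact la2 n hn
    · exact lb2 n hn
  · calc _ = 80 * (1 + K) ^ 2 * (q ^ 3 / 2 + q) * (1 / 2) ^ n := by
          field_simp
          ring
      _ ≤ 80 * (1 + K) ^ 2 * 2 * (1 / 2) ^ n := by
          gcongr
          linarith [hqn 3]
      _ = _ := by ring
  · have k1 := hqn n
    have k2 := hqn 2
    calc _ ≤ 40 * (1 + K) * 1 * (1 * (1 / 2) ^ n) := by gcongr
      _ = 40 * (1 + K) * (1 / 2) ^ n := by ring
      _ ≤ _ := by
        gcongr ?_ * _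
        nlinarith

end Pool.Agent.Lib.MP_bcc96c_an
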