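import Pool.Agent.Lib.MP_bcc96c_an.Main

/-! The link inequality for a relation `a₁ b₁ = a₂ b₂` and the chain argument. -/

set_option maxSynthPendingDepth 3

namespace Pool.Agent.Lib.MP_bcc96c_an

universe u

variable {A : Type u} [NonUnitalNormedRing A] [NormedSpace ℂ A] [IsScalarTower ℂ A A]
  [SMulCommClass ℂ A A]

theorem unit_right (η : XM A →L[ℂ] ℂ) {a : A} {ε : ℝ}
    (ha : ‖η.comp (RM A a) - η.comp (LM A a) - DM A a‖ ≤ ε) (l : A →L[ℂ] ℂ) :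
    ‖η (0, l.comp (lm a), 0) - l a‖ ≤ ε * ‖l‖ := by
  have h2 := (η.comp (RM A a) - η.comp (LM A a) - DM A a).le_of_opNorm_le ha (0, l, 0)
  have h3 : RM A a (0, l, 0) = (0, l.comp (lm a), 0) := by
    rw [RM_apply]; ext <;> simp
  have h4 : LM A a (0, l, 0) = 0 := by rw [LM_apply]; ext <;> simp
  simpa [h3, h4, DM_apply, Prod.norm_def] using h2

theorem unit_left (η : XM A →L[ℂ] ℂ) {b : A} {ε : ℝ}
    (hb : ‖η.comp (RM A b) - η.comp (LM A b) - DM A b‖ ≤ ε) (μ : A →L[ℂ] ℂ) :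
    ‖η (0, 0, μ.comp (rm b)) - μ b‖ ≤ ε * ‖μ‖ := by
  have h2 := (η.comp (RM A b) - η.comp (LM A b) - DM A b).le_of_opNorm_le hb (0, 0, μ)
  have h3 : LM A b (0, 0, μ) = (0, 0, μ.comp (rm b)) := by
    rw [LM_apply]; ext <;> simp
  have h4 : RM A b (0, 0, μ) = 0 := by rw [RM_apply]; ext <;> simp
  rw [norm_sub_rev]
  simpa [h3, h4, DM_apply, Prod.norm_def, neg_add_eq_sub] using h2

theorem half_link (η : XM A →L[ℂ] ℂ) {a b : A} {ε : ℝ}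
    (ha : ‖η.comp (RM A a) - η.comp (LM A a) - DM A a‖ ≤ ε)
    (hb : ‖η.comp (RM A b) - η.comp (LM A b) - DM A b‖ ≤ ε) (l μ : A →L[ℂ] ℂ) :
    ‖l a * η (0, 0, μ.comp (rm b)) - μ b * η (0, l.comp (lm a), 0) -
        (η (LM A (a * b) (tens l μ)) - η (RM A (a * b) (tens l μ)))‖ ≤
      ε * (‖l‖ * ‖μ.comp (rm b)‖ + ‖l.comp (lm a)‖ * ‖μ‖) := by
  have h1 := (η.comp (RM A a) - η.comp (LM A a) - DM A a).le_of_opNorm_le ha
    (tens l (μ.comp (rm b)))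
  have h2 := (η.comp (RM A b) - η.comp (LM A b) - DM A b).le_of_opNorm_le hb
    (tens (l.comp (lm a)) μ)
  have n1 : ∀ φ ψ : A →L[ℂ] ℂ, ‖tens φ ψ‖ = ‖φ‖ * ‖ψ‖ := fun φ ψ => by
    simp [tens_apply, Prod.norm_def]; positivity
  have e1 : RM A a (tens l (μ.comp (rm b))) =
      tens (l.comp (lm a)) (μ.comp (rm b)) + l a • (0, 0, μ.comp (rm b)) := by
    rw [RM_apply, tens_apply, tens_apply]
    ext <;> simp
  have e2 : LM A a (tens l (μ.comp (rm b))) = LM A (a * b) (tens l μ) := by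
    rw [LM_apply, LM_apply, tens_apply, tens_apply]
    ext <;> simp [mul_assoc]
  have e3 : RM A b (tens (l.comp (lm a)) μ) = RM A (a * b) (tens l μ) := by
    rw [RM_apply, RM_apply, tens_apply, tens_apply]
    ext <;> simp [mul_assoc]
  have e4 : LM A b (tens (l.comp (lm a)) μ) =
      tens (l.comp (lm a)) (μ.comp (rm b)) + μ b • (0, l.comp (lm a), 0) := by
    rw [LM_apply, tens_apply, tens_apply]
    ext <;> simp [mul_comm]
  have e5 : ∀ (s : A) (φ ψ : A →L[ℂ] ℂ), DM A s (tens φ ψ) = 0 := fun s φ ψ => by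
    rw [DM_apply, tens_apply]; simp
  change ‖η (RM A a _) - η (LM A a _) - DM A a _‖ ≤ _ at h1
  change ‖η (RM A b _) - η (LM A b _) - DM A b _‖ ≤ _ at h2
  rw [e1, e2, e5, n1, map_add, map_smul, smul_eq_mul, sub_zero] at h1
  rw [e3, e4, e5, n1, map_add, map_smul, smul_eq_mul, sub_zero] at h2
  refine le_trans (le_of_eq ?_) ((norm_add_le _ _).trans ((add_le_add h1 h2).trans (le_of_eq ?_)))
  · congr 1
    ring
  · ring

theorem link2 (η : XM A →L[ℂ] ℂ) {a₁ a₂ b₁ b₂ : A} {ε : ℝ} (hab : a₁ * b₁ = a₂ * b₂)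
    (ha₁ : ‖η.comp (RM A a₁) - η.comp (LM A a₁) - DM A a₁‖ ≤ ε)
    (ha₂ : ‖η.comp (RM A a₂) - η.comp (LM A a₂) - DM A a₂‖ ≤ ε)
    (hb₁ : ‖η.comp (RM A b₁) - η.comp (LM A b₁) - DM A b₁‖ ≤ ε)
    (hb₂ : ‖η.comp (RM A b₂) - η.comp (LM A b₂) - DM A b₂‖ ≤ ε) (l μ : A →L[ℂ] ℂ)
    (hl : l a₁ = 1) (hμ : μ b₁ = 1) :
    ‖η (0, 0, μ.comp (rm b₁)) - η (0, l.comp (lm a₁), 0)‖ ≤
      ε * (‖l‖ * (‖μ b₂‖ + ‖μ.comp (rm b₁)‖ + ‖μ.comp (rm b₂)‖) +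
        ‖μ‖ * (‖l a₂‖ + ‖l.comp (lm a₁)‖ + ‖l.comp (lm a₂)‖)) := by
  have h1 := half_link η ha₁ hb₁ l μ
  have h2 := half_link η ha₂ hb₂ l μ
  have h3 := unit_right η ha₂ l
  have h4 := unit_left η hb₂ μ
  rw [hl, hμ, hab, one_mul, one_mul] at h1
  set Z := η (LM A (a₂ * b₂) (tens l μ)) - η (RM A (a₂ * b₂) (tens l μ))
  set G₁ := η (0, 0, μ.comp (rm b₁))
  set F₁ := η (0, l.comp (lm a₁), 0)
  set G₂ := η (0, 0, μ.comp (rm b₂))
  set F₂ := η (0, l.comp (lm a₂), 0)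
  have e : G₁ - F₁ = ((G₁ - F₁ - Z) - (l a₂ * G₂ - μ b₂ * F₂ - Z)) +
      (l a₂ * (G₂ - μ b₂) - μ b₂ * (F₂ - l a₂)) := by ring
  have h5 : ‖l a₂ * (G₂ - μ b₂)‖ ≤ ‖l a₂‖ * (ε * ‖μ‖) := by
    rw [norm_mul]; gcongr
  have h6 : ‖μ b₂ * (F₂ - l a₂)‖ ≤ ‖μ b₂‖ * (ε * ‖l‖) := by
    rw [norm_mul]; gcongr
  rw [e]
  refine (norm_add_le _ _).trans ((add_le_add (norm_sub_le _ _) (norm_sub_le _ _)).trans ?_)
  nlinarith

theorem chain {a₁ a₂ b₁ b₂ : A} (hab : a₁ * b₁ = a₂ * b₂) (l : ℕ → A →L[ℂ] ℂ) (L ρ : ℕ → ℝ)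
    {M : ℝ}
    (he : ∀ n, n % 2 = 0 → l n a₁ = 1 ∧
      ‖l n a₂‖ + ‖(l n).comp (lm a₁)‖ + ‖(l n).comp (lm a₂)‖ ≤ ρ n)
    (ho : ∀ n, ¬ n % 2 = 0 → l n b₁ = 1 ∧
      ‖l n b₂‖ + ‖(l n).comp (rm b₁)‖ + ‖(l n).comp (rm b₂)‖ ≤ ρ n)
    (hL : ∀ n, ‖l n‖ ≤ L n) (hM : ∀ n, L n * ρ (n + 1) + L (n + 1) * ρ n ≤ M * (1 / 2) ^ n)
    (hρ : ∀ n, ρ n ≤ M * (1 / 2) ^ n)
    (h : ∀ F : Finset A, ∀ ε : ℝ, 0 < ε → ∃ η : XM A →L[ℂ] ℂ,
      ∀ a ∈ F, ‖η.comp (RM A a) - η.comp (LM A a) - DM A a‖ < ε) : False := by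
  classical
  have hL0 : ∀ n, 0 ≤ L n := fun n => (norm_nonneg _).trans (hL n)
  have hM0 : 0 ≤ M := by
    have h1 := (he 0 rfl).2.trans (hρ 0)
    have h2 : 0 ≤ ‖l 0 a₂‖ + ‖(l 0).comp (lm a₁)‖ + ‖(l 0).comp (lm a₂)‖ := by positivity
    simpa using h2.trans h1
  have hL00 := hL0 0
  set ε : ℝ := 1 / (2 * (L 0 + 2 * M + 1)) with hε
  have hε0 : 0 < ε := by positivity
  obtain ⟨η, hη⟩ := h {a₁, a₂, b₁, b₂} ε hε0
  have ha₁ := (hη a₁ (by simp)).le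
  have ha₂ := (hη a₂ (by simp)).le
  have hb₁ := (hη b₁ (by simp)).le
  have hb₂ := (hη b₂ (by simp)).le
  let v : ℕ → XM A := fun n =>
    if n % 2 = 0 then (0, (l n).comp (lm a₁), 0) else (0, 0, (l n).comp (rm b₁))
  have hstep : ∀ n, ‖η (v n) - η (v (n + 1))‖ ≤ ε * (M * (1 / 2) ^ n) := by
    intro n
    by_cases hn : n % 2 = 0
    · have hn' : ¬ (n + 1) % 2 = 0 := by omega
      have := link2 η hab ha₁ ha₂ hb₁ hb₂ (l n) (l (n + 1)) (he n hn).1 (ho _ hn').1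
      simp only [v, if_pos hn, if_neg hn']
      rw [norm_sub_rev]
      refine this.trans (mul_le_mul_of_nonneg_left (le_trans ?_ (hM n)) hε0.le)
      exact add_le_add (mul_le_mul (hL _) (ho _ hn').2 (by positivity) (hL0 _))
        (mul_le_mul (hL _) (he n hn).2 (by positivity) (hL0 _))
    · have hn' : (n + 1) % 2 = 0 := by omega
      have := link2 η hab ha₁ ha₂ hb₁ hb₂ (l (n + 1)) (l n) (he _ hn').1 (ho n hn).1
      simp only [v, if_pos hn', if_neg hn]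
      refine this.trans (mul_le_mul_of_nonneg_left (le_trans ?_ (hM n)) hε0.le)
      rw [add_comm]
      exact add_le_add (mul_le_mul (hL _) (he _ hn').2 (by positivity) (hL0 _))
        (mul_le_mul (hL _) (ho n hn).2 (by positivity) (hL0 _))
  have hsum : ∀ n, ‖η (v 0) - η (v n)‖ ≤ ε * M * (2 - 2 * (1 / 2) ^ n) := by
    intro n
    induction n with
    | zero => simp
    | succ n ih =>
      have a1 := norm_sub_le_norm_sub_add_norm_sub (η (v 0)) (η (v n)) (η (v (n + 1)))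
      have a2 := hstep n
      rw [pow_succ]
      linarith
  have hv : ∀ n, ‖v n‖ ≤ M * (1 / 2) ^ n := by
    intro n
    refine le_trans ?_ (hρ n)
    by_cases hn : n % 2 = 0
    · have a1 : ‖v n‖ = ‖(l n).comp (lm a₁)‖ := by simp [v, hn, Prod.norm_def]
      linarith [(he n hn).2, norm_nonneg (l n a₂), norm_nonneg ((l n).comp (lm a₂))]
    · have a1 : ‖v n‖ = ‖(l n).comp (rm b₁)‖ := by simp [v, hn, Prod.norm_def]
      linarith [(ho n hn).2, norm_nonneg (l n b₂), norm_nonneg ((l n).comp (rm b₂))]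
  have hstart : ‖η (v 0) - 1‖ ≤ ε * L 0 := by
    have a1 := unit_right η ha₁ (l 0)
    rw [(he 0 rfl).1] at a1
    exact a1.trans (mul_le_mul_of_nonneg_left (hL 0) hε0.le)
  obtain ⟨n, hn⟩ := exists_pow_lt_of_lt_one (x := 1 / (2 * (‖η‖ * M + 1))) (y := (1 / 2 : ℝ))
    (by positivity) (by norm_num)
  rw [lt_div_iff₀ (by positivity)] at hn
  have b1 : ‖η (v n)‖ ≤ ‖η‖ * (M * (1 / 2) ^ n) := (η.le_opNorm _).trans (by gcongr; exact hv n)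
  have b2 : (1 : ℝ) ≤ ‖η (v 0) - 1‖ + ‖η (v 0) - η (v n)‖ + ‖η (v n)‖ := by
    have : (1 : ℂ) = (η (v 0) - η (v n)) - (η (v 0) - 1) + η (v n) := by ring
    calc (1 : ℝ) = ‖(1 : ℂ)‖ := norm_one.symm
      _ = ‖(η (v 0) - η (v n)) - (η (v 0) - 1) + η (v n)‖ := congrArg norm this
      _ ≤ _ := by
        refine (norm_add_le _ _).trans ?_
        linarith [norm_sub_le (η (v 0) - η (v n)) (η (v 0) - 1)]
  have b3 : ε * (L 0 + 2 * M + 1) = 1 / 2 := by rw [hε]; field_simp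
  have b4 : (0 : ℝ) ≤ (1 / 2) ^ n := by positivity
  have b5 := hsum n
  nlinarith [mul_nonneg (mul_nonneg hε0.le hM0) b4]

end Pool.Agent.Lib.MP_bcc96c_an
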