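import Mathlib

/-! A gliding hump built from approximate point derivations, with constants fixed in advance. -/

namespace Pool.Agent.Lib.MP_bcc96c_an

universe u

theorem wf_consts : ∃ c : ℕ → ℝ, (∀ n, 0 < c n) ∧ c 0 ≤ 1 ∧ (∀ n, c (n + 1) ≤ c n / 2) ∧
    ∀ n, c (n + 2) ≤ (1 / 2) ^ n * c n * c (n + 1) / 256 := by
  refine ⟨fun n => (1 / 2) ^ (3 ^ (n + 2)), fun n => by positivity,
    pow_le_one₀ (by norm_num) (by norm_num), fun n => ?_, fun n => ?_⟩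
  · have h : 3 ^ (n + 2) + 1 ≤ 3 ^ (n + 1 + 2) := by
      have : 1 ≤ 3 ^ n := Nat.one_le_pow _ _ (by norm_num)
      rw [pow_add, pow_add, pow_add]; omega
    calc (1 / 2 : ℝ) ^ (3 ^ (n + 1 + 2)) ≤ (1 / 2) ^ (3 ^ (n + 2) + 1) :=
          pow_le_pow_of_le_one (by norm_num) (by norm_num) h
      _ = _ := by rw [pow_succ]; ring
  · have h : n + 3 ^ (n + 2) + 3 ^ (n + 1 + 2) + 8 ≤ 3 ^ (n + 2 + 2) := by
      have : n < 3 ^ n := Nat.lt_pow_self (by norm_num)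
      simp only [pow_add]; omega
    calc (1 / 2 : ℝ) ^ (3 ^ (n + 2 + 2)) ≤ (1 / 2) ^ (n + 3 ^ (n + 2) + 3 ^ (n + 1 + 2) + 8) :=
          pow_le_pow_of_le_one (by norm_num) (by norm_num) h
      _ = _ := by rw [pow_add, pow_add, pow_add]; ring

variable {A : Type u} [NonUnitalNormedRing A] [NormedSpace ℂ A]

theorem wf_seq
    (H : ∀ (F : Finset A) (η : ℝ), 0 < η → ∃ (l : A →L[ℂ] ℂ) (x : A), ‖l‖ ≤ 2 ∧ ‖x‖ ≤ 1 ∧ l x = 1 ∧
      (∀ y w, ‖l (y * w)‖ ≤ η * (‖y‖ * ‖w‖)) ∧ ∀ f ∈ F, ‖l f‖ ≤ η)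
    (η : ℕ → ℝ) (h0 : ∀ n, 0 < η n) (h1 : ∀ n, η (n + 1) ≤ η n) :
    ∃ (μ : ℕ → A →L[ℂ] ℂ) (x : ℕ → A), (∀ n, ‖x n‖ ≤ 1) ∧ (∀ n, ‖μ n‖ ≤ 6) ∧
      (∀ n y w, ‖μ n (y * w)‖ ≤ 3 * η n * (‖y‖ * ‖w‖)) ∧ (∀ n, μ n (x (n + 1)) = 0) ∧
      (∀ n, ‖μ n (x n) - 1‖ ≤ 3 * η n) ∧ ∀ n m, m < n → ‖μ n (x m)‖ ≤ 3 * η n := by
  classical
  choose L X g1 g2 g3 g4 g5 using fun (F : Finset A) (n : ℕ) => H F (η n) (h0 n)
  let F : ℕ → Finset A := fun n => Nat.rec ∅ (fun n G => insert (X G n) G) n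
  have hF : ∀ n m, m < n → X (F m) m ∈ F n := by
    intro n
    induction n with
    | zero => intro m hm; omega
    | succ n ih =>
      intro m hm
      change _ ∈ insert (X (F n) n) (F n)
      rcases Nat.lt_succ_iff_lt_or_eq.1 hm with h | h
      · exact Finset.mem_insert_of_mem (ih m h)
      · rw [h]; exact Finset.mem_insert_self _ _
  set l : ℕ → A →L[ℂ] ℂ := fun n => L (F n) n with hl
  set x : ℕ → A := fun n => X (F n) n with hx
  have k1 : ∀ n, ‖l n (x (n + 1))‖ ≤ 2 := fun n =>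
    ((l n).le_opNorm _).trans (by
      have := mul_le_mul (g1 (F n) n) (g2 (F (n + 1)) (n + 1)) (norm_nonneg _) (by norm_num)
      linarith)
  have k2 : ∀ n (z : A) (t : ℝ), ‖l n z‖ ≤ η n * t → ‖l (n + 1) z‖ ≤ η (n + 1) * t → 0 ≤ t →
      ‖(l n - l n (x (n + 1)) • l (n + 1)) z‖ ≤ 3 * η n * t := by
    intro n z t a1 a2 a3
    have a4 : ‖l n (x (n + 1)) * l (n + 1) z‖ ≤ 2 * (η n * t) := by
      rw [norm_mul]
      exact mul_le_mul (k1 n) (a2.trans (mul_le_mul_of_nonneg_right (h1 n) a3)) (norm_nonneg _)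
        (by norm_num)
    change ‖l n z - l n (x (n + 1)) * l (n + 1) z‖ ≤ _
    linarith [norm_sub_le (l n z) (l n (x (n + 1)) * l (n + 1) z)]
  refine ⟨fun n => l n - l n (x (n + 1)) • l (n + 1), x, fun n => g2 _ _, fun n => ?_,
    fun n y w => k2 n _ _ (g4 _ _ _ _) (g4 _ _ _ _) (by positivity), fun n => ?_, fun n => ?_,
    fun n m hm => ?_⟩
  · refine (norm_sub_le _ _).trans ?_
    rw [norm_smul]
    have := mul_le_mul (k1 n) (g1 (F (n + 1)) (n + 1)) (norm_nonneg _) (by norm_num)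
    linarith [g1 (F n) n]
  · change l n (x (n + 1)) - l n (x (n + 1)) * L (F (n + 1)) (n + 1) (X (F (n + 1)) (n + 1)) = 0
    rw [g3]; ring
  · change ‖L (F n) n (X (F n) n) - l n (x (n + 1)) * l (n + 1) (x n) - 1‖ ≤ _
    rw [g3, sub_sub_cancel_left, norm_neg, norm_mul]
    have := mul_le_mul (k1 n) ((g5 (F (n + 1)) (n + 1) _ (hF (n + 1) n (by omega))).trans (h1 n))
      (norm_nonneg _) (by norm_num)
    linarith [h0 n]
  · have := k2 n (x m) 1 (by simpa using g5 (F n) n _ (hF n m hm))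
      (by simpa using g5 (F (n + 1)) (n + 1) _ (hF (n + 1) m (by omega))) zero_le_one
    simpa using this

theorem wf_sum [CompleteSpace A] (c : ℕ → ℝ) (c0 : ∀ n, 0 < c n) (c1 : c 0 ≤ 1)
    (c2 : ∀ n, c (n + 1) ≤ c n / 2) (μ : ℕ → A →L[ℂ] ℂ) (x : ℕ → A) (g1 : ∀ n, ‖x n‖ ≤ 1)
    (g2 : ∀ n, ‖μ n‖ ≤ 6) (g4 : ∀ n, μ n (x (n + 1)) = 0)
    (g5 : ∀ n, ‖μ n (x n) - 1‖ ≤ 3 * c (n + 2))
    (g6 : ∀ n m, m < n → ‖μ n (x m)‖ ≤ 3 * c (n + 2)) (i : ℕ) :
    ∃ s : A, ‖s‖ ≤ 2 ∧ ∀ n, ‖μ n s - (if n % 2 = i then (c n : ℂ) else 0)‖ ≤ 21 * c (n + 2) := by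
  have d1 : ∀ n k, c (k + n) ≤ c n * (1 / 2) ^ k := by
    intro n k
    induction k with
    | zero => simp
    | succ k ih =>
      have := c2 (k + n)
      rw [pow_succ, show k + 1 + n = k + n + 1 by ring]
      linarith
  have d0 : ∀ k, c k ≤ (1 / 2) ^ k := fun k => by
    have := d1 0 k
    have h : (0 : ℝ) ≤ (1 / 2) ^ k := by positivity
    rw [add_zero] at this
    nlinarith
  set e : ℕ → ℂ := fun n => if n % 2 = i then (c n : ℂ) else 0 with he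
  have e1 : ∀ n, ‖e n‖ ≤ c n := fun n => by
    simp only [he]
    split_ifs
    · simp [abs_of_pos (c0 n)]
    · simpa using (c0 n).le
  have t1 : ∀ n, ‖e n • x n‖ ≤ c n := fun n => by
    rw [norm_smul]
    simpa using mul_le_mul (e1 n) (g1 n) (norm_nonneg _) (c0 n).le
  have hs : Summable fun n => e n • x n :=
    Summable.of_norm_bounded summable_geometric_two fun n => (t1 n).trans (d0 n)
  refine ⟨∑' n, e n • x n, tsum_of_norm_bounded hasSum_geometric_two fun n => (t1 n).trans (d0 n),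
    fun n => ?_⟩
  have a1 : ‖∑' k, e (k + (n + 2)) • x (k + (n + 2))‖ ≤ c (n + 2) * 2 :=
    tsum_of_norm_bounded (hasSum_geometric_two.mul_left _) fun k => (t1 _).trans (d1 _ k)
  have a2 : ‖μ n (∑' k, e (k + (n + 2)) • x (k + (n + 2)))‖ ≤ 6 * (c (n + 2) * 2) :=
    ((μ n).le_opNorm _).trans (mul_le_mul (g2 n) a1 (norm_nonneg _) (by norm_num))
  have a3 : ‖∑ m ∈ Finset.range n, e m * μ n (x m)‖ ≤ 3 * c (n + 2) * 2 := by
    refine (norm_sum_le _ _).trans ?_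
    calc ∑ m ∈ Finset.range n, ‖e m * μ n (x m)‖
        ≤ ∑ m ∈ Finset.range n, 3 * c (n + 2) * (1 / 2) ^ m :=
          Finset.sum_le_sum fun m hm => by
            rw [norm_mul, mul_comm]
            exact mul_le_mul (g6 n m (Finset.mem_range.1 hm)) ((e1 m).trans (d0 m))
              (norm_nonneg _) (by have := c0 (n + 2); positivity)
      _ ≤ _ := by
          rw [← Finset.mul_sum]
          exact mul_le_mul_of_nonneg_left (sum_geometric_two_le n)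
            (by have := c0 (n + 2); positivity)
  have a4 : ‖e n * (μ n (x n) - 1)‖ ≤ 1 * (3 * c (n + 2)) := by
    rw [norm_mul]
    exact mul_le_mul ((e1 n).trans ((d0 n).trans (pow_le_one₀ (by norm_num) (by norm_num))))
      (g5 n) (norm_nonneg _) zero_le_one
  have a5 : μ n (∑' n, e n • x n) - e n = ∑ m ∈ Finset.range n, e m * μ n (x m) +
      e n * (μ n (x n) - 1) + μ n (∑' k, e (k + (n + 2)) • x (k + (n + 2))) := by
    rw [← hs.sum_add_tsum_nat_add (n + 2), Finset.sum_range_succ, Finset.sum_range_succ]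
    simp only [map_add, map_sum, map_smul, smul_eq_mul, g4]
    ring
  change ‖μ n (∑' n, e n • x n) - e n‖ ≤ _
  rw [a5]
  refine (norm_add₃_le).trans ?_
  linarith

end Pool.Agent.Lib.MP_bcc96c_an
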