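import Pool.Agent.Lib.MP_bcc96c_an.FrBridge
import Pool.Agent.Lib.MP_bcc96c_an.FrChain
import Pool.Agent.Lib.MP_bcc96c_an.WfHump

/-! No approximate point derivations on a commutative approximately amenable algebra. -/

set_option maxSynthPendingDepth 3

namespace Pool.Agent.Lib.MP_bcc96c_an

universe u

variable {A : Type u} [NonUnitalNormedRing A] [NormedSpace ℂ A]

theorem wf_proj {R : Type u} [NormedRing R] [NormedAlgebra ℂ R] [NormOneClass R]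
    (ι : A →L[ℂ] R) (hι : ∀ a, ‖ι a‖ = ‖a‖) (χ : R →L[ℂ] ℂ) (hone : χ 1 = 1)
    (hn : ∀ a, ‖χ a‖ ≤ ‖a‖) (h0 : ∀ a, χ (ι a) = 0) (h1 : ∀ r, χ r = 0 → ∃ a, ι a = r) :
    ∃ p : R →L[ℂ] A, (∀ a, p (ι a) = a) ∧ (∀ w, ι (p w) = w - χ w • 1) ∧
      ∀ w, ‖p w‖ ≤ 2 * ‖w‖ := by
  have hinj : Function.Injective ι := fun a b hab => by
    rw [← sub_eq_zero, ← norm_eq_zero, ← hι, map_sub, hab, sub_self, norm_zero]
  choose π hπ using fun w => h1 (w - χ w • 1) (by simp [hone])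
  have hb : ∀ w, ‖π w‖ ≤ 2 * ‖w‖ := fun w => by
    rw [← hι, hπ]
    refine (norm_sub_le _ _).trans ?_
    rw [norm_smul, norm_one]
    linarith [hn w]
  let p0 : R →ₗ[ℂ] A :=
    { toFun := π
      map_add' := fun v w => hinj (by rw [map_add, hπ, hπ, hπ, map_add, add_smul]; abel)
      map_smul' := fun c w => hinj (by
        rw [map_smul, hπ, hπ, map_smul, RingHom.id_apply, smul_sub, smul_assoc]) }
  exact ⟨p0.mkContinuous 2 hb, fun a => hinj (by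
    change ι (π (ι a)) = _
    rw [hπ, h0, zero_smul, sub_zero]), hπ, hb⟩

theorem wf_wit (hr : ∀ (F : Finset A) (ε : ℝ), 0 < ε → ∃ u : A, ∀ f ∈ F, ‖f * u - f‖ ≤ ε)
    (hno : ¬ ∃ C : ℝ, ∀ (l : A →L[ℂ] ℂ) (d : ℝ), 0 ≤ d →
      (∀ y w, ‖l (y * w)‖ ≤ d * (‖y‖ * ‖w‖)) → ‖l‖ ≤ C * d)
    (F : Finset A) (η : ℝ) (hη : 0 < η) :
    ∃ (l : A →L[ℂ] ℂ) (x : A), ‖l‖ ≤ 2 ∧ ‖x‖ ≤ 1 ∧ l x = 1 ∧
      (∀ y w, ‖l (y * w)‖ ≤ η * (‖y‖ * ‖w‖)) ∧ ∀ f ∈ F, ‖l f‖ ≤ η := by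
  obtain ⟨u, hu⟩ := hr F (η / 4) (by positivity)
  set M : ℝ := (∑ f ∈ F, ‖f‖) * ‖u‖ with hM
  have hM0 : 0 ≤ M := mul_nonneg (Finset.sum_nonneg fun _ _ => norm_nonneg _) (norm_nonneg _)
  set δ : ℝ := η / (2 * (1 + M)) with hδ
  have hδ0 : 0 < δ := by positivity
  have hδ1 : δ * (1 + M) = η / 2 := by rw [hδ]; field_simp
  push Not at hno
  obtain ⟨l, d, hd, h1, h2⟩ := hno (2 / δ)
  have hl : 0 < ‖l‖ := lt_of_le_of_lt (by positivity) h2
  obtain ⟨x, hx, hlx⟩ := l.exists_lt_apply_of_lt_opNorm (half_lt_self hl)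
  have hx0 : 0 < ‖l x‖ := (half_pos hl).trans hlx
  have n1 : ‖(l x)⁻¹ • l‖ ≤ 2 := by
    rw [norm_smul, norm_inv, inv_mul_le_iff₀ hx0]; linarith
  have n2 : ∀ y w, ‖((l x)⁻¹ • l) (y * w)‖ ≤ δ * (‖y‖ * ‖w‖) := by
    intro y w
    change ‖(l x)⁻¹ * l (y * w)‖ ≤ _
    rw [norm_mul, norm_inv, inv_mul_le_iff₀ hx0, ← mul_assoc]
    refine (h1 y w).trans (mul_le_mul_of_nonneg_right ?_ (by positivity))
    rw [div_mul_eq_mul_div, div_lt_iff₀ hδ0] at h2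
    nlinarith
  refine ⟨(l x)⁻¹ • l, x, n1, hx.le, inv_mul_cancel₀ (norm_pos_iff.1 hx0), fun y w =>
    (n2 y w).trans (mul_le_mul_of_nonneg_right (by nlinarith) (by positivity)), fun f hf => ?_⟩
  have a1 : ‖((l x)⁻¹ • l) (f * u - f)‖ ≤ 2 * (η / 4) :=
    (ContinuousLinearMap.le_opNorm _ _).trans
      (mul_le_mul n1 (hu f hf) (norm_nonneg _) (by norm_num))
  have a2 : ‖f‖ * ‖u‖ ≤ M := mul_le_mul_of_nonneg_right
    (Finset.single_le_sum (f := fun f : A => ‖f‖) (fun _ _ => norm_nonneg _) hf) (norm_nonneg _)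
  have a3 := (n2 f u).trans (mul_le_mul_of_nonneg_left a2 hδ0.le)
  rw [map_sub, norm_sub_rev] at a1
  have a4 := norm_le_norm_sub_add (((l x)⁻¹ • l) f) (((l x)⁻¹ • l) (f * u))
  nlinarith

theorem wf_dual [IsScalarTower ℂ A A] [SMulCommClass ℂ A A] [CompleteSpace A]
    (hc : ∀ a b : A, a * b = b * a)
    (h : ∀ F : Finset A, ∀ ε : ℝ, 0 < ε → ∃ η : XM A →L[ℂ] ℂ,
      ∀ a ∈ F, ‖η.comp (RM A a) - η.comp (LM A a) - DM A a‖ < ε) :
    ∃ C : ℝ, ∀ (l : A →L[ℂ] ℂ) (d : ℝ), 0 ≤ d →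
      (∀ y w, ‖l (y * w)‖ ≤ d * (‖y‖ * ‖w‖)) → ‖l‖ ≤ C * d := by
  classical
  by_contra hno
  obtain ⟨ι, χ, hι, hm, hmul, hone, hn, h0, h1, h2⟩ := exists_ext (A := A)
  have : NormOneClass (WithLp 1 (Unitization ℂ A)) := ⟨h2⟩
  obtain ⟨hRU, -, hB⟩ := bridge ι hι hm χ hone h0 h1 h
  obtain ⟨p, p1, p2, p3⟩ := wf_proj ι hι χ hone hn h0 h1
  obtain ⟨c, c0, c1, c2, c3⟩ := wf_consts
  have hr : ∀ (F : Finset A) (ε : ℝ), 0 < ε → ∃ u : A, ∀ f ∈ F, ‖f * u - f‖ ≤ ε := by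
    intro F ε hε
    obtain ⟨v, hv, hv'⟩ := hRU (F.image ι) ε hε (by simp [h0])
    obtain ⟨u, rfl⟩ := h1 v hv
    exact ⟨u, fun f hf => by
      rw [← hι, map_sub, hm]; exact hv' _ (Finset.mem_image_of_mem _ hf)⟩
  have cm : ∀ n, c (n + 1) ≤ c n := fun n => by linarith [c2 n, c0 n]
  have c4 : ∀ n, c n ≤ 1 := fun n => by
    induction n with
    | zero => exact c1
    | succ n ih => exact (cm n).trans ih
  obtain ⟨μ, x, g1, g2, g3, g4, g5, g6⟩ := wf_seq (wf_wit hr hno) (fun n => c (n + 2))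
    (fun n => c0 _) fun n => cm _
  obtain ⟨a, a1, a2⟩ := wf_sum c c0 c1 c2 μ x g1 g2 g4 g5 g6 0
  obtain ⟨b, b1, b2⟩ := wf_sum c c0 c1 c2 μ x g1 g2 g4 g5 g6 1
  set s : ℕ → A := fun n => if n % 2 = 0 then a else b with hs
  have s1 : ∀ n, c n / 2 ≤ ‖μ n (s n)‖ := by
    intro n
    have k1 : ‖μ n (s n) - c n‖ ≤ 21 * c (n + 2) := by
      rcases Nat.mod_two_eq_zero_or_one n with hn0 | hn0
      · simpa [hs, hn0] using a2 n
      · simpa [hs, hn0] using b2 n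
    have k2 : (1 / 2 : ℝ) ^ n * c n * c (n + 1) ≤ 1 * c n * 1 := by
      have := c0 n
      have := c0 (n + 1)
      gcongr
      · exact pow_le_one₀ (by norm_num) (by norm_num)
      · exact c4 _
    have k3 := norm_le_norm_sub_add (c n : ℂ) (μ n (s n))
    rw [norm_sub_rev, Complex.norm_real, Real.norm_of_nonneg (c0 n).le] at k3
    linarith [c3 n, c0 n]
  have s2 : ∀ n, ‖(μ n (s n))⁻¹‖ ≤ 2 / c n := fun n => by
    rw [norm_inv, ← inv_div]
    exact inv_anti₀ (half_pos (c0 n)) (s1 n)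
  set L : ℕ → WithLp 1 (Unitization ℂ A) →L[ℂ] ℂ := fun n => (μ n (s n))⁻¹ • (μ n).comp p with hL
  have L1 : ∀ n, ‖L n‖ ≤ 24 / c n := fun n =>
    ContinuousLinearMap.opNorm_le_bound _ (by have := c0 n; positivity) fun w => by
      change ‖(μ n (s n))⁻¹ * μ n (p w)‖ ≤ _
      have k1 : ‖μ n (p w)‖ ≤ 6 * (2 * ‖w‖) :=
        ((μ n).le_opNorm _).trans (mul_le_mul (g2 n) (p3 w) (norm_nonneg _) (by norm_num))
      rw [norm_mul]
      refine (mul_le_mul (s2 n) k1 (norm_nonneg _) (by have := c0 n; positivity)).trans_eq ?_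
      ring
  have q1 : ∀ z w, ι z * w = ι (z * p w + χ w • z) := fun z w => by
    rw [map_add, hm, p2, map_smul, mul_sub, mul_smul_comm, mul_one, sub_add_cancel]
  have q2 : ∀ z w, w * ι z = ι z * w := fun z w => by
    rw [q1, hc, map_add, hm, p2, map_smul, sub_mul, smul_mul_assoc, one_mul, sub_add_cancel]
  have est : ∀ n (z : A) (e : ℂ), ‖z‖ ≤ 2 → ‖μ n z - e * μ n (s n)‖ ≤ 21 * c (n + 2) → ∀ w,
      ‖L n (ι z * w) - e * χ w‖ ≤ 9 * (1 / 2) ^ n / (24 / c (n + 1)) * ‖w‖ := by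
    intro n z e k1 k2 w
    have k0 : μ n (s n) ≠ 0 := norm_pos_iff.1 ((half_pos (c0 n)).trans_le (s1 n))
    have k3 : L n (ι z * w) - e * χ w =
        (μ n (s n))⁻¹ * (μ n (z * p w) + χ w * (μ n z - e * μ n (s n))) := by
      change (μ n (s n))⁻¹ * μ n (p (ι z * w)) - _ = _
      rw [q1, p1, map_add, map_smul, smul_eq_mul]
      field_simp
      ring
    have k4 : ‖μ n (z * p w)‖ ≤ 3 * c (n + 2) * (2 * (2 * ‖w‖)) :=
      (g3 n _ _).trans (mul_le_mul_of_nonneg_left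
        (mul_le_mul k1 (p3 w) (norm_nonneg _) (by norm_num)) (by have := c0 (n + 2); positivity))
    have k5 : ‖χ w * (μ n z - e * μ n (s n))‖ ≤ ‖w‖ * (21 * c (n + 2)) := by
      rw [norm_mul]; exact mul_le_mul (hn w) k2 (norm_nonneg _) (norm_nonneg _)
    have k6 : ‖μ n (z * p w) + χ w * (μ n z - e * μ n (s n))‖ ≤
        33 * ((1 / 2) ^ n * c n * c (n + 1) / 256) * ‖w‖ := by
      have := mul_le_mul_of_nonneg_right (c3 n) (norm_nonneg w)
      linarith [norm_add_le (μ n (z * p w)) (χ w * (μ n z - e * μ n (s n)))]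
    have k7 := c0 n
    have k8 := c0 (n + 1)
    rw [k3, norm_mul]
    refine (mul_le_mul (s2 n) k6 (norm_nonneg _) (by positivity)).trans ?_
    have k9 : 2 / c n * (33 * ((1 / 2) ^ n * c n * c (n + 1) / 256) * ‖w‖) =
        66 / 256 * ((1 / 2) ^ n * c (n + 1) * ‖w‖) := by field_simp; ring
    have k10 : 9 * (1 / 2) ^ n / (24 / c (n + 1)) * ‖w‖ =
        9 / 24 * ((1 / 2) ^ n * c (n + 1) * ‖w‖) := by field_simp
    rw [k9, k10]
    exact mul_le_mul_of_nonneg_right (by norm_num) (by positivity)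
  have sl : ∀ n, ∑ k : Fin 3, ‖(if k = 0 then L n else 0)‖ = ‖L n‖ := fun n => by
    simp [Fin.sum_univ_three]
  have z0 : ∀ n (w : WithLp 1 (Unitization ℂ A)),
      0 ≤ 9 * (1 / 2) ^ n / (24 / c (n + 1)) * ‖w‖ := fun n w => by
    have := c0 (n + 1); positivity
  refine chain χ hmul hn hB
    (fun k t => if k = 0 then ι (t.elim a fun i => if i = 0 then b else 0) else 0)
    (fun k t => if k = 0 then ι (t.elim b fun i => if i = 0 then -a else 0) else 0)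
    (fun n k => if k = 0 then L n else 0) (fun n => 24 / c (n + 1)) (fun k t => ?_)
    (fun k t => ?_) (fun k j => ?_) (fun n => ?_) (fun n => ?_) (fun n => ?_) (fun n => ?_)
    (fun n t w hn0 => ?_) (fun n t w hn0 => ?_)
  · split_ifs <;> simp [h0]
  · split_ifs <;> simp [h0]
  · by_cases hk : k = 0 <;> by_cases hj : j = 0 <;>
      simp [hk, hj, Fintype.sum_option, Fin.sum_univ_three, ← hm, hc a b]
  · rw [le_div_iff₀ (c0 _)]; linarith [c4 (n + 1)]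
  · exact div_le_div_of_nonneg_left (by norm_num) (c0 _) (cm _)
  · rw [sl]; exact (L1 n).trans (div_le_div_of_nonneg_left (by norm_num) (c0 _) (cm _))
  · rw [sl]; exact L1 _
  · rcases t with _ | i
    · simpa [Fin.sum_univ_three] using est n a 1 a1
        (by have := c0 (n + 2); simp [hs, hn0]; positivity) w
    · by_cases hi : i = 0
      · simpa [Fin.sum_univ_three, hi] using est n b 0 b1 (by simpa [hn0] using b2 n) w
      · simpa [Fin.sum_univ_three, hi] using z0 n w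
  · rcases t with _ | i
    · simpa [Fin.sum_univ_three, q2] using est n b 1 b1
        (by have := c0 (n + 2); simp [hs, hn0]; positivity) w
    · by_cases hi : i = 0
      · simpa [Fin.sum_univ_three, hi, q2] using est n a 0 a1 (by simpa [hn0] using a2 n) w
      · simpa [Fin.sum_univ_three, hi] using z0 n w

end Pool.Agent.Lib.MP_bcc96c_an
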