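import Mathlib

/-! From a lower bound for the adjoint of the product map to absolutely convergent sums of
products. -/

namespace Pool.Agent.Lib.MP_bcc96c_an

universe u

variable {A : Type u} [NonUnitalNormedRing A] [NormedSpace ℂ A] [IsScalarTower ℂ A A]

theorem wf_step {C : ℝ} (hC : ∀ (l : A →L[ℂ] ℂ) (d : ℝ), 0 ≤ d →
      (∀ y w, ‖l (y * w)‖ ≤ d * (‖y‖ * ‖w‖)) → ‖l‖ ≤ C * d) (a : A) :
    ∃ (ι : Type) (_ : Fintype ι) (b c : ι → A), ∑ i, ‖b i‖ * ‖c i‖ ≤ (|C| + 1) * ‖a‖ ∧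
      ‖a - ∑ i, b i * c i‖ ≤ ‖a‖ / 2 := by
  rcases eq_or_ne a 0 with rfl | ha
  · exact ⟨Empty, inferInstance, fun _ => 0, fun _ => 0, by simp, by simp⟩
  have ha0 : 0 < ‖a‖ := norm_pos_iff.2 ha
  set t : ℝ := (|C| + 1) * ‖a‖ with ht
  have ht0 : 0 < t := by positivity
  set Q : Set A := {z | ∃ (ι : Type) (_ : Fintype ι) (b c : ι → A),
    ∑ i, ‖b i‖ * ‖c i‖ ≤ t ∧ ∑ i, b i * c i = z} with hQ
  have hconv : Convex ℝ Q := by
    rintro _ ⟨ι, _, b, c, h1, rfl⟩ _ ⟨κ, _, b', c', h2, rfl⟩ α β hα hβ hαβ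
    refine ⟨ι ⊕ κ, inferInstance, Sum.elim (fun i => (α : ℂ) • b i) fun i => (β : ℂ) • b' i,
      Sum.elim c c', ?_, ?_⟩
    · simp only [Fintype.sum_sum_type, Sum.elim_inl, Sum.elim_inr, norm_smul, Complex.norm_real,
        Real.norm_of_nonneg hα, Real.norm_of_nonneg hβ, mul_assoc, ← Finset.mul_sum]
      have k1 := mul_le_mul_of_nonneg_left h1 hα
      have k2 := mul_le_mul_of_nonneg_left h2 hβ
      have k3 : α * t + β * t = t := by rw [← add_mul, hαβ, one_mul]
      linarith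
    · simp only [Fintype.sum_sum_type, Sum.elim_inl, Sum.elim_inr, smul_mul_assoc,
        ← Finset.smul_sum, Complex.coe_smul]
  have hone : ∀ y w : A, ‖y‖ * ‖w‖ ≤ t → y * w ∈ closure Q := fun y w h =>
    subset_closure ⟨Unit, inferInstance, fun _ => y, fun _ => w, by simpa using h, by simp⟩
  have hmem : a ∈ closure Q := by
    by_contra hno
    obtain ⟨f, u, f1, f2⟩ := RCLike.geometric_hahn_banach_closed_point (𝕜 := ℂ) hconv.closure
      isClosed_closure hno
    have u0 : 0 < u := by simpa using f1 _ (hone 0 0 (by simpa using ht0.le))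
    have k1 : ∀ y w, ‖f (y * w)‖ ≤ u / t * (‖y‖ * ‖w‖) := by
      intro y w
      rcases (mul_nonneg (norm_nonneg y) (norm_nonneg w)).eq_or_lt with h0 | h0
      · have : y * w = 0 := norm_le_zero_iff.1 ((norm_mul_le y w).trans h0.ge)
        rw [this, map_zero, norm_zero]; positivity
      obtain ⟨σ, σ1, σ2⟩ := Complex.exists_norm_eq_mul_self (f (y * w))
      have k2 := f1 _ (hone ((((t / (‖y‖ * ‖w‖) : ℝ) : ℂ) * σ) • y) w (by
        rw [norm_smul, norm_mul, σ1, mul_one, Complex.norm_real,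
          Real.norm_of_nonneg (by positivity), mul_assoc, div_mul_cancel₀ _ h0.ne']))
      rw [smul_mul_assoc, map_smul, smul_eq_mul, mul_assoc, ← σ2, ← Complex.ofReal_mul] at k2
      have k3 : t / (‖y‖ * ‖w‖) * ‖f (y * w)‖ < u := k2
      rw [div_mul_eq_mul_div, div_lt_iff₀ h0] at k3
      rw [div_mul_eq_mul_div, le_div_iff₀ ht0]
      linarith
    have k4 : ‖f‖ ≤ (|C| + 1) * (u / t) := (hC f _ (by positivity) k1).trans
      (mul_le_mul_of_nonneg_right (by linarith [le_abs_self C]) (by positivity))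
    have k5 : ‖f a‖ ≤ (|C| + 1) * (u / t) * ‖a‖ :=
      (f.le_opNorm a).trans (mul_le_mul_of_nonneg_right k4 ha0.le)
    have k6 : (|C| + 1) * (u / t) * ‖a‖ = u := by rw [ht]; field_simp
    have k7 : RCLike.re (f a) ≤ ‖f a‖ := RCLike.re_le_norm _
    linarith
  obtain ⟨_, ⟨ι, hι, b, c, h1, rfl⟩, h2⟩ := Metric.mem_closure_iff.1 hmem _ (half_pos ha0)
  exact ⟨ι, hι, b, c, h1, by rw [← dist_eq_norm]; exact h2.le⟩

theorem wf_series [CompleteSpace A] {C : ℝ} (hC : ∀ (l : A →L[ℂ] ℂ) (d : ℝ), 0 ≤ d →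
      (∀ y w, ‖l (y * w)‖ ≤ d * (‖y‖ * ‖w‖)) → ‖l‖ ≤ C * d) (a : A) :
    ∃ b c : ℕ → A, Summable (fun j => ‖b j‖ * ‖c j‖) ∧
      ∑' j, ‖b j‖ * ‖c j‖ ≤ 2 * (|C| + 1) * ‖a‖ ∧ HasSum (fun j => b j * c j) a := by
  choose ι hι b c g1 g2 using wf_step hC
  let r : ℕ → A := fun n => Nat.rec a (fun _ z => z - ∑ i, b z i * c z i) n
  have r1 : ∀ n, r (n + 1) = r n - ∑ i, b (r n) i * c (r n) i := fun n => rfl
  have r2 : ∀ n, ‖r n‖ ≤ ‖a‖ * (1 / 2) ^ n := by
    intro n
    induction n with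
    | zero => simp [r]
    | succ n ih => rw [r1, pow_succ]; linarith [g2 (r n)]
  have r3 : ∀ n, ∑ i, ‖b (r n) i‖ * ‖c (r n) i‖ ≤ (|C| + 1) * ‖a‖ * (1 / 2) ^ n := fun n =>
    (g1 _).trans (by rw [mul_assoc]; exact mul_le_mul_of_nonneg_left (r2 n) (by positivity))
  have geo := hasSum_geometric_two.mul_left ((|C| + 1) * ‖a‖)
  let β : (Σ n, ι (r n)) → A := fun x => b (r x.1) x.2
  let γ : (Σ n, ι (r n)) → A := fun x => c (r x.1) x.2
  have s0 : Summable fun n => ∑ i, ‖b (r n) i‖ * ‖c (r n) i‖ :=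
    Summable.of_nonneg_of_le (fun n => by positivity) r3 geo.summable
  have s1 : Summable fun x => ‖β x‖ * ‖γ x‖ :=
    (summable_sigma_of_nonneg fun x => by positivity).2
      ⟨fun n => (hasSum_fintype _).summable, by simpa [tsum_fintype] using s0⟩
  have s2 : ∑' x, ‖β x‖ * ‖γ x‖ ≤ (|C| + 1) * ‖a‖ * 2 :=
    hasSum_le r3 (s1.hasSum.sigma fun n => hasSum_fintype _) geo
  have s3 : Summable fun x => β x * γ x := Summable.of_norm_bounded s1 fun x => norm_mul_le _ _
  have s4 : ∑' x, β x * γ x = a := by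
    have k1 := (s3.hasSum.sigma fun n => hasSum_fintype _).tendsto_sum_nat
    have k2 : ∀ n, ∑ k ∈ Finset.range n, ∑ i, b (r k) i * c (r k) i = a - r n := by
      intro n
      induction n with
      | zero => simp [r]
      | succ n ih => rw [Finset.sum_range_succ, ih, r1]; abel
    have k3 : Filter.Tendsto r Filter.atTop (nhds 0) :=
      squeeze_zero_norm r2 (by
        simpa using (tendsto_pow_atTop_nhds_zero_of_lt_one (r := (1 / 2 : ℝ)) (by norm_num)
          (by norm_num)).const_mul ‖a‖)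
    have k4 := (tendsto_const_nhds (x := a)).sub k3
    rw [sub_zero] at k4
    exact tendsto_nhds_unique k1 (k4.congr fun n => (k2 n).symm)
  obtain ⟨e, he⟩ := Countable.exists_injective_nat (Σ n, ι (r n))
  have x1 : (fun j => ‖Function.extend e β 0 j‖ * ‖Function.extend e γ 0 j‖) =
      Function.extend e (fun x => ‖β x‖ * ‖γ x‖) 0 := by
    funext j
    by_cases hj : ∃ x, e x = j
    · obtain ⟨x, rfl⟩ := hj
      simp only [he.extend_apply]
    · simp [Function.extend_apply' _ _ _ hj]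
  have x2 : (fun j => Function.extend e β 0 j * Function.extend e γ 0 j) =
      Function.extend e (fun x => β x * γ x) 0 := by
    funext j
    by_cases hj : ∃ x, e x = j
    · obtain ⟨x, rfl⟩ := hj
      simp only [he.extend_apply]
    · simp [Function.extend_apply' _ _ _ hj]
  have x3 := (hasSum_extend_zero he).2 s1.hasSum
  refine ⟨Function.extend e β 0, Function.extend e γ 0, x1 ▸ x3.summable, ?_, ?_⟩
  · rw [x1, x3.tsum_eq]; linarith
  · rw [x2, ← s4]; exact (hasSum_extend_zero he).2 s3.hasSum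

end Pool.Agent.Lib.MP_bcc96c_an
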