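import Pool.Agent.Lib.MP_bcc96c_an.Basic

/-! Pietsch domination for a summing operator on the dual of a normed space. -/

namespace Pool.Agent.Lib.MP_bcc96c_an

open BoundedContinuousFunction

variable {A : Type*} [NormedAddCommGroup A] [NormedSpace ℂ A]

/-- The function `v ↦ Re (μ v * conj (ν v))` on the closed unit ball. -/
noncomputable def gr (μ ν : A →L[ℂ] ℂ) : (Metric.closedBall (0 : A) 1) →ᵇ ℝ :=
  ofNormedAddCommGroup (fun v => (μ v).re * (ν v).re + (μ v).im * (ν v).im) (by fun_prop)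
    (2 * (‖μ‖ * ‖ν‖)) (fun v => by
      have hv : ‖(v : A)‖ ≤ 1 := mem_closedBall_zero_iff.1 v.2
      have h1 : ‖μ v‖ ≤ ‖μ‖ := (μ.le_opNorm _).trans (by nlinarith [norm_nonneg μ])
      have h2 : ‖ν v‖ ≤ ‖ν‖ := (ν.le_opNorm _).trans (by nlinarith [norm_nonneg ν])
      have h3 := (Complex.abs_re_le_norm (μ v)).trans h1
      have h4 := (Complex.abs_im_le_norm (μ v)).trans h1
      have h5 := (Complex.abs_re_le_norm (ν v)).trans h2
      have h6 := (Complex.abs_im_le_norm (ν v)).trans h2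
      rw [Real.norm_eq_abs]
      refine (abs_add_le _ _).trans ?_
      rw [abs_mul, abs_mul, two_mul]
      gcongr)

theorem gr_apply (μ ν : A →L[ℂ] ℂ) (v : Metric.closedBall (0 : A) 1) :
    gr μ ν v = (μ v).re * (ν v).re + (μ v).im * (ν v).im := rfl

theorem gr_self (μ : A →L[ℂ] ℂ) (v : Metric.closedBall (0 : A) 1) : gr μ μ v = ‖μ v‖ ^ 2 := by
  rw [gr_apply, Complex.sq_norm, Complex.normSq_apply]

theorem nonneg_of_scale {u x : ℝ} (h : ∀ t : ℝ, 0 < t → u ≤ t ^ 2 * x) : 0 ≤ x := by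
  by_contra hx
  push Not at hx
  have h1 := h (|u| / (-x) + 1) (by have : 0 < -x := by linarith
                                    positivity)
  have h2 : 0 ≤ |u| / (-x) := div_nonneg (abs_nonneg _) (by linarith)
  have h3 : |u| / (-x) * x = -|u| := by
    have : x ≠ 0 := hx.ne
    field_simp
  have h4 := neg_abs_le u
  nlinarith [mul_nonneg h2 h2, mul_nonneg (mul_nonneg h2 h2) (neg_nonneg.2 hx.le)]

theorem pietsch (I : (A →L[ℂ] ℂ) →L[ℂ] (A →L[ℂ] ℂ)) {c : ℝ} (hc : 0 ≤ c)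
    (hI : ∀ (ι : Type) [Fintype ι] (a : ι → A) (μ : ι → A →L[ℂ] ℂ) (s : ℝ),
      (∀ v : A, ‖v‖ ≤ 1 → c * ∑ k, ‖a k‖ * ‖μ k v‖ ≤ s) → ‖∑ k, I (μ k) (a k)‖ ≤ s) :
    ∃ b : (A →L[ℂ] ℂ) →ₗ[ℝ] (A →L[ℂ] ℂ) →ₗ[ℝ] ℝ, (∀ μ ν, b μ ν = b ν μ) ∧ (∀ μ, 0 ≤ b μ μ) ∧
      (∀ μ, ‖I μ‖ ≤ c * √(b μ μ)) ∧
      ∀ (n : ℕ) (μ : Fin n → A →L[ℂ] ℂ) (s : ℝ),
        (∀ v : A, ‖v‖ ≤ 1 → ∑ k, ‖μ k v‖ ^ 2 ≤ s) → ∑ k, b (μ k) (μ k) ≤ s := by
  classical
  let G : Set ((Metric.closedBall (0 : A) 1) →ᵇ ℝ) :=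
    {f | ∃ (a : A) (μ : A →L[ℂ] ℂ), ∀ v : Metric.closedBall (0 : A) 1,
      c / 2 * (‖a‖ ^ 2 + ‖μ v‖ ^ 2) - (I μ a).re ≤ f v}
  have hdis : Disjoint (Metric.ball (-1 : (Metric.closedBall (0 : A) 1) →ᵇ ℝ) 1)
      (convexHull ℝ G) := by
    rw [Set.disjoint_left]
    intro f hf hG
    obtain ⟨ι, _, w, z, hw0, hw1, hz, hf'⟩ := mem_convexHull_iff_exists_fintype.1 hG
    choose a μ haμ using hz
    rw [mem_ball_iff_norm] at hf
    have hfv : ∀ v, f v ≤ ‖f - -1‖ - 1 := fun v => by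
      have := (le_abs_self _).trans ((f - -1).norm_coe_le_norm v)
      simp only [coe_sub, coe_neg, coe_one, Pi.sub_apply, Pi.neg_apply, Pi.one_apply] at this
      linarith
    have key := hI ι (fun k => (w k : ℂ) • a k) μ
      (∑ k, w k * (I (μ k) (a k)).re + (‖f - -1‖ - 1)) (by
        intro v hv
        have h1 := hfv ⟨v, mem_closedBall_zero_iff.2 hv⟩
        rw [← hf', BoundedContinuousFunction.sum_apply] at h1
        have h2 : c * ∑ k, ‖(w k : ℂ) • a k‖ * ‖μ k v‖ ≤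
            ∑ k, (w k * (I (μ k) (a k)).re + (w k • z k) ⟨v, mem_closedBall_zero_iff.2 hv⟩) := by
          rw [Finset.mul_sum]
          refine Finset.sum_le_sum fun k _ => ?_
          have h3 := haμ k ⟨v, mem_closedBall_zero_iff.2 hv⟩
          rw [norm_smul, Complex.norm_real, Real.norm_eq_abs, abs_of_nonneg (hw0 k), coe_smul]
          simp only [smul_eq_mul] at h3 ⊢
          have h4 : c * (‖a k‖ * ‖μ k v‖) ≤ c / 2 * (‖a k‖ ^ 2 + ‖μ k v‖ ^ 2) := by
            nlinarith [mul_nonneg hc (sq_nonneg (‖a k‖ - ‖μ k v‖))]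
          nlinarith [mul_le_mul_of_nonneg_left (h4.trans (sub_le_iff_le_add.1 h3)) (hw0 k)]
        rw [Finset.sum_add_distrib] at h2
        rw [← hf']
        linarith)
    have h5 := (Complex.re_le_norm _).trans key
    rw [Complex.re_sum] at h5
    simp only [map_smul, smul_eq_mul, Complex.re_ofReal_mul] at h5
    linarith
  obtain ⟨p, u, h1, h2⟩ := geometric_hahn_banach_open (convex_ball _ _) Metric.isOpen_ball
    (convex_convexHull ℝ G) hdis
  have hG : ∀ f ∈ G, u ≤ p f := fun f hf => h2 f (subset_convexHull ℝ G hf)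
  have hpos : ∀ f : (Metric.closedBall (0 : A) 1) →ᵇ ℝ, (∀ v, 0 ≤ f v) → 0 ≤ p f := by
    intro f hf
    refine nonneg_of_scale (u := u) fun t _ => ?_
    have := hG (t ^ 2 • f) ⟨0, 0, fun v => by
      simpa using mul_nonneg (sq_nonneg t) (hf v)⟩
    simpa using this
  have hu : u ≤ 0 := by simpa using hG 0 ⟨0, 0, fun v => by simp⟩
  have hp1 : 0 < p 1 := by
    have := h1 (-1) (Metric.mem_ball_self one_pos)
    rw [map_neg] at this
    linarith
  let b : (A →L[ℂ] ℂ) →ₗ[ℝ] (A →L[ℂ] ℂ) →ₗ[ℝ] ℝ :=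
    LinearMap.mk₂ ℝ (fun μ ν => p (gr μ ν) / p 1)
      (fun μ μ' ν => by
        rw [← add_div, ← map_add]; congr 2; ext v; simp [gr_apply]; ring)
      (fun r μ ν => by
        rw [smul_eq_mul, ← mul_div_assoc, ← smul_eq_mul, ← map_smul]; congr 2; ext v
        simp [gr_apply]; ring)
      (fun μ ν ν' => by
        rw [← add_div, ← map_add]; congr 2; ext v; simp [gr_apply]; ring)
      (fun r μ ν => by
        rw [smul_eq_mul, ← mul_div_assoc, ← smul_eq_mul, ← map_smul]; congr 2; ext v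
        simp [gr_apply]; ring)
  have hb : ∀ μ ν, b μ ν = p (gr μ ν) / p 1 := fun _ _ => rfl
  have hb0 : ∀ μ, 0 ≤ b μ μ := fun μ =>
    div_nonneg (hpos _ fun v => by rw [gr_self]; positivity) hp1.le
  have hQ : ∀ (a : A) (μ : A →L[ℂ] ℂ), (I μ a).re ≤ c / 2 * (‖a‖ ^ 2 + b μ μ) := by
    intro a μ
    have : 0 ≤ (c / 2 * ‖a‖ ^ 2 - (I μ a).re) * p 1 + c / 2 * p (gr μ μ) := by
      refine nonneg_of_scale (u := u) fun t ht => ?_
      have := hG (t ^ 2 • ((c / 2 * ‖a‖ ^ 2 - (I μ a).re) • 1 + (c / 2) • gr μ μ))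
        ⟨(t : ℂ) • a, (t : ℂ) • μ, fun v => by
          simp only [norm_smul, Complex.norm_real, Real.norm_eq_abs, abs_of_pos ht, map_smul,
            ContinuousLinearMap.smul_apply, smul_eq_mul, Complex.re_ofReal_mul, coe_smul,
            coe_add, Pi.add_apply, coe_one, Pi.one_apply, gr_self, norm_mul]
          exact le_of_eq (by ring)⟩
      simpa only [map_smul, map_add, smul_eq_mul] using this
    rw [hb]
    have h3 : p (gr μ μ) = p (gr μ μ) / p 1 * p 1 := by field_simp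
    rw [h3] at this
    by_contra hlt
    push Not at hlt
    nlinarith
  refine ⟨b, fun μ ν => ?_, hb0, fun μ => ?_, fun n μ s hs => ?_⟩
  · rw [hb, hb]; congr 2; ext v; simp [gr_apply]; ring
  · refine le_of_forall_pos_le_add fun η hη => ?_
    set q := √(b μ μ) with hq
    have hq0 : 0 ≤ q := Real.sqrt_nonneg _
    have hq2 : b μ μ = q ^ 2 := (Real.sq_sqrt (hb0 μ)).symm
    have ht : 0 < q + η / (c + 1) := by positivity
    have := re_le_of_ball (I μ) ht.le (u := c * (q + η / (c + 1)) ^ 2) (fun w hw => by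
      refine (hQ w μ).trans ?_
      have h3 : ‖w‖ ^ 2 ≤ (q + η / (c + 1)) ^ 2 := by gcongr
      have h4 : q ^ 2 ≤ (q + η / (c + 1)) ^ 2 := by
        gcongr
        exact le_add_of_nonneg_right (by positivity)
      rw [hq2]
      nlinarith) (by positivity)
    have h5 : ‖I μ‖ ≤ c * (q + η / (c + 1)) := by
      by_contra hlt
      push Not at hlt
      nlinarith
    have h6 : c * (η / (c + 1)) ≤ η := by
      rw [← mul_div_assoc, div_le_iff₀ (by positivity)]
      nlinarith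
    linarith
  · have := hpos (s • 1 - ∑ k, gr (μ k) (μ k)) fun v => by
      have := hs v (mem_closedBall_zero_iff.1 v.2)
      simp only [coe_sub, Pi.sub_apply, coe_smul, coe_one, Pi.one_apply, smul_eq_mul, mul_one,
        BoundedContinuousFunction.sum_apply, gr_self]
      linarith
    rw [map_sub, map_smul, map_sum, smul_eq_mul] at this
    simp only [hb]
    rw [← Finset.sum_div, div_le_iff₀ hp1]
    linarith

end Pool.Agent.Lib.MP_bcc96c_an
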