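import Pool.Agent.Lib.MP_bcc96c_an.Defs
import Pool.Agent.Lib.MP_bcc96c_an.Main

/-! Passing from one side to both sides. -/

set_option maxSynthPendingDepth 3

namespace Pool.Agent.Lib.MP_bcc96c_an

universe u

variable {A : Type u} [NonUnitalNormedRing A]

theorem two_sided (hl : HasBLAI A) (hr : HasBRAI A) :
    ∃ K : ℝ, ∀ F : Finset A, ∀ ε : ℝ, 0 < ε →
      ∃ e : A, ‖e‖ ≤ K ∧ ∀ a ∈ F, ‖e * a - a‖ < ε ∧ ‖a * e - a‖ < ε := by
  obtain ⟨K, hK⟩ := hl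
  obtain ⟨L, hL⟩ := hr
  refine ⟨|K| + |L| + |L| * |K|, fun F ε hε => ?_⟩
  obtain ⟨e, he, he'⟩ := hK F (ε / (|L| + 1)) (by positivity)
  obtain ⟨f, hf, hf'⟩ := hL F (ε / (|K| + 1)) (by positivity)
  replace he := he.trans (le_abs_self K)
  replace hf := hf.trans (le_abs_self L)
  refine ⟨e + f - f * e, ?_, fun a ha => ⟨?_, ?_⟩⟩
  · refine (norm_sub_le _ _).trans (add_le_add ((norm_add_le _ _).trans (add_le_add he hf)) ?_)
    exact (norm_mul_le _ _).trans (by gcongr)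
  · have h1 : (e + f - f * e) * a - a = (e * a - a) - f * (e * a - a) := by noncomm_ring
    have h2 := he' a ha
    rw [lt_div_iff₀ (by positivity)] at h2
    have h3 : ‖f * (e * a - a)‖ ≤ |L| * ‖e * a - a‖ := (norm_mul_le _ _).trans (by gcongr)
    rw [h1]
    refine (norm_sub_le _ _).trans_lt ?_
    linarith
  · have h1 : a * (e + f - f * e) - a = (a * f - a) - (a * f - a) * e := by noncomm_ring
    have h2 := hf' a ha
    rw [lt_div_iff₀ (by positivity)] at h2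
    have h3 : ‖(a * f - a) * e‖ ≤ ‖a * f - a‖ * |K| := (norm_mul_le _ _).trans (by gcongr)
    rw [h1]
    refine (norm_sub_le _ _).trans_lt ?_
    linarith

theorem flip_side (m m' : A → A → A) (σ : A → A) {c : ℝ} (hc : 0 ≤ c)
    (hσ : ∀ a, ‖σ a‖ ≤ c * ‖a‖) (hsub : ∀ a b, σ (a - b) = σ a - σ b) (hd : DenseRange σ)
    (hm : ∀ e a, σ (m e a) = m' (σ e) (σ a))
    (hm' : ∀ e a b, ‖m' e a - m' e b‖ ≤ ‖e‖ * ‖a - b‖)
    (h : ∃ K : ℝ, ∀ F : Finset A, ∀ ε : ℝ, 0 < ε → ∃ e : A, ‖e‖ ≤ K ∧ ∀ a ∈ F, ‖m e a - a‖ < ε) :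
    ∃ K : ℝ, ∀ F : Finset A, ∀ ε : ℝ, 0 < ε → ∃ e : A, ‖e‖ ≤ K ∧ ∀ a ∈ F, ‖m' e a - a‖ < ε := by
  classical
  obtain ⟨K, hK⟩ := h
  refine ⟨c * |K|, fun F ε hε => ?_⟩
  set δ : ℝ := ε / (c * |K| + c + 2) with hδ
  have hδ0 : 0 < δ := by positivity
  choose g hg using fun a => hd.exists_dist_lt a hδ0
  obtain ⟨e, he, he'⟩ := hK (F.image g) δ hδ0
  have h1 : ‖σ e‖ ≤ c * |K| := (hσ e).trans (by gcongr; exact he.trans (le_abs_self K))
  refine ⟨σ e, h1, fun a ha => ?_⟩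
  have h2 : ‖a - σ (g a)‖ < δ := by simpa [dist_eq_norm] using hg a
  have h3 : ‖m' (σ e) (σ (g a)) - σ (g a)‖ ≤ c * δ := by
    rw [← hm, ← hsub]
    exact (hσ _).trans (mul_le_mul_of_nonneg_left (he' _ (Finset.mem_image_of_mem g ha)).le hc)
  have h4 : ‖m' (σ e) a - m' (σ e) (σ (g a))‖ ≤ c * |K| * δ :=
    (hm' _ _ _).trans (by gcongr)
  have h5 : m' (σ e) a - a = (m' (σ e) a - m' (σ e) (σ (g a))) +
      (m' (σ e) (σ (g a)) - σ (g a)) - (a - σ (g a)) := by abel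
  have h6 : (c * |K| + c + 2) * δ = ε := by rw [hδ]; field_simp
  rw [h5]
  refine (norm_sub_le _ _).trans_lt ?_
  have h7 := norm_add_le (m' (σ e) a - m' (σ e) (σ (g a))) (m' (σ e) (σ (g a)) - σ (g a))
  nlinarith

theorem self_opposite [NormedSpace ℂ A] [IsScalarTower ℂ A A] [SMulCommClass ℂ A A]
    (h : BAA A) (σ : A →+ A) (hσ : Continuous σ) (hd : DenseRange σ)
    (hm : ∀ a b, σ (a * b) = σ b * σ a) :
    ∃ K : ℝ, ∀ F : Finset A, ∀ ε : ℝ, 0 < ε →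
      ∃ e : A, ‖e‖ ≤ K ∧ ∀ a ∈ F, ‖e * a - a‖ < ε ∧ ‖a * e - a‖ < ε := by
  obtain ⟨C, hC⟩ := h (XM A) (LM A) (RM A) ⟨LM_mul, RM_mul, LM_RM⟩ (DM A) DM_mul
  have hb : ∀ a, ‖σ a‖ ≤ ‖σ.toRealLinearMap hσ‖ * ‖a‖ := fun a =>
    (σ.toRealLinearMap hσ).le_opNorm a
  rcases (dichotomy hC).2 with h1 | h1
  · refine two_sided h1 (flip_side (fun e a => e * a) (fun e a => a * e) σ (norm_nonneg _) hb
      σ.map_sub hd (fun e a => hm e a) (fun e a b => ?_) h1)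
    rw [← sub_mul, mul_comm]
    exact norm_mul_le _ _
  · refine two_sided (flip_side (fun e a => a * e) (fun e a => e * a) σ (norm_nonneg _) hb
      σ.map_sub hd (fun e a => hm a e) (fun e a b => ?_) h1) h1
    rw [← mul_sub]
    exact norm_mul_le _ _

end Pool.Agent.Lib.MP_bcc96c_an
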