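import Pool.Agent.Lib.MP_bcc96c_an.UnbKey

/-! Two elements with product zero and an interlaced chain of functionals. -/

namespace Pool.Agent.Lib.MP_bcc96c_an

open MulOpposite

variable {A : Type*} [NonUnitalNormedRing A] [NormedSpace ℂ A] [IsScalarTower ℂ A A]
  [SMulCommClass ℂ A A]

/-- The product in the order fixed by the parity of `n`. -/
def mu (n : ℕ) (x y : A) : A := if n % 2 = 0 then x * y else y * x

/-- The conclusion of the key lemma on the side fixed by the parity of `n`. -/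
def Good (n : ℕ) (V W : A) (d : ℝ) (x : A) (ν : A →L[ℂ] ℂ) : Prop :=
  ‖x‖ ≤ 1 ∧ (∀ y, y * V = y → x * y = 0 ∧ y * x = 0) ∧ ν x = 1 ∧ ‖ν‖ ≤ 4 * (1 + ‖W‖) ∧
    (∀ y, ‖ν (mu n x y)‖ ≤ d * ‖y‖) ∧ ∀ y, y * W = y → ν y = 0

omit [NormedSpace ℂ A] [IsScalarTower ℂ A A] [SMulCommClass ℂ A A] in
theorem dense_op (hD : Dense (LU A)) : Dense (LU Aᵐᵒᵖ) := by
  have h := (opHomeomorph (M := A)).surjective.denseRange.dense_image
    (opHomeomorph (M := A)).continuous hD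
  refine h.mono ?_
  rintro _ ⟨x, ⟨z, hz, hx⟩, rfl⟩
  refine ⟨op z, fun y => unop_injective (hz y.unop).symm, unop_injective ?_⟩
  change z * x = x
  rw [hz, hx]

theorem step (hD : Dense (LU A))
    (hno : ¬ ∃ K : ℝ, ∀ F : Finset A, ∀ ε : ℝ, 0 < ε →
      ∃ e : A, ‖e‖ ≤ K ∧ ∀ a ∈ F, ‖e * a - a‖ < ε ∧ ‖a * e - a‖ < ε)
    (n : ℕ) (V W : A) (hV : ∀ y, V * y = y * V) (hW : ∀ y, W * y = y * W) {d : ℝ} (hd : 0 < d) :
    ∃ (x : A) (ν : A →L[ℂ] ℂ) (z : A), (∀ y, z * y = y * z) ∧ x * z = x ∧ Good n V W d x ν := by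
  by_cases hn : n % 2 = 0
  · obtain ⟨x, ν, ⟨z, hz, hx⟩, h1, h2, h3, h4, h5, h6⟩ := key hD (fun ⟨K, hK⟩ =>
      hno (bai_of_central hD (K := K) fun z _ ε hε => central_of_exact hD hK z ε hε))
      V W hV hW hd
    exact ⟨x, ν, z, hz, hx, h1, h2, h3, h4, fun y => by simpa [mu, hn] using h5 y, h6⟩
  · obtain ⟨x, ν, ⟨z, hz, hx⟩, h1, h2, h3, h4, h5, h6⟩ := key (dense_op hD) (fun ⟨K, hK⟩ =>
      hno (bai_of_central hD (K := K) fun z hz ε hε => by
        obtain ⟨e, he, h⟩ := central_of_exact (dense_op hD) hK (op z) ε hε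
        refine ⟨e.unop, he, ?_⟩
        rw [hz]
        exact h))
      (op V) (op W) (fun y => unop_injective (hV y.unop).symm)
      (fun y => unop_injective (hW y.unop).symm) hd
    have hz' : ∀ y : A, z.unop * y = y * z.unop := fun y => (congrArg unop (hz (op y))).symm
    refine ⟨x.unop, ν.comp (opLinearIsometryEquiv ℂ A).toContinuousLinearEquiv.toContinuousLinearMap,
      z.unop, hz', ?_, h1, fun y hy => ?_, h3, ?_, fun y => ?_, fun y hy => ?_⟩
    · rw [← hz']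
      exact congrArg unop hx
    · obtain ⟨k1, k2⟩ := h2 (op y) (unop_injective (by change V * y = y; rw [hV, hy]))
      exact ⟨congrArg unop k2, congrArg unop k1⟩
    · refine ContinuousLinearMap.opNorm_le_bound _ (by positivity) fun y => ?_
      exact (ν.le_opNorm (op y)).trans (mul_le_mul_of_nonneg_right h4 (norm_nonneg _))
    · rw [mu, if_neg hn]
      exact h5 (op y)
    · exact h6 (op y) (unop_injective (by change W * y = y; rw [hW, hy]))

theorem seq (hD : Dense (LU A))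
    (hno : ¬ ∃ K : ℝ, ∀ F : Finset A, ∀ ε : ℝ, 0 < ε →
      ∃ e : A, ‖e‖ ≤ K ∧ ∀ a ∈ F, ‖e * a - a‖ < ε ∧ ‖a * e - a‖ < ε) :
    ∃ (x : ℕ → A) (ν : ℕ → A →L[ℂ] ℂ) (V W : ℕ → A) (c P : ℕ → ℝ),
      (∀ n, Good n (V n) (W n) ((1 / 2) ^ n / (8 * P n)) (x n) (ν n)) ∧
      (∀ n y, W n * y = y * W n) ∧ (∀ m n, m < n → x m * V n = x m) ∧
      (∀ m n, m + 1 < n → x m * W n = x m) ∧ (∀ n, 0 < c n) ∧ c 0 = 1 ∧ c 1 = 1 / 2 ∧
      (∀ n, c (n + 2) = c (n + 1) * (1 / 2) ^ n / (8 * P n ^ 2)) ∧ (∀ n, 1 ≤ P n) ∧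
      (∀ n, P n ≤ P (n + 1)) ∧ (∀ n, 8 * (1 + ‖W n‖) ≤ P n * c n) ∧
      ∀ n, 8 * (1 + ‖W (n + 1)‖) ≤ P n * c (n + 1) := by
  choose X N Z hZ hX hG using fun (n : ℕ) (V W : {z : A // ∀ y, z * y = y * z})
    (P : {p : ℝ // 1 ≤ p}) => step hD hno n V.1 W.1 V.2 W.2
      (d := (1 / 2) ^ n / (8 * P.1)) (by have := P.2; positivity)
  let St := {z : A // ∀ y, z * y = y * z} × {z : A // ∀ y, z * y = y * z} ×
    {c : ℝ // 0 < c} × {p : ℝ // 1 ≤ p}
  let nV : ℕ → St → {z : A // ∀ y, z * y = y * z} := fun n s =>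
    ⟨s.1.1 + Z n s.1 s.2.1 s.2.2.2 - s.1.1 * Z n s.1 s.2.1 s.2.2.2, fun y => by
      rw [sub_mul, add_mul, mul_sub, mul_add, s.1.2 y, hZ, mul_assoc, hZ, ← mul_assoc, s.1.2 y,
        mul_assoc]⟩
  let nc : ℕ → St → {c : ℝ // 0 < c} := fun n s =>
    ⟨s.2.2.1.1 * (1 / 2) ^ n / (8 * s.2.2.2.1 ^ 2), by
      have := s.2.2.1.2
      have := s.2.2.2.2
      positivity⟩
  let f : ℕ → St → St := fun n s => (nV n s, s.1, nc n s,
    ⟨s.2.2.2.1 + 8 * (1 + ‖(nV n s).1‖) / (nc n s).1, by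
      have := (nc n s).2
      have h : 0 ≤ 8 * (1 + ‖(nV n s).1‖) / (nc n s).1 := by positivity
      linarith [s.2.2.2.2]⟩)
  let s0 : St := (⟨0, by simp⟩, ⟨0, by simp⟩, ⟨1 / 2, by norm_num⟩, ⟨16, by norm_num⟩)
  let s : ℕ → St := fun n => Nat.rec s0 f n
  have hs : ∀ n, s (n + 1) = f n (s n) := fun _ => rfl
  let x : ℕ → A := fun n => X n (s n).1 (s n).2.1 (s n).2.2.2
  let c : ℕ → ℝ := fun n => Nat.rec 1 (fun n _ => (s n).2.2.1.1) n
  have hV : ∀ m n, m < n → x m * (s n).1.1 = x m := by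
    intro m n
    induction n with
    | zero => simp
    | succ n ih =>
      intro h
      change x m * ((s n).1.1 + Z n (s n).1 (s n).2.1 (s n).2.2.2 -
        (s n).1.1 * Z n (s n).1 (s n).2.1 (s n).2.2.2) = x m
      rcases Nat.lt_succ_iff_lt_or_eq.1 h with h | rfl
      · rw [mul_sub, mul_add, ← mul_assoc, ih h]; abel
      · rw [mul_sub, mul_add, (s m).1.2 (Z _ _ _ _), ← mul_assoc, hX]; abel
  have hc : ∀ n, 0 < c n := fun n => by
    cases n with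
    | zero => exact one_pos
    | succ n => exact (s n).2.2.1.2
  have hP : ∀ n, 8 * (1 + ‖(s (n + 1)).2.1.1‖) ≤ (s n).2.2.2.1 * c (n + 1) := by
    intro n
    cases n with
    | zero =>
      change 8 * (1 + ‖(0 : A)‖) ≤ 16 * (1 / 2 : ℝ)
      norm_num
    | succ n =>
      change 8 * (1 + ‖(nV n (s n)).1‖) ≤
        ((s n).2.2.2.1 + 8 * (1 + ‖(nV n (s n)).1‖) / (nc n (s n)).1) * (nc n (s n)).1
      have h1 := (nc n (s n)).2
      have h2 := (s n).2.2.2.2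
      rw [add_mul, div_mul_cancel₀ _ h1.ne']
      nlinarith
  have hm : ∀ n, (s n).2.2.2.1 ≤ (s (n + 1)).2.2.2.1 := by
    intro n
    change _ ≤ (s n).2.2.2.1 + 8 * (1 + ‖(nV n (s n)).1‖) / (nc n (s n)).1
    have h1 := (nc n (s n)).2
    have h : 0 ≤ 8 * (1 + ‖(nV n (s n)).1‖) / (nc n (s n)).1 := by positivity
    linarith
  refine ⟨x, fun n => N n (s n).1 (s n).2.1 (s n).2.2.2, fun n => (s n).1.1,
    fun n => (s n).2.1.1, c, fun n => (s n).2.2.2.1, fun n => hG _ _ _ _, fun n => (s n).2.1.2,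
    hV, fun m n h => ?_, hc, rfl, rfl, fun n => rfl, fun n => (s n).2.2.2.2, hm, fun n => ?_, hP⟩
  · obtain ⟨n, rfl⟩ : ∃ k, n = k + 1 := ⟨n - 1, by omega⟩
    exact hV m n (by omega)
  · cases n with
    | zero =>
      change 8 * (1 + ‖(0 : A)‖) ≤ 16 * (1 : ℝ)
      norm_num
    | succ n => exact (hP n).trans (mul_le_mul_of_nonneg_right (hm n) (hc (n + 1)).le)

theorem pair [CompleteSpace A] (hD : Dense (LU A))
    (hno : ¬ ∃ K : ℝ, ∀ F : Finset A, ∀ ε : ℝ, 0 < ε →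
      ∃ e : A, ‖e‖ ≤ K ∧ ∀ a ∈ F, ‖e * a - a‖ < ε ∧ ‖a * e - a‖ < ε) :
    ∃ (S : ℕ → A) (l : ℕ → A →L[ℂ] ℂ) (P : ℕ → ℝ), S 0 * S 1 = 0 ∧ (∀ n, 1 ≤ P n) ∧
      (∀ n, l n (S (n % 2)) = 1) ∧ (∀ n, ‖l n‖ ≤ P n) ∧ (∀ n, ‖l (n + 1)‖ ≤ P n) ∧
      (∀ n, ‖l n‖ ≤ P (n + 1)) ∧
      ∀ n y, ‖l n (mu n (S (n % 2)) y)‖ ≤ (1 / 2) ^ n / (2 * P n) * ‖y‖ := by
  obtain ⟨x, ν, V, W, c, P, hG, hW, hxV, hxW, hc, c0, c1, hc2, hP, hm, hP1, hP2⟩ := seq hD hno
  have hhalf : ∀ n, c (n + 1) ≤ c n / 2 := by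
    intro n
    cases n with
    | zero => rw [c0]; exact (c1.trans (by norm_num)).le
    | succ n =>
      rw [hc2, div_le_div_iff₀ (by have := hP n; positivity) two_pos]
      have h1 : (1 / 2 : ℝ) ^ n ≤ 1 := pow_le_one₀ (by norm_num) (by norm_num)
      have h2 : 1 ≤ P n ^ 2 := one_le_pow₀ (hP n)
      have h3 := hc (n + 1)
      nlinarith
  have hgeo : ∀ k m, c (m + k) ≤ c k * (1 / 2) ^ m := by
    intro k m
    induction m with
    | zero => simp
    | succ m ih =>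
      have := hhalf (m + k)
      rw [show m + 1 + k = m + k + 1 by ring, pow_succ]
      linarith
  let g : ℕ → ℕ → A := fun i m => if m % 2 = i then ((c m : ℝ) : ℂ) • x m else 0
  have hg : ∀ i m, ‖g i m‖ ≤ c m := by
    intro i m
    by_cases h : m % 2 = i
    · simp only [g, if_pos h, norm_smul, Complex.norm_real, Real.norm_of_nonneg (hc m).le]
      exact mul_le_of_le_one_right (hc m).le (hG m).1
    · simp only [g, if_neg h, norm_zero]
      exact (hc m).le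
  have hsum : ∀ i, Summable (g i) := fun i =>
    Summable.of_norm_bounded (summable_geometric_two.mul_left (c 0))
      fun m => (hg i m).trans (hgeo 0 m)
  have hdec : ∀ n, ∃ h τ : A, ∑' m, g (n % 2) m = h + ((c n : ℝ) : ℂ) • x n + τ ∧
      h * W n = h ∧ ‖τ‖ ≤ 2 * c (n + 2) := by
    intro n
    refine ⟨∑ m ∈ Finset.range n, g (n % 2) m, ∑' m, g (n % 2) (m + (n + 2)), ?_, ?_, ?_⟩
    · rw [← (hsum _).sum_add_tsum_nat_add (n + 2), Finset.sum_range_succ, Finset.sum_range_succ]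
      have h1 : g (n % 2) n = ((c n : ℝ) : ℂ) • x n := if_pos rfl
      have h2 : g (n % 2) (n + 1) = 0 := if_neg (by omega)
      rw [h1, h2, add_zero]
    · rw [Finset.sum_mul]
      refine Finset.sum_congr rfl fun m hm => ?_
      by_cases h : m % 2 = n % 2
      · have := Finset.mem_range.1 hm
        simp only [g, if_pos h]
        rw [smul_mul_assoc, hxW m n (by omega)]
      · simp only [g, if_neg h, zero_mul]
    · rw [mul_comm]
      exact tsum_of_norm_bounded (hasSum_geometric_two.mul_left (c (n + 2)))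
        fun m => (hg _ _).trans (hgeo _ m)
  have hc1 : ∀ n, c n ≤ 1 := fun n => by
    have h1 := hgeo 0 n
    have h2 : (1 / 2 : ℝ) ^ n ≤ 1 := pow_le_one₀ (by norm_num) (by norm_num)
    rw [c0] at h1
    simpa using h1.trans (by linarith)
  have htail : ∀ n, P n * (2 * c (n + 2)) ≤ (1 / 2) ^ n / (4 * P n) := by
    intro n
    have h1 := hP n
    have h2 : P n * (2 * c (n + 2)) = c (n + 1) * ((1 / 2) ^ n / (4 * P n)) := by
      rw [hc2]; field_simp; ring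
    rw [h2]
    exact mul_le_of_le_one_left (by positivity) (hc1 _)
  have hν : ∀ n, 2 * ‖ν n‖ ≤ P n * c n := fun n => by linarith [(hG n).2.2.2.1, hP1 n]
  have hα : ∀ n, c n / 2 ≤ ‖ν n (∑' m, g (n % 2) m)‖ := by
    intro n
    obtain ⟨h, τ, e, hh, hτ⟩ := hdec n
    rw [e, map_add, map_add, map_smul, (hG n).2.2.1, (hG n).2.2.2.2.2 h hh, zero_add,
      smul_eq_mul, mul_one]
    have h1 : ‖ν n τ‖ ≤ ‖ν n‖ * (2 * c (n + 2)) := ((ν n).le_opNorm τ).trans (by gcongr)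
    have h2 : (1 / 2 : ℝ) ^ n / (4 * P n) ≤ 1 := by
      have h3 : (1 / 2 : ℝ) ^ n ≤ 1 := pow_le_one₀ (by norm_num) (by norm_num)
      rw [div_le_one (by have := hP n; positivity)]
      linarith [hP n]
    have h3 : 2 * ‖ν n‖ * (2 * c (n + 2)) ≤ P n * c n * (2 * c (n + 2)) :=
      mul_le_mul_of_nonneg_right (hν n) (by have := hc (n + 2); positivity)
    have h4 : P n * (2 * c (n + 2)) * c n ≤ 1 * c n :=
      mul_le_mul_of_nonneg_right ((htail n).trans h2) (hc n).le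
    have h5 : ‖((c n : ℝ) : ℂ)‖ ≤ ‖((c n : ℝ) : ℂ) + ν n τ‖ + ‖ν n τ‖ := norm_le_add_norm_add _ _
    rw [Complex.norm_real, Real.norm_of_nonneg (hc n).le] at h5
    linarith
  have hα0 : ∀ n, 0 < ‖ν n (∑' m, g (n % 2) m)‖ := fun n =>
    lt_of_lt_of_le (half_pos (hc n)) (hα n)
  have hl : ∀ n (Q : ℝ), 2 * ‖ν n‖ ≤ Q * c n → 0 ≤ Q →
      ‖(ν n (∑' m, g (n % 2) m))⁻¹ • ν n‖ ≤ Q := by
    intro n Q h hQ
    rw [norm_smul, norm_inv, inv_mul_le_iff₀ (hα0 n)]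
    nlinarith [hα n]
  refine ⟨fun i => ∑' m, g i m, fun n => (ν n (∑' m, g (n % 2) m))⁻¹ • ν n, P, ?_, hP,
    fun n => ?_, fun n => hl n _ (hν n) (by linarith [hP n]),
    fun n => hl _ _ (by linarith [(hG (n + 1)).2.2.2.1, hP2 n]) (by linarith [hP n]),
    fun n => (hl n _ (hν n) (by linarith [hP n])).trans (hm n), fun n y => ?_⟩
  · change (∑' m, g 0 m) * (∑' m, g 1 m) = 0
    rw [← (hsum 0).tsum_mul_right]
    refine (tsum_congr fun m => ?_).trans tsum_zero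
    rw [← (hsum 1).tsum_mul_left]
    refine (tsum_congr fun n => ?_).trans tsum_zero
    by_cases h : m % 2 = 0
    · by_cases h' : n % 2 = 1
      · simp only [g, if_pos h, if_pos h']
        rw [smul_mul_assoc, mul_smul_comm]
        rcases lt_trichotomy m n with k | k | k
        · rw [((hG n).2.1 _ (hxV m n k)).2, smul_zero, smul_zero]
        · omega
        · rw [((hG m).2.1 _ (hxV n m k)).1, smul_zero, smul_zero]
      · simp only [g, if_neg h', mul_zero]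
    · simp only [g, if_neg h, zero_mul]
  · rw [smul_apply, smul_eq_mul, inv_mul_cancel₀ (norm_pos_iff.1 (hα0 n))]
  · obtain ⟨h, τ, e, hh, hτ⟩ := hdec n
    have h1 : ν n (mu n (∑' m, g (n % 2) m) y) =
        ((c n : ℝ) : ℂ) * ν n (mu n (x n) y) + ν n (mu n τ y) := by
      rw [e]
      have k1 : ν n (h * y) = 0 := (hG n).2.2.2.2.2 _ (by rw [mul_assoc, ← hW, ← mul_assoc, hh])
      have k2 : ν n (y * h) = 0 := (hG n).2.2.2.2.2 _ (by rw [mul_assoc, hh])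
      by_cases hn : n % 2 = 0
      · simp [mu, hn, add_mul, k1, smul_mul_assoc, -Complex.coe_smul]
      · simp [mu, hn, mul_add, k2, mul_smul_comm, -Complex.coe_smul]
    have h2 : ‖mu n τ y‖ ≤ 2 * c (n + 2) * ‖y‖ := by
      have k : ‖τ‖ * ‖y‖ ≤ 2 * c (n + 2) * ‖y‖ := by gcongr
      unfold mu
      split_ifs
      · exact (norm_mul_le _ _).trans k
      · exact (norm_mul_le _ _).trans (by rwa [mul_comm])
    have h3 : ‖ν n (mu n τ y)‖ ≤ ‖ν n‖ * (2 * c (n + 2) * ‖y‖) :=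
      ((ν n).le_opNorm _).trans (by gcongr)
    have h4 := (hG n).2.2.2.2.1 y
    have h5 : ‖ν n (mu n (∑' m, g (n % 2) m) y)‖ ≤
        c n * ((1 / 2) ^ n / (8 * P n) * ‖y‖) + ‖ν n‖ * (2 * c (n + 2) * ‖y‖) := by
      rw [h1]
      refine (norm_add_le _ _).trans (add_le_add ?_ h3)
      rw [norm_mul, Complex.norm_real, Real.norm_of_nonneg (hc n).le]
      exact mul_le_mul_of_nonneg_left h4 (hc n).le
    have h6 : 2 * ‖ν n‖ * (2 * c (n + 2) * ‖y‖) ≤ P n * c n * (2 * c (n + 2) * ‖y‖) :=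
      mul_le_mul_of_nonneg_right (hν n) (by have := hc (n + 2); positivity)
    have h7 : P n * (2 * c (n + 2)) * (c n * ‖y‖) ≤ (1 / 2) ^ n / (4 * P n) * (c n * ‖y‖) :=
      mul_le_mul_of_nonneg_right (htail n) (by have := hc n; positivity)
    have hp := hP n
    set t : ℝ := (1 / 2) ^ n / (8 * P n) with ht
    have e1 : (1 / 2 : ℝ) ^ n / (4 * P n) = 2 * t := by rw [ht]; field_simp; ring
    have e2 : (1 / 2 : ℝ) ^ n / (2 * P n) = 4 * t := by rw [ht]; field_simp; ring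
    have ht0 : 0 ≤ t := by positivity
    rw [smul_apply, smul_eq_mul, norm_mul, norm_inv, inv_mul_le_iff₀ (hα0 n), e2]
    rw [e1] at h7
    have h8 : c n / 2 * (4 * t * ‖y‖) ≤ ‖ν n (∑' m, g (n % 2) m)‖ * (4 * t * ‖y‖) :=
      mul_le_mul_of_nonneg_right (hα n) (by positivity)
    linarith

end Pool.Agent.Lib.MP_bcc96c_an
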