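import Pool.Agent.Lib.MP_bcc96c_an.Main
import Pool.Agent.Lib.MP_bcc96c_an.UnbSeq

/-! The chain argument. -/

set_option maxSynthPendingDepth 3

namespace Pool.Agent.Lib.MP_bcc96c_an

universe u

variable {A : Type u} [NonUnitalNormedRing A] [NormedSpace ℂ A] [IsScalarTower ℂ A A]
  [SMulCommClass ℂ A A]

theorem link (η : XM A →L[ℂ] ℂ) {a b : A} {ε : ℝ} (hab : a * b = 0)
    (ha : ‖η.comp (RM A a) - η.comp (LM A a) - DM A a‖ ≤ ε)
    (hb : ‖η.comp (RM A b) - η.comp (LM A b) - DM A b‖ ≤ ε) (l μ : A →L[ℂ] ℂ)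
    (hl : l a = 1) (hμ : μ b = 1) :
    ‖η (0, 0, μ.comp (rm b)) - η (0, l.comp (lm a), 0)‖ ≤
      ε * (‖l‖ * ‖μ.comp (rm b)‖ + ‖l.comp (lm a)‖ * ‖μ‖) := by
  have h1 := (η.comp (RM A a) - η.comp (LM A a) - DM A a).le_of_opNorm_le ha
    (tens l (μ.comp (rm b)))
  have h2 := (η.comp (RM A b) - η.comp (LM A b) - DM A b).le_of_opNorm_le hb
    (tens (l.comp (lm a)) μ)
  have n1 : ∀ φ ψ : A →L[ℂ] ℂ, ‖tens φ ψ‖ = ‖φ‖ * ‖ψ‖ := fun φ ψ => by
    simp [tens_apply, Prod.norm_def]; positivity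
  have e1 : RM A a (tens l (μ.comp (rm b))) =
      tens (l.comp (lm a)) (μ.comp (rm b)) + (0, 0, μ.comp (rm b)) := by
    rw [RM_apply, tens_apply, tens_apply]
    ext <;> simp [hl]
  have e2 : LM A a (tens l (μ.comp (rm b))) = 0 := by
    rw [LM_apply, tens_apply]
    ext <;> simp [mul_assoc, hab]
  have e3 : RM A b (tens (l.comp (lm a)) μ) = 0 := by
    rw [RM_apply, tens_apply]
    ext <;> simp [← mul_assoc, hab]
  have e4 : LM A b (tens (l.comp (lm a)) μ) =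
      tens (l.comp (lm a)) (μ.comp (rm b)) + (0, l.comp (lm a), 0) := by
    rw [LM_apply, tens_apply, tens_apply]
    ext <;> simp [hμ]
  have e5 : ∀ (s : A) (φ ψ : A →L[ℂ] ℂ), DM A s (tens φ ψ) = 0 := fun s φ ψ => by
    rw [DM_apply, tens_apply]; simp
  change ‖η (RM A a _) - η (LM A a _) - DM A a _‖ ≤ _ at h1
  change ‖η (RM A b _) - η (LM A b _) - DM A b _‖ ≤ _ at h2
  rw [e1, e2, e5, n1, map_add, map_zero, sub_zero, sub_zero] at h1
  rw [e3, e4, e5, n1, map_add, map_zero, sub_zero, zero_sub, norm_neg] at h2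
  have h3 := norm_sub_le (η (tens (l.comp (lm a)) (μ.comp (rm b))) + η (0, 0, μ.comp (rm b)))
    (η (tens (l.comp (lm a)) (μ.comp (rm b))) + η (0, l.comp (lm a), 0))
  rw [add_sub_add_left_eq_sub] at h3
  linarith

theorem bai_of_aa [CompleteSpace A] (hD : Dense (LU A))
    (h : ∀ F : Finset A, ∀ ε : ℝ, 0 < ε → ∃ η : XM A →L[ℂ] ℂ,
      ∀ a ∈ F, ‖η.comp (RM A a) - η.comp (LM A a) - DM A a‖ < ε) :
    ∃ K : ℝ, ∀ F : Finset A, ∀ ε : ℝ, 0 < ε →
      ∃ e : A, ‖e‖ ≤ K ∧ ∀ a ∈ F, ‖e * a - a‖ < ε ∧ ‖a * e - a‖ < ε := by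
  classical
  by_contra hno
  obtain ⟨S, l, P, hS, hP, hl, h1, h2, h3, h4⟩ := pair hD hno
  have hP0 := hP 0
  set ε : ℝ := 1 / (2 * (P 0 + 2)) with hε
  have hε0 : 0 < ε := by positivity
  obtain ⟨η, hη⟩ := h {S 0, S 1} ε hε0
  have ha := (hη (S 0) (by simp)).le
  have hb := (hη (S 1) (by simp)).le
  let v : ℕ → XM A := fun n =>
    if n % 2 = 0 then (0, (l n).comp (lm (S 0)), 0) else (0, 0, (l n).comp (rm (S 1)))
  have k0 : ∀ n, n % 2 = 0 → ‖(l n).comp (lm (S 0))‖ ≤ (1 / 2) ^ n / (2 * P n) := fun n hn =>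
    ContinuousLinearMap.opNorm_le_bound _ (by have := hP n; positivity) fun y => by
      simpa [mu, hn] using h4 n y
  have k1 : ∀ n, n % 2 = 1 → ‖(l n).comp (rm (S 1))‖ ≤ (1 / 2) ^ n / (2 * P n) := fun n hn =>
    ContinuousLinearMap.opNorm_le_bound _ (by have := hP n; positivity) fun y => by
      simpa [mu, hn] using h4 n y
  have num : ∀ (n : ℕ) (p q r s : ℝ), 0 ≤ q → 0 ≤ s → p ≤ P n → r ≤ P (n + 1) →
      q ≤ (1 / 2) ^ n / (2 * P n) → s ≤ (1 / 2) ^ (n + 1) / (2 * P (n + 1)) →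
      p * q + r * s ≤ (1 / 2) ^ n := by
    intro n p q r s hq hs hp hr hq' hs'
    have a1 := hP n
    have a2 := hP (n + 1)
    rw [le_div_iff₀ (by positivity)] at hq' hs'
    rw [pow_succ] at hs'
    have a3 : (0 : ℝ) ≤ (1 / 2) ^ n := by positivity
    nlinarith [mul_le_mul_of_nonneg_right hp hq, mul_le_mul_of_nonneg_right hr hs]
  have hstep : ∀ n, ‖η (v n) - η (v (n + 1))‖ ≤ ε * (1 / 2) ^ n := by
    intro n
    rcases Nat.mod_two_eq_zero_or_one n with hn | hn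
    · have hn' : (n + 1) % 2 = 1 := by omega
      have := link η hS ha hb (l n) (l (n + 1)) (by simpa [hn] using hl n)
        (by simpa [hn'] using hl (n + 1))
      simp only [v, if_pos hn, if_neg (show ¬ (n + 1) % 2 = 0 by omega)]
      rw [norm_sub_rev]
      refine this.trans (mul_le_mul_of_nonneg_left ?_ hε0.le)
      have := num n _ _ _ _ (norm_nonneg _) (norm_nonneg _) (h2 n) (h3 n) (k0 n hn) (k1 _ hn')
      linarith
    · have hn' : (n + 1) % 2 = 0 := by omega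
      have := link η hS ha hb (l (n + 1)) (l n) (by simpa [hn'] using hl (n + 1))
        (by simpa [hn] using hl n)
      simp only [v, if_pos hn', if_neg (show ¬ n % 2 = 0 by omega)]
      refine this.trans (mul_le_mul_of_nonneg_left ?_ hε0.le)
      have := num n _ _ _ _ (norm_nonneg _) (norm_nonneg _) (h2 n) (h3 n) (k1 n hn) (k0 _ hn')
      linarith
  have hsum : ∀ n, ‖η (v 0) - η (v n)‖ ≤ ε * (2 - 2 * (1 / 2) ^ n) := by
    intro n
    induction n with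
    | zero => simp
    | succ n ih =>
      have a1 := norm_sub_le_norm_sub_add_norm_sub (η (v 0)) (η (v n)) (η (v (n + 1)))
      have a2 := hstep n
      rw [pow_succ]
      linarith
  have hv : ∀ n, ‖v n‖ ≤ (1 / 2) ^ n := by
    intro n
    have a1 : (1 / 2 : ℝ) ^ n / (2 * P n) ≤ (1 / 2) ^ n :=
      div_le_self (by positivity) (by linarith [hP n])
    rcases Nat.mod_two_eq_zero_or_one n with hn | hn
    · simpa [v, hn, Prod.norm_def] using (k0 n hn).trans a1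
    · simpa [v, hn, Prod.norm_def] using (k1 n hn).trans a1
  have hstart : ‖η (v 0) - 1‖ ≤ ε * P 0 := by
    have a1 := (η.comp (RM A (S 0)) - η.comp (LM A (S 0)) - DM A (S 0)).le_of_opNorm_le ha
      (0, l 0, 0)
    have a2 : RM A (S 0) (0, l 0, 0) = v 0 := by
      rw [RM_apply]; ext <;> simp [v]
    have a3 : LM A (S 0) (0, l 0, 0) = 0 := by rw [LM_apply]; ext <;> simp
    have a4 : DM A (S 0) (0, l 0, 0) = 1 := by rw [DM_apply]; simpa using hl 0
    have a5 : ‖((0, l 0, 0) : XM A)‖ = ‖l 0‖ := by simp [Prod.norm_def]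
    change ‖η (RM A (S 0) _) - η (LM A (S 0) _) - DM A (S 0) _‖ ≤ _ at a1
    rw [a2, a3, a4, a5, map_zero, sub_zero] at a1
    exact a1.trans (mul_le_mul_of_nonneg_left (h1 0) hε0.le)
  obtain ⟨n, hn⟩ := exists_pow_lt_of_lt_one (x := 1 / (2 * (‖η‖ + 1))) (y := (1 / 2 : ℝ))
    (by positivity) (by norm_num)
  rw [lt_div_iff₀ (by positivity)] at hn
  have b1 : ‖η (v n)‖ ≤ ‖η‖ * (1 / 2) ^ n := (η.le_opNorm _).trans (by gcongr; exact hv n)
  have b2 : (1 : ℝ) ≤ ‖η (v 0) - 1‖ + ‖η (v 0) - η (v n)‖ + ‖η (v n)‖ := by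
    have : (1 : ℂ) = (η (v 0) - η (v n)) - (η (v 0) - 1) + η (v n) := by ring
    calc (1 : ℝ) = ‖(1 : ℂ)‖ := norm_one.symm
      _ = ‖(η (v 0) - η (v n)) - (η (v 0) - 1) + η (v n)‖ := congrArg norm this
      _ ≤ _ := by
        refine (norm_add_le _ _).trans ?_
        linarith [norm_sub_le (η (v 0) - η (v n)) (η (v 0) - 1)]
  have b3 : ε * (P 0 + 2) = 1 / 2 := by rw [hε]; field_simp
  have b4 : (0 : ℝ) ≤ (1 / 2) ^ n := by positivity
  have b5 := hsum n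
  nlinarith [mul_nonneg hε0.le b4]

end Pool.Agent.Lib.MP_bcc96c_an
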