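import Pool.Agent.Lib.MP_bcc96c_an.Defs

/-! Approximate amenability with no bound on the net. -/

namespace Pool.Agent.Lib.MP_bcc96c_an

universe u

/-- `D` is a pointwise norm limit of inner derivations. -/
def ApproxInner {A X : Type u} [NormedAddCommGroup X] [NormedSpace ℂ X]
    (L R : A → X →L[ℂ] X) (D : A → X →L[ℂ] ℂ) : Prop :=
  ∀ F : Finset A, ∀ ε : ℝ, 0 < ε → ∃ η : X →L[ℂ] ℂ, ∀ a ∈ F, ‖ad L R η a - D a‖ < ε

/-- Every bounded derivation into the dual of the Banach bimodule `X` with actions `L`, `R` is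
approximately inner. -/
def AllApprox {A X : Type u} [NonUnitalNormedRing A] [NormedSpace ℂ A] [NormedAddCommGroup X]
    [NormedSpace ℂ X] (L R : A → X →L[ℂ] X) : Prop :=
  ∀ D : A →L[ℂ] (X →L[ℂ] ℂ),
    IsDerivation (fun a x => L a x) (fun a x => R a x) (fun a x => D a x) → ApproxInner L R D

/-- Approximate amenability. -/
def AA (A : Type u) [NonUnitalNormedRing A] [NormedSpace ℂ A] : Prop :=
  ∀ (X : Type u) [NormedAddCommGroup X] [NormedSpace ℂ X] [CompleteSpace X]
    (L R : A →L[ℂ] X →L[ℂ] X), IsBimodule (fun a x => L a x) (fun a x => R a x) → AllApprox L R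

end Pool.Agent.Lib.MP_bcc96c_an
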