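import Pool.Agent.Lib.MP_bcc96c_an.Core

/-! Algebras with central local units and no bounded approximate identity: elements far from
having small units, in the annihilator of given elements. -/

namespace Pool.Agent.Lib.MP_bcc96c_an

/-- Elements fixed by some central element. -/
def LU (B : Type*) [Mul B] : Set B := {x | ∃ z : B, (∀ y, z * y = y * z) ∧ x * z = x}

section ring

variable {B : Type*} [NonUnitalNormedRing B]

theorem bad (hD : Dense (LU B))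
    (hno : ¬ ∃ K : ℝ, ∀ s ∈ LU B, ∃ e : B, ‖e‖ ≤ K ∧ s * e = s)
    (V W : B) (hV : ∀ y, V * y = y * V) (hW : ∀ y, W * y = y * W) {r : ℝ} (hr : 0 ≤ r) :
    ∃ w ∈ LU B, ∀ u : B, ‖u‖ ≤ r →
      ‖w - V * w‖ / 2 < ‖((w - V * w) - W * (w - V * w)) * u - ((w - V * w) - W * (w - V * w))‖ := by
  by_contra hc
  push Not at hc
  have h1 : ∀ w : B, ∃ u : B, ‖u‖ ≤ r ∧
      ‖((w - V * w) - W * (w - V * w)) * u - ((w - V * w) - W * (w - V * w))‖ ≤
        ‖w - V * w‖ / 2 + 1 := by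
    intro w
    set δ : ℝ := 1 / ((1 + ‖V‖) * ((1 + ‖W‖) * (1 + r) + 1)) with hδ
    have hδ0 : 0 < δ := by positivity
    obtain ⟨w', hw', hd⟩ := hD.exists_dist_lt w hδ0
    rw [dist_eq_norm] at hd
    obtain ⟨u, hu, h⟩ := hc w' hw'
    refine ⟨u, hu, ?_⟩
    set y := (w - w') - V * (w - w') with hy
    have hy1 : ‖y‖ ≤ (1 + ‖V‖) * δ := by
      refine (norm_sub_le _ _).trans ?_
      have := norm_mul_le V (w - w')
      nlinarith [norm_nonneg V, norm_nonneg (w - w')]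
    have hy2 : ‖y - W * y‖ ≤ (1 + ‖W‖) * ‖y‖ := by
      refine (norm_sub_le _ _).trans ?_
      have := norm_mul_le W y
      linarith
    have hy3 : ‖(y - W * y) * u - (y - W * y)‖ ≤ (1 + ‖W‖) * ‖y‖ * (1 + r) := by
      refine (norm_sub_le _ _).trans ?_
      have h3 := norm_mul_le (y - W * y) u
      have h4 : ‖y - W * y‖ * ‖u‖ ≤ (1 + ‖W‖) * ‖y‖ * r := by gcongr
      linarith
    have e1 : ((w - V * w) - W * (w - V * w)) * u - ((w - V * w) - W * (w - V * w)) =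
        (((w' - V * w') - W * (w' - V * w')) * u - ((w' - V * w') - W * (w' - V * w'))) +
          ((y - W * y) * u - (y - W * y)) := by
      rw [hy]; noncomm_ring
    have e2 : w' - V * w' = (w - V * w) - y := by rw [hy]; noncomm_ring
    have h5 : ‖w' - V * w'‖ ≤ ‖w - V * w‖ + ‖y‖ := by rw [e2]; exact norm_sub_le _ _
    have h6 : ‖y‖ * ((1 + ‖W‖) * (1 + r) + 1) ≤ 1 := by
      calc _ ≤ (1 + ‖V‖) * δ * ((1 + ‖W‖) * (1 + r) + 1) := by gcongr
        _ = 1 := by rw [hδ]; field_simp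
    rw [e1]
    refine (norm_add_le _ _).trans ?_
    nlinarith [norm_nonneg y]
  set C : ℝ := (1 + ‖V‖) * (‖W‖ + r + ‖W‖ * r) + 1 with hC
  have hC0 : 0 < C := by positivity
  have h2 : ∀ s e : B, s * e = s → ∃ e' : B, s * e' = s ∧
      ‖e' - V * e'‖ ≤ C + ‖e - V * e‖ / 2 := by
    intro s e he
    obtain ⟨u, hu, h⟩ := h1 e
    set t := W + u - W * u with ht
    refine ⟨t + e - e * t, ?_, ?_⟩
    · calc s * (t + e - e * t) = s * t + s * e - s * e * t := by noncomm_ring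
        _ = s := by rw [he]; abel
    · have e1 : (t + e - e * t) - V * (t + e - e * t) = (t - V * t) -
          (((e - V * e) - W * (e - V * e)) * u - ((e - V * e) - W * (e - V * e))) := by
        have : W * (e - V * e) = (e - V * e) * W := hW _
        rw [this, ht]; noncomm_ring
      have h3 : ‖t‖ ≤ ‖W‖ + r + ‖W‖ * r := by
        refine (norm_sub_le _ _).trans (add_le_add ((norm_add_le _ _).trans (by gcongr)) ?_)
        exact (norm_mul_le _ _).trans (by gcongr)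
      have h4 : ‖t - V * t‖ ≤ (1 + ‖V‖) * (‖W‖ + r + ‖W‖ * r) := by
        refine (norm_sub_le _ _).trans ?_
        have h5 : ‖V * t‖ ≤ ‖V‖ * (‖W‖ + r + ‖W‖ * r) := (norm_mul_le _ _).trans (by gcongr)
        linarith
      rw [e1]
      refine (norm_sub_le _ _).trans ?_
      linarith
  refine hno ⟨‖V‖ + (2 * C + 1), fun s hs => ?_⟩
  obtain ⟨z, -, hz⟩ := hs
  have h3 : ∀ n : ℕ, ∃ e : B, s * e = s ∧ ‖e - V * e‖ ≤ 2 * C + ‖z - V * z‖ * (1 / 2) ^ n := by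
    intro n
    induction n with
    | zero => exact ⟨z, hz, by simp; positivity⟩
    | succ n ih =>
      obtain ⟨e, he, h⟩ := ih
      obtain ⟨e', he', h'⟩ := h2 s e he
      refine ⟨e', he', ?_⟩
      rw [pow_succ]
      linarith
  obtain ⟨n, hn⟩ := exists_pow_lt_of_lt_one (x := 1 / (‖z - V * z‖ + 1)) (y := (1 / 2 : ℝ))
    (by positivity) (by norm_num)
  obtain ⟨e, he, h⟩ := h3 n
  refine ⟨V + (e - V * e), ?_, ?_⟩
  · refine (norm_add_le _ _).trans ?_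
    rw [lt_div_iff₀ (by positivity)] at hn
    have : 0 ≤ (1 / 2 : ℝ) ^ n := by positivity
    nlinarith
  · calc s * (V + (e - V * e)) = s * V + s * e - s * V * e := by noncomm_ring
      _ = s := by rw [← hV s, mul_assoc, he]; abel

theorem bai_of_central (hD : Dense (LU B)) {K : ℝ}
    (h : ∀ z : B, (∀ y, z * y = y * z) → ∀ ε : ℝ, 0 < ε → ∃ e : B, ‖e‖ ≤ K ∧ ‖z * e - z‖ < ε) :
    ∃ K : ℝ, ∀ F : Finset B, ∀ ε : ℝ, 0 < ε →
      ∃ e : B, ‖e‖ ≤ K ∧ ∀ a ∈ F, ‖e * a - a‖ < ε ∧ ‖a * e - a‖ < ε := by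
  classical
  refine ⟨|K|, fun F ε hε => ?_⟩
  set δ : ℝ := ε / (|K| + 2) with hδ
  have hδ0 : 0 < δ := by positivity
  choose g hg hgd using fun a : B => hD.exists_dist_lt a hδ0
  have h1 : ∃ z : B, (∀ y, z * y = y * z) ∧ ∀ a ∈ F, g a * z = g a := by
    induction F using Finset.induction_on with
    | empty => exact ⟨0, by simp, by simp⟩
    | insert a F _ ih =>
      obtain ⟨z, hz, hF⟩ := ih
      obtain ⟨z', hz', ha⟩ := hg a
      refine ⟨z + z' - z * z', fun y => ?_, fun b hb => ?_⟩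
      · rw [sub_mul, add_mul, mul_sub, mul_add, hz, hz', mul_assoc, hz', ← mul_assoc, hz y,
          mul_assoc]
      · rcases Finset.mem_insert.1 hb with rfl | hb
        · rw [mul_sub, mul_add, hz z', ← mul_assoc, ha]; abel
        · rw [mul_sub, mul_add, ← mul_assoc, hF b hb]; abel
  obtain ⟨z, hz, hF⟩ := h1
  set M : ℝ := ∑ a ∈ F, ‖g a‖ with hM
  have hM0 : 0 ≤ M := Finset.sum_nonneg fun _ _ => norm_nonneg _
  obtain ⟨e, he, hze⟩ := h z hz (δ / (M + 1)) (by positivity)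
  replace he := he.trans (le_abs_self K)
  refine ⟨e, he, fun a ha => ?_⟩
  have h2 : ‖a - g a‖ < δ := by simpa [dist_eq_norm] using hgd a
  have h3 : ‖g a‖ ≤ M := Finset.single_le_sum (f := fun a => ‖g a‖) (fun _ _ => norm_nonneg _) ha
  have h4 : ‖g a‖ * ‖z * e - z‖ ≤ δ := by
    rw [lt_div_iff₀ (by positivity)] at hze
    nlinarith [norm_nonneg (z * e - z)]
  have h5 : (|K| + 2) * δ = ε := by rw [hδ]; field_simp
  have h6 : ‖a - g a‖ * ‖e‖ ≤ δ * |K| := by gcongr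
  constructor
  · have e1 : e * a - a = (e * (a - g a) + (z * e - z) * g a) - (a - g a) := by
      have : (z * e - z) * g a = e * g a - g a := by
        rw [sub_mul, hz e, mul_assoc, hz (g a), hF a ha]
      rw [this]; noncomm_ring
    have k1 := norm_mul_le e (a - g a)
    have k2 := norm_mul_le (z * e - z) (g a)
    have k3 := norm_add_le (e * (a - g a)) ((z * e - z) * g a)
    rw [e1]
    refine (norm_sub_le _ _).trans_lt ?_
    nlinarith
  · have e1 : a * e - a = ((a - g a) * e + g a * (z * e - z)) - (a - g a) := by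
      have : g a * (z * e - z) = g a * e - g a := by
        rw [mul_sub, ← mul_assoc, hF a ha]
      rw [this]; noncomm_ring
    have k1 := norm_mul_le (a - g a) e
    have k2 := norm_mul_le (g a) (z * e - z)
    have k3 := norm_add_le ((a - g a) * e) (g a * (z * e - z))
    rw [e1]
    refine (norm_sub_le _ _).trans_lt ?_
    nlinarith

theorem central_of_exact (hD : Dense (LU B)) {K : ℝ}
    (h : ∀ s ∈ LU B, ∃ e : B, ‖e‖ ≤ K ∧ s * e = s) (z : B) (ε : ℝ) (hε : 0 < ε) :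
    ∃ e : B, ‖e‖ ≤ K ∧ ‖z * e - z‖ < ε := by
  obtain ⟨s, hs, hd⟩ := hD.exists_dist_lt z (show 0 < ε / (|K| + 1) by positivity)
  rw [dist_eq_norm, lt_div_iff₀ (by positivity)] at hd
  obtain ⟨e, he, hse⟩ := h s hs
  refine ⟨e, he, ?_⟩
  have e1 : z * e - z = (z - s) * e - (z - s) := by rw [sub_mul, hse]; abel
  have k1 : ‖(z - s) * e‖ ≤ ‖z - s‖ * |K| :=
    (norm_mul_le _ _).trans (by gcongr; exact he.trans (le_abs_self K))
  rw [e1]
  refine (norm_sub_le _ _).trans_lt ?_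
  linarith

end ring

variable {B : Type*} [NonUnitalNormedRing B] [NormedSpace ℂ B] [IsScalarTower ℂ B B]
  [SMulCommClass ℂ B B]

theorem key (hD : Dense (LU B))
    (hno : ¬ ∃ K : ℝ, ∀ s ∈ LU B, ∃ e : B, ‖e‖ ≤ K ∧ s * e = s)
    (V W : B) (hV : ∀ y, V * y = y * V) (hW : ∀ y, W * y = y * W) {d : ℝ} (hd : 0 < d) :
    ∃ (x : B) (ν : B →L[ℂ] ℂ), x ∈ LU B ∧ ‖x‖ ≤ 1 ∧
      (∀ y, y * V = y → x * y = 0 ∧ y * x = 0) ∧ ν x = 1 ∧ ‖ν‖ ≤ 4 * (1 + ‖W‖) ∧
      (∀ y, ‖ν (x * y)‖ ≤ d * ‖y‖) ∧ ∀ y, y * W = y → ν y = 0 := by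
  obtain ⟨w, ⟨z, hz, hwz⟩, hw⟩ := bad hD hno V W hV hW (r := 1 / d) (by positivity)
  set x₀ := w - V * w with hx₀
  have h0 : x₀ ≠ 0 := by
    intro h
    have := hw 0 (by simp; positivity)
    simp [h] at this
  have hp : 0 < ‖x₀‖ := norm_pos_iff.2 h0
  set q := x₀ - W * x₀ with hq
  have h1 : ∃ μ : B →L[ℂ] ℂ, 1 / d * ‖μ.comp (lm q)‖ + ‖x₀‖ / 4 * ‖μ‖ < (μ q).re := by
    by_contra hc
    push Not at hc
    obtain ⟨e, he, h⟩ := hb (S := Unit) (fun _ => lm q) (fun _ => q) (R := 1 / d)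
      (δ := ‖x₀‖ / 4) (ε := ‖x₀‖ / 4) (by positivity) (by positivity) (by positivity)
      (fun μ => by simpa using hc (μ ()))
    have h2 := h ()
    have h3 := hw e he
    simp only [lm_apply, Fintype.card_unique, Nat.cast_one, one_mul] at h2
    linarith
  obtain ⟨μ, hμ⟩ := h1
  have h2 : (μ q).re ≤ ‖μ q‖ := Complex.re_le_norm _
  have h3 : 0 ≤ 1 / d * ‖μ.comp (lm q)‖ := by positivity
  have h4 : 0 ≤ ‖x₀‖ / 4 * ‖μ‖ := by positivity
  have h5 : 0 < ‖μ q‖ := by linarith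
  have h6 : μ q ≠ 0 := norm_pos_iff.1 h5
  have h7 : ((‖x₀‖ : ℝ) : ℂ) ≠ 0 := by exact_mod_cast hp.ne'
  refine ⟨((‖x₀‖ : ℝ) : ℂ)⁻¹ • x₀, (((‖x₀‖ : ℝ) : ℂ) / μ q) • (μ - μ.comp (lm W)),
    ⟨z, hz, ?_⟩, ?_, fun y hy => ⟨?_, ?_⟩, ?_, ?_, fun y => ?_, fun y hy => ?_⟩
  · rw [smul_mul_assoc, hx₀, sub_mul, mul_assoc, hwz]
  · rw [norm_smul, norm_inv, Complex.norm_real, norm_norm, inv_mul_cancel₀ hp.ne']
  · rw [smul_mul_assoc, hx₀, sub_mul, hV w, mul_assoc, hV y, hy, sub_self, smul_zero]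
  · rw [mul_smul_comm, hx₀, mul_sub, ← mul_assoc, hy, sub_self, smul_zero]
  · have : (μ - μ.comp (lm W)) x₀ = μ q := (μ.map_sub _ _).symm
    rw [smul_apply, map_smul, this, smul_eq_mul, smul_eq_mul]
    field_simp
  · have k1 : ‖μ - μ.comp (lm W)‖ ≤ ‖μ‖ * (1 + ‖W‖) := by
      refine (norm_sub_le _ _).trans ?_
      have := norm_comp_lm μ W
      linarith
    rw [norm_smul, norm_div, Complex.norm_real, norm_norm, div_mul_eq_mul_div, div_le_iff₀ h5]
    have k2 : ‖x₀‖ * ‖μ - μ.comp (lm W)‖ ≤ ‖x₀‖ * (‖μ‖ * (1 + ‖W‖)) := by gcongr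
    nlinarith [norm_nonneg W]
  · have k1 : (μ - μ.comp (lm W)) (x₀ * y) = μ.comp (lm q) y := by
      change μ (x₀ * y) - μ (W * (x₀ * y)) = μ (q * y)
      rw [← μ.map_sub, ← mul_assoc, ← sub_mul]
    have k2 : ((((‖x₀‖ : ℝ) : ℂ) / μ q) • (μ - μ.comp (lm W))) ((((‖x₀‖ : ℝ) : ℂ)⁻¹ • x₀) * y) =
        μ.comp (lm q) y / μ q := by
      rw [smul_apply, smul_mul_assoc, map_smul, k1, smul_eq_mul, smul_eq_mul]
      field_simp
    rw [k2, norm_div, div_le_iff₀ h5]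
    have k3 := (μ.comp (lm q)).le_opNorm y
    have k4 : ‖μ.comp (lm q)‖ ≤ d * ‖μ q‖ := by
      have : 1 / d * ‖μ.comp (lm q)‖ ≤ ‖μ q‖ := by linarith
      rw [div_mul_eq_mul_div, one_mul, div_le_iff₀ hd] at this
      linarith
    nlinarith [norm_nonneg y]
  · have : (μ - μ.comp (lm W)) y = 0 := by
      change μ y - μ (W * y) = 0
      rw [hW y, hy, sub_self]
    rw [smul_apply, this, smul_zero]

end Pool.Agent.Lib.MP_bcc96c_an
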